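import Pool.Agent.Lib.TQ.Blue
import Pool.Agent.Lib.HS32.MAll

/-! Project tq: the mean of a function. -/

open scoped Classical Topology ContDiff ComplexOrder Matrix
open Set MeasureTheory Complex Metric Filter

noncomputable section

namespace Pool.Agent.Lib.TQ

open Pool.Agent.Lib.SV (E)
open Pool.Agent.Lib.HS32
open Pool.Agent.Lib.HS95 (Lo Hi Vk lo jn)

namespace T66

variable {n k d : ℕ} {σ : Fin d ≃ Hi n k}

theorem dnjd (v : Vk n k) (w : E d) : dn σ (jd σ v w) = w := by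
  ext a
  simp only [dn, jd, jn, dif_neg (σ a).2, Subtype.coe_eta, Equiv.symm_apply_apply]

theorem jd_cv (w : E d) : Continuous fun v : Vk n k => jd σ v w := by
  refine continuous_pi fun i => ?_
  by_cases h : i.val < k
  · simp only [jd, jn, dif_pos h]
    fun_prop
  · simp only [jd, jn, dif_neg h]
    fun_prop

variable {M : Mf n} {h P : M.Fam (Mat n)} {Z : Mf d} (t : Tb M h P σ Z) (u : M.X → ℝ)

/-- The function read in a tube. -/
def Gt (e : Z.Ch) (z : E n) : ℂ := (u (t.Q e z) : ℝ)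

variable {t u} {e e' : Z.Ch} {z : E n} {c : M.Ch} {μ : Measure (Vk n k)}

theorem lc_ev (hc : Iv M (t.Q e) z c) : M.lc u c =ᶠ[𝓝 z] Gt t u e := by
  filter_upwards [hc.eq] with z' hz
  have := c.left_inv hz.1
  rw [hz.2] at this
  simp only [Mf.lc, Gt, this]

theorem Gt_sm (hu : M.Sm u) (he : e ∈ t.S) (hz : dn σ z ∈ e.target) :
    ContDiffAt ℝ ∞ (Gt t u e) z := by
  obtain ⟨c, -, hc⟩ := t.loc e he z hz
  obtain ⟨a1, a2⟩ := hc.eq.self_of_nhds
  have h1 : ContDiffAt ℝ ∞ (u ∘ c.symm) z := hu c hc.mem z (a2 ▸ c.map_source a1)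
  have h2 : ContDiffAt ℝ ∞ (M.lc u c) z := ofRealCLM.contDiff.contDiffAt.comp z h1
  exact h2.congr_of_eventuallyEq (lc_ev hc).symm

theorem pl_hs (he : e ∈ t.S) (hz : dn σ z ∈ e.target) :
    t.pl (M.hs u) e z = hess (Gt t u e) z := by
  obtain ⟨c, -, hc⟩ := t.loc e he z hz
  have H : ∃ c, Iv M (t.Q e) z c := ⟨c, hc⟩
  rw [Tb.pl, dif_pos H]
  exact hess_congr (lc_ev H.choose_spec)

theorem av_ind (hμ : t.Mu μ) (hu : M.Sm u) (he : e ∈ t.S) (he' : e' ∈ t.S) {x : Z.X}
    (hx : x ∈ e.source) (hx' : x ∈ e'.source) :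
    av σ μ (Gt t u e') (e' x) = av σ μ (Gt t u e) (e x) := by
  obtain ⟨b, hb⟩ := t.ov e he e' he' x hx hx'
  have h1 := hμ.inv (fun v => Gt t u e (jd σ v (e x)))
    (continuous_iff_continuousAt.2 fun v =>
      ContinuousAt.comp (g := Gt t u e) (f := fun v : Vk n k => jd σ v (e x))
        (Gt_sm hu he (by rw [dnjd]; exact e.map_source hx)).continuousAt (jd_cv _).continuousAt)
    (fun l hl v => by simp only [Gt, hl e he v]) b
  unfold av
  rw [← h1]
  simp only [Gt, hb.self_of_nhds]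

theorem av_re (w : E d) :
    av σ μ (Gt t u e) w = ((∫ v, u (t.Q e (jd σ v w)) ∂μ : ℝ) : ℂ) := integral_ofReal

end T66

open T66 in
theorem st_AVF (hP : St_PAR) : St_AVF := by
  intro n M h P k d σ Z t μ u hμ hu
  have := hμ.prob
  obtain ⟨K, hK, hK0⟩ := hμ.cpt
  choose s hs hx using t.sub.cov
  let u' : Z.X → ℝ := fun x => ∫ v, u (t.Q (s x) (jd σ v (s x x))) ∂μ
  have h1 : ∀ e ∈ t.S, ∀ w ∈ e.target, Z.lc u' e w = av σ μ (Gt t u e) w := fun e he w hw => by
    have := av_ind hμ hu he (hs (e.symm w)) (e.map_target hw) (hx _)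
    rw [e.right_inv hw, av_re] at this
    exact this
  have h2 : ∀ e ∈ t.S, ∀ w ∈ e.target, Z.lc u' e =ᶠ[𝓝 w] av σ μ (Gt t u e) := fun e he w hw => by
    filter_upwards [e.open_target.mem_nhds hw] with w' hw' using h1 e he w' hw'
  have h3 := fun e (he : e ∈ t.S) =>
    hP n k d σ μ K e.target (Gt t u e) hK hK0 e.open_target fun z hz => Gt_sm hu he hz
  refine ⟨u', (mSUB d Z t.S t.sub).2.1 ℝ u' fun e he w hw => ?_, fun e he w hw => ?_,
    fun e he w hw => ?_⟩
  · have a1 : ContDiffAt ℝ ∞ (Z.lc u' e) w :=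
      (h3 e he w hw).2.1.congr_of_eventuallyEq (h2 e he w hw)
    exact reCLM.contDiff.contDiffAt.comp w a1
  · have := h1 e he w hw
    rw [av_re] at this
    exact ofReal_injective this
  · ext a b
    have a1 : dz b (Z.lc u' e) =ᶠ[𝓝 w] av σ μ (dz (σ b).1 (Gt t u e)) := by
      filter_upwards [e.open_target.mem_nhds hw] with w' hw'
      rw [dz_congr (h2 e he w' hw'), ((h3 e he w' hw').2.2 b).1]
    have a2 := ((hP n k d σ μ K e.target (dz (σ b).1 (Gt t u e)) hK hK0 e.open_target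
      (fun z hz => cd_dz (Gt_sm hu he hz) _) w hw).2.2 a).2
    change dzb a (dz b (Z.lc u' e)) w = av σ μ (fun z => t.pl (M.hs u) e z (σ a).1 (σ b).1) w
    rw [dzb_congr a1, a2]
    unfold av
    congr 1
    ext v
    beta_reduce
    rw [pl_hs (z := jd σ v w) he (by rwa [dnjd])]
    rfl

end Pool.Agent.Lib.TQ
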