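import Pool.Agent.Lib.TQ.B_AVT

/-! Project tq: the mean is linear and preserves positive and closed forms. -/

open scoped Classical Topology ContDiff ComplexOrder Matrix
open Set MeasureTheory Complex Metric Filter

noncomputable section

namespace Pool.Agent.Lib.TQ

open Pool.Agent.Lib.SV (E)
open Pool.Agent.Lib.HS32 Pool.Agent.Lib.HW68
open Pool.Agent.Lib.HS95 (Lo Hi Vk lo jn)

namespace T28

theorem int_pos {V : Type} [MeasurableSpace V] {μ : Measure V} [IsProbabilityMeasure μ]
    {f : V → ℂ} (hf : Integrable f μ) (h0 : ∀ v, 0 < f v) : 0 < ∫ v, f v ∂μ := by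
  have e : f = fun v => ((f v).re : ℂ) := funext fun v =>
    Complex.ext rfl (by simpa using (Complex.pos_iff.1 (h0 v)).2.symm)
  have p : ∀ v, 0 < (f v).re := fun v => (Complex.pos_iff.1 (h0 v)).1
  rw [e, integral_complex_ofReal, Complex.zero_lt_real,
    integral_pos_iff_support_of_nonneg (fun v => (p v).le) hf.re,
    show (Function.support fun v => (f v).re) = univ from eq_univ_of_forall fun v => (p v).ne']
  simp

theorem int_pd {V : Type} [MeasurableSpace V] {μ : Measure V} [IsProbabilityMeasure μ] {d : ℕ}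
    {F : V → Mat d} (hf : ∀ a b, Integrable (fun v => F v a b) μ) {A : Mat d}
    (hA : ∀ a b, A a b = ∫ v, F v a b ∂μ) :
    ((∀ v, (F v).IsHermitian) → A.IsHermitian) ∧ ((∀ v, (F v).PosDef) → A.PosDef) := by
  have h1 : (∀ v, (F v).IsHermitian) → A.IsHermitian := fun h => by
    ext a b
    rw [Matrix.conjTranspose_apply, hA, hA, Complex.star_def, ← integral_conj]
    exact integral_congr_ae (Eventually.of_forall fun v => (h v).apply a b)
  refine ⟨h1, fun h => Matrix.PosDef.of_dotProduct_mulVec_pos (h1 fun v => (h v).1) fun x hx => ?_⟩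
  have i1 : ∀ a b, Integrable (fun v => star x a * (F v a b * x b)) μ := fun a b =>
    ((hf a b).mul_const _).const_mul _
  have k : ∀ B : Mat d, star x ⬝ᵥ B *ᵥ x = ∑ a, ∑ b, star x a * (B a b * x b) := fun B => by
    simp only [dotProduct, Matrix.mulVec, Finset.mul_sum]
  have := int_pos (μ := μ) (f := fun v => ∑ a, ∑ b, star x a * (F v a b * x b))
    (integrable_finsetSum _ fun a _ => integrable_finsetSum _ fun b _ => i1 a b)
    fun v => k (F v) ▸ (h v).dotProduct_mulVec_pos hx
  rw [integral_finsetSum _ fun a _ => integrable_finsetSum _ fun b _ => i1 a b] at this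
  rw [k]
  convert this using 2 with a
  rw [integral_finsetSum _ fun b _ => i1 a b]
  refine Finset.sum_congr rfl fun b _ => ?_
  rw [integral_const_mul, integral_mul_const, hA]

variable {n k d : ℕ} {σ : Fin d ≃ Hi n k} {M : Mf n} {T S h P : M.Fam (Mat n)} {Z : Mf d}
  (t : Tb M h P σ Z) {e : Z.Ch} {z : E n}

theorem pl_ev (hT : M.Ten T) (he : e ∈ t.S) (hz : dn σ z ∈ e.target) :
    ∃ c ∈ M.C, z ∈ c.target ∧ t.pl T e =ᶠ[𝓝 z] T c := by
  obtain ⟨c, -, hc⟩ := t.loc e he z hz
  obtain ⟨a1, a2⟩ := hc.eq.self_of_nhds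
  refine ⟨c, hc.mem, a2 ▸ c.map_source a1, ?_⟩
  filter_upwards [hc.eq.eventually_nhds] with u hu
  exact T68.pl_eq t hT ⟨hc.mem, hu⟩

theorem pl_add : t.pl (T + S) e z = t.pl T e z + t.pl S e z := by
  unfold Tb.pl
  split_ifs
  · rfl
  · simp

theorem pl_sub : t.pl (T - S) e z = t.pl T e z - t.pl S e z := by
  unfold Tb.pl
  split_ifs
  · rfl
  · simp

theorem pl_smul (c : ℝ) : t.pl (c • T) e z = c • t.pl T e z := by
  unfold Tb.pl
  split_ifs
  · rfl
  · simp

end T28

open T68 T28 in
theorem st_AVP (hP : St_PAR) : St_AVP := by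
  intro n M h P k d σ Z t μ T T' hμ hT hT' hA
  obtain ⟨K, hK, hK'⟩ := hμ.cpt
  have := hμ.prob
  have par := fun S (hS : M.Ten S) e (he : e ∈ t.S) (a b : Fin d) => hP n k d σ μ K e.target
    (fun z => t.pl S e z (σ a).1 (σ b).1) hK hK' e.open_target fun z hz => pl_sm t hS he hz _ _
  have sub := (mSUB d Z t.S t.sub).1 T' hT'
  have pd := fun e (he : e ∈ t.S) w (hw : w ∈ e.target) =>
    int_pd (μ := μ) (F := fun v => bl σ (t.pl T e (jd σ v w))) (A := T' e w)
      (fun a b => (par T hT e he a b w hw).1) fun a b => by rw [hA e he w hw]; rfl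
  have ev := fun e (he : e ∈ t.S) w (hw : w ∈ e.target) v =>
    pl_ev t hT he (z := jd σ v w) (by rwa [dn_jd])
  have met : M.Met T → Z.Met T' := fun hm => by
    have p : Z.All fun e w => (T' e w).PosDef := sub.2.1 fun e he w hw => (pd e he w hw).2 fun v => by
      obtain ⟨c, hc, hz, h1⟩ := ev e he w hw v
      rw [h1.eq_of_nhds]
      exact (hm.pos c hc _ hz).submatrix (Subtype.val_injective.comp σ.injective)
    exact ⟨⟨hT', fun e he w hw => (p e he w hw).1⟩, p⟩
  refine ⟨met, fun hk => ?_, fun c e he w hw => ?_, fun S S' hS hB => ⟨fun e he w hw => ?_,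
    fun e he w hw => ?_⟩⟩
  · have hm := met hk.toMet
    refine { hm with cl := sub.2.2.2.1 fun e he w hw => ?_ }
    refine ClM.congr (T := avM σ μ (t.pl T e)) (fun a b c => ?_) (Mf.AllOn.ev hA he hw)
    refine ((par T hT e he a b w hw).2.2 c).1.trans
      (Eq.trans ?_ ((par T hT e he a c w hw).2.2 b).1.symm)
    refine integral_congr_ae (Eventually.of_forall fun v => ?_)
    obtain ⟨c', hc, hz, h1⟩ := ev e he w hw v
    exact (hk.cl c' hc _ hz).congr h1 _ _ _
  · ext a b
    show c • T' e w a b = ∫ v, t.pl (c • T) e (jd σ v w) (σ a).1 (σ b).1 ∂μ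
    simp only [pl_smul, Matrix.smul_apply, integral_smul]
    rw [hA e he w hw]
    rfl
  · ext a b
    show T' e w a b + S' e w a b = ∫ v, t.pl (T + S) e (jd σ v w) (σ a).1 (σ b).1 ∂μ
    simp only [pl_add, Matrix.add_apply]
    rw [integral_add (par T hT e he a b w hw).1 (par S hS e he a b w hw).1, hA e he w hw,
      hB e he w hw]
    rfl
  · ext a b
    show T' e w a b - S' e w a b = ∫ v, t.pl (T - S) e (jd σ v w) (σ a).1 (σ b).1 ∂μ
    simp only [pl_sub, Matrix.sub_apply]
    rw [integral_sub (par T hT e he a b w hw).1 (par S hS e he a b w hw).1, hA e he w hw,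
      hB e he w hw]
    rfl

end Pool.Agent.Lib.TQ
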