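import Pool.Agent.Lib.TQ.Blue
import Pool.Agent.Lib.HW68.Bridge

/-! Project tq: the mean of a tensor. -/

open scoped Classical Topology ContDiff ComplexOrder Matrix
open Set MeasureTheory Complex Metric Filter

noncomputable section

namespace Pool.Agent.Lib.TQ

open Pool.Agent.Lib.SV (E)
open Pool.Agent.Lib.HS32 Pool.Agent.Lib.HW68
open Pool.Agent.Lib.HS95 (Lo Hi Vk lo jn)

namespace T68

variable {n k d : ℕ} (σ : Fin d ≃ Hi n k)

theorem jd_eq (t : Vk n k) (w : E d) : jd σ t w = jd σ t 0 + (em σ)ᴴ *ᵥ w := by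
  ext i
  simp only [jd, jn, Pi.add_apply, Matrix.mulVec, dotProduct, em, Matrix.conjTranspose_apply,
    Matrix.of_apply, Pi.zero_apply]
  by_cases h : i.val < k
  · rw [dif_pos h, dif_pos h, Finset.sum_eq_zero, add_zero]
    intro a _
    rw [if_neg fun h1 : i = (σ a).1 => (σ a).2 (h1 ▸ h), star_zero, zero_mul]
  · rw [dif_neg h, dif_neg h, zero_add, Finset.sum_eq_single (σ.symm ⟨i, h⟩)]
    · simp
    · intro a _ ha
      rw [if_neg fun h1 : i = (σ a).1 => ha (σ.eq_symm_apply.2 (Subtype.ext h1.symm)), star_zero,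
        zero_mul]
    · simp

theorem jd_der (t : Vk n k) (w : E d) :
    HasFDerivAt (jd σ t) (LinearMap.toContinuousLinearMap (em σ)ᴴ.mulVecLin) w := by
  rw [show jd σ t = fun w => jd σ t 0 + (em σ)ᴴ *ᵥ w from funext (jd_eq σ t)]
  exact (LinearMap.toContinuousLinearMap (em σ)ᴴ.mulVecLin).hasFDerivAt.const_add _

theorem jr_jd (t : Vk n k) (w : E d) : jr (jd σ t) w = (em σ)ᴴ :=
  Matrix.ext_iff_mulVec.2 fun v => by
    rw [jr_mulVec, (jd_der σ t w).fderiv]
    rfl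

theorem bl_eq (T : Mat n) : bl σ T = (em σ)ᴴᴴ * T * (em σ)ᴴ := by
  ext a b
  simp [bl, em, Matrix.mul_apply]

theorem dn_jd (t : Vk n k) (w : E d) : dn σ (jd σ t w) = w := by
  ext a
  simp only [dn, jd, jn, dif_neg (σ a).2, Subtype.coe_eta, Equiv.symm_apply_apply]

variable {M : Mf n} {T : M.Fam (Mat n)} {Q Q' : E n → M.X} {z z' : E n} {c c' : M.Ch}

theorem iv_cmp (hT : M.Ten T) (h : Iv M Q z c) (h' : Iv M Q' z' c') (e : Q' z' = Q z) :
    T c' z' = (jr (c ∘ c'.symm) z')ᴴ * T c z * jr (c ∘ c'.symm) z' ∧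
      DifferentiableAt ℂ (c ∘ c'.symm) z' ∧ ∀ᶠ u in 𝓝 z', (c ∘ c'.symm) u = c (Q' u) := by
  obtain ⟨a1, a2⟩ := h.eq.self_of_nhds
  obtain ⟨b1, b2⟩ := h'.eq.self_of_nhds
  have h1 := hT.cmp c h.mem c' h'.mem (Q' z') (e ▸ a1) b1
  have h2 := ((mTR n M).2.1 c h.mem c' h'.mem (Q' z') (e ▸ a1) b1).1
  simp only [Mf.J, b2] at h1 h2
  rw [e, a2] at h1
  refine ⟨h1, h2.self_of_nhds, h'.eq.mono fun u hu => ?_⟩
  have := c'.left_inv hu.1
  rw [hu.2] at this
  exact congrArg c this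

theorem iv_eq (hT : M.Ten T) (h : Iv M Q z c) (h' : Iv M Q z c') : T c' z = T c z := by
  obtain ⟨h1, -, h3⟩ := iv_cmp hT h h' rfl
  have e : c ∘ c'.symm =ᶠ[𝓝 z] id := (h3.and h.eq).mono fun u hu => hu.1.trans hu.2.2
  have j : jr (c ∘ c'.symm) z = 1 := Matrix.ext_iff_mulVec.2 fun v => by
    rw [jr_mulVec, e.fderiv_eq, fderiv_id, Matrix.one_mulVec]
    rfl
  rw [h1, j, Matrix.conjTranspose_one, Matrix.one_mul, Matrix.mul_one]

theorem bl_cmp (hT : M.Ten T) {s t : Vk n k} {φ : E d → E d} {w : E d}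
    (h : Iv M Q (jd σ s (φ w)) c) (h' : Iv M Q' (jd σ t w) c') (hφ : DifferentiableAt ℂ φ w)
    (e : ∀ᶠ u in 𝓝 w, Q' (jd σ t u) = Q (jd σ s (φ u))) :
    bl σ (T c' (jd σ t w)) = (jm φ w)ᴴ * bl σ (T c (jd σ s (φ w))) * jm φ w := by
  obtain ⟨h1, h2, h3⟩ := iv_cmp hT h h' e.self_of_nhds
  have d1 := (jd_der σ t w).differentiableAt
  have d2 := (jd_der σ s (φ w)).differentiableAt
  have e1 : (c ∘ c'.symm) ∘ jd σ t =ᶠ[𝓝 w] jd σ s ∘ φ := by
    filter_upwards [d1.continuousAt.eventually h3, e,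
      (d2.continuousAt.comp hφ.continuousAt).eventually h.eq] with u a1 a2 a3
    exact a1.trans ((congrArg c a2).trans a3.2)
  have e2 := (jr_comp h2 d1 EventuallyEq.rfl).symm.trans (jr_comp d2 hφ e1)
  rw [jr_jd, jr_jd] at e2
  have e3 := congrArg Matrix.conjTranspose e2
  rw [Matrix.conjTranspose_mul, Matrix.conjTranspose_mul] at e3
  rw [bl_eq, bl_eq, h1, ← Matrix.mul_assoc, ← Matrix.mul_assoc, e3, Matrix.mul_assoc _ _ (em σ)ᴴ,
    e2]
  simp only [Matrix.mul_assoc]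
  rfl

variable {σ} {h P : M.Fam (Mat n)} {Z : Mf d} (t : Tb M h P σ Z) {e : Z.Ch}

theorem pl_eq (hT : M.Ten T) (hc : Iv M (t.Q e) z c) : t.pl T e z = T c z := by
  have H : ∃ c, Iv M (t.Q e) z c := ⟨c, hc⟩
  rw [Tb.pl, dif_pos H]
  exact iv_eq hT hc H.choose_spec

theorem pl_sm (hT : M.Ten T) (he : e ∈ t.S) (hz : dn σ z ∈ e.target) : SmM (t.pl T e) z := by
  obtain ⟨c, -, hc⟩ := t.loc e he z hz
  obtain ⟨a1, a2⟩ := hc.eq.self_of_nhds
  refine (a2 ▸ hT.sm.at hc.mem a1 : SmM (T c) z).congr ?_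
  filter_upwards [hc.eq.eventually_nhds] with u hu
  exact pl_eq t hT ⟨hc.mem, hu⟩

theorem pl_cmp (hT : M.Ten T) {e' : Z.Ch} (he : e ∈ t.S) (he' : e' ∈ t.S) {s v : Vk n k}
    {φ : E d → E d} {w : E d} (hw : w ∈ e'.target) (hw' : φ w ∈ e.target)
    (hφ : DifferentiableAt ℂ φ w)
    (q : ∀ᶠ u in 𝓝 w, t.Q e' (jd σ v u) = t.Q e (jd σ s (φ u))) :
    bl σ (t.pl T e' (jd σ v w)) = (jm φ w)ᴴ * bl σ (t.pl T e (jd σ s (φ w))) * jm φ w := by
  obtain ⟨c, -, hc⟩ := t.loc e he (jd σ s (φ w)) (by rwa [dn_jd])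
  obtain ⟨c', -, hc'⟩ := t.loc e' he' (jd σ v w) (by rwa [dn_jd])
  rw [pl_eq t hT hc, pl_eq t hT hc']
  exact bl_cmp σ hT hc hc' hφ q

end T68

open T68 in
theorem st_AVT (hP : St_PAR) : St_AVT := by
  intro n M h P k d σ Z t μ T hμ hT
  obtain ⟨K, hK, hK'⟩ := hμ.cpt
  have := hμ.prob
  have par := fun e (he : e ∈ t.S) (a b : Fin d) => hP n k d σ μ K e.target
    (fun z => t.pl T e z (σ a).1 (σ b).1) hK hK' e.open_target fun z hz => pl_sm t hT he hz _ _
  refine (mEXT d Z t.S t.sub).1 (fun e => avM σ μ (t.pl T e))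
    (fun e he w hw a b => (par e he a b w hw).2.1) fun e he e' he' x hx hx' => ?_
  obtain ⟨b, hb⟩ := t.ov e he e' he' x hx hx'
  have hw := e.map_source hx
  have hw' := e'.map_source hx'
  have x1 : e'.symm (e' x) = x := e'.left_inv hx'
  have x2 : (e ∘ e'.symm) (e' x) = e x := congrArg e x1
  have hol := ((mTR d Z).2.1 e (t.sub.sub he) e' (t.sub.sub he') x hx hx').1
  have key : ∀ v, bl σ (t.pl T e' (jd σ v (e' x))) =
      (Z.J e e' x)ᴴ * bl σ (t.pl T e (jd σ (v + b) (e x))) * Z.J e e' x := fun v => by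
    rw [← x2]
    refine pl_cmp t hT he he' hw' (x2 ▸ hw) hol.self_of_nhds ?_
    have c := (e'.continuousAt_symm hw').tendsto
    rw [x1] at c
    filter_upwards [c.eventually hb, e'.open_target.mem_nhds hw'] with u h1 h2
    have h3 := h1 v
    rwa [e'.right_inv h2] at h3
  have cj : Continuous fun v => jd σ v (e x) :=
    (HS95.continuous_jn k).comp (continuous_id.prodMk continuous_const)
  have cF : ∀ a a', Continuous fun v => t.pl T e (jd σ v (e x)) (σ a).1 (σ a').1 := fun a a' =>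
    continuous_iff_continuousAt.2 fun v => ContinuousAt.comp (f := fun v => jd σ v (e x))
      (g := fun z => t.pl T e z (σ a).1 (σ a').1)
      (pl_sm t hT he (by rwa [dn_jd]) _ _).continuousAt cj.continuousAt
  have inv : ∀ a a', ∫ v, t.pl T e (jd σ (v + b) (e x)) (σ a).1 (σ a').1 ∂μ =
      avM σ μ (t.pl T e) (e x) a a' := fun a a' => hμ.inv _ (cF a a') (fun l hl v => by
    have h1 := pl_cmp t hT he he (φ := id) (s := v) (v := v + l) hw hw differentiableAt_id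
      (Eventually.of_forall fun u => hl e he v u)
    have j : jm (id : E d → E d) (e x) = 1 := Matrix.ext_iff_mulVec.2 fun u => by
      rw [show jm id (e x) = jr id (e x) from rfl, jr_mulVec, fderiv_id, Matrix.one_mulVec]
      rfl
    rw [j, Matrix.conjTranspose_one, Matrix.one_mul, Matrix.mul_one] at h1
    exact congrFun (congrFun h1 a) a') b
  have int : ∀ a a', Integrable (fun v => t.pl T e (jd σ (v + b) (e x)) (σ a).1 (σ a').1) μ :=
    fun a a' => by
      have c := ((cF a a').comp (continuous_add_const b)).continuousOn.integrableOn_compact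
        (μ := μ) hK
      rwa [IntegrableOn, Measure.restrict_eq_self_of_ae_mem hK'] at c
  ext a a'
  have k2 : ∀ v, t.pl T e' (jd σ v (e' x)) (σ a).1 (σ a').1 = ∑ j, ∑ i, star (Z.J e e' x i a) *
      t.pl T e (jd σ (v + b) (e x)) (σ i).1 (σ j).1 * Z.J e e' x j a' := fun v => by
    have h1 := congrFun (congrFun (key v) a) a'
    simp only [Matrix.mul_apply, Matrix.conjTranspose_apply, Finset.sum_mul] at h1
    exact h1
  show ∫ v, t.pl T e' (jd σ v (e' x)) (σ a).1 (σ a').1 ∂μ = _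
  simp only [k2, Matrix.mul_apply, Matrix.conjTranspose_apply, Finset.sum_mul]
  rw [integral_finsetSum _ fun j _ => integrable_finsetSum _ fun i _ =>
    ((int i j).const_mul _).mul_const _]
  refine Finset.sum_congr rfl fun j _ => ?_
  rw [integral_finsetSum _ fun i _ => ((int i j).const_mul _).mul_const _]
  refine Finset.sum_congr rfl fun i _ => ?_
  rw [integral_mul_const, integral_const_mul, inv]

end Pool.Agent.Lib.TQ
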