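import Pool.Agent.Lib.TQ.Blue
import Pool.Agent.Lib.HW27.Kit

/-! Project tq: the count of sections. -/

open scoped Classical Topology ContDiff ComplexOrder Matrix
open Set MeasureTheory Complex Metric Filter

noncomputable section

namespace Pool.Agent.Lib.TQ

open Pool.Agent.Lib.SV (E)
open Pool.Agent.Lib.HS32
open Pool.Agent.Lib.HW27 (hsec_sum ev_sum sum_fun)

namespace T56

variable {n : ℕ} {M : Mf n}

theorem cnt_one (M : Mf n) : M.HSec 0 1 :=
  ⟨⟨fun _ _ _ _ => contDiffAt_const, fun _ _ _ _ _ _ _ => by simp⟩,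
    fun _ _ _ _ => differentiableAt_const _⟩

theorem cnt_mul {m m' : ℕ} {s s' : M.Fam ℂ} (h : M.HSec m s) (h' : M.HSec m' s') :
    M.HSec (m + m') (s * s') :=
  ⟨⟨fun e he z hz => (h.sm e he z hz).mul (h'.sm e he z hz), fun e he e' he' x hx hx' => by
    simp only [Pi.mul_apply]
    rw [h.cmp e he e' he' x hx hx', h'.cmp e he e' he' x hx hx', pow_add]
    ring⟩, fun e he z hz => (h.hol e he z hz).mul (h'.hol e he z hz)⟩

theorem cnt_zero {m : ℕ} {s : M.Fam ℂ} (h : M.HSec m s) (h0 : M.ev s = 0) {c : M.Ch}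
    (hc : c ∈ M.C) {z : E n} (hz : z ∈ c.target) : s c z = 0 := by
  obtain ⟨c1, c2⟩ := (M.cov (c.symm z)).choose_spec
  have a := h.cmp _ c1 c hc (c.symm z) c2 (c.map_target hz)
  have b : s (M.cov (c.symm z)).choose ((M.cov (c.symm z)).choose (c.symm z)) = 0 :=
    congrFun h0 (c.symm z)
  beta_reduce at a
  rw [b, zero_mul, c.right_inv hz] at a
  exact a

/-- The values of a linear combination of families. -/
def cntL {N : ℕ} (t : Fin N → M.Fam ℂ) : (Fin N → ℂ) →ₗ[ℂ] M.X → ℂ :=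
  Fintype.linearCombination ℂ fun k => M.ev (t k)

theorem cntL_eq {N : ℕ} (t : Fin N → M.Fam ℂ) (x : Fin N → ℂ) :
    cntL t x = M.ev (∑ k, x k • t k) := by
  funext y
  rw [ev_sum]
  simp only [cntL, Fintype.linearCombination_apply, Finset.sum_apply, Pi.smul_apply, smul_eq_mul]

theorem cnt_rank {N p : ℕ} (t : Fin N → M.Fam ℂ) (ht : ∀ k, M.HSec p (t k)) :
    M.WMany p (Module.finrank ℂ (LinearMap.range (cntL t))) := by
  let b := Module.finBasis ℂ (LinearMap.range (cntL t))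
  choose x hx using fun k => (b k).2
  refine ⟨fun k => ∑ l, x k l • t l, fun k => hsec_sum ht _, ?_⟩
  have a := b.linearIndependent.map' (LinearMap.range (cntL t)).subtype (Submodule.ker_subtype _)
  have e : (fun k => M.ev (∑ l, x k l • t l)) = (LinearMap.range (cntL t)).subtype ∘ b := by
    funext k
    rw [← cntL_eq, hx k]
    rfl
  rw [e]
  exact a

theorem cnt_lin {N r : ℕ} {W : Type} [AddCommGroup W] [Module ℂ W] [Nonempty (Fin r)]
    (L : Fin r → (Fin N → ℂ) →ₗ[ℂ] W) (h : ∀ x, (∀ i, L i x = 0) → x = 0) :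
    ∃ i, N ≤ r * Module.finrank ℂ (LinearMap.range (L i)) := by
  have a : Function.Injective (LinearMap.pi fun i => (L i).rangeRestrict) := by
    rw [injective_iff_map_eq_zero]
    intro x hx
    exact h x fun i => congrArg Subtype.val (congrFun hx i)
  have b := LinearMap.finrank_le_finrank_of_injective a
  rw [Module.finrank_fin_fun, Module.finrank_pi_fintype] at b
  obtain ⟨i, -, hi⟩ := Finset.exists_le_of_sum_le (s := Finset.univ) (f := fun _ : Fin r => N)
    (g := fun i => r * Module.finrank ℂ (LinearMap.range (L i))) Finset.univ_nonempty (by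
      rw [← Finset.mul_sum, Finset.sum_const, Finset.card_univ, Fintype.card_fin, smul_eq_mul]
      exact Nat.mul_le_mul_left _ b)
  exact ⟨i, hi⟩

variable {d : ℕ} {Z : Mf d} {ι : Type} [Fintype ι] {c : M.Ch} {U : Set (E n)} {e : ι → Z.Ch}
  {φ : ι → E n → E d} {j : ι → E n → ℂ}

/-- The branches of a section. -/
def cntB (U : Set (E n)) (e : ι → Z.Ch) (φ : ι → E n → E d) (j : ι → E n → ℂ) (m : ℕ)
    (s : Z.Fam ℂ) : ι → U → ℂ := fun a u => s (e a) (φ a u) * j a u ^ m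

/-- The monoid of the branches of all sections. -/
def cntG (U : Set (E n)) (e : ι → Z.Ch) (φ : ι → E n → E d) (j : ι → E n → ℂ) :
    Submonoid (ι → U → ℂ) where
  carrier := {F | ∃ m s, Z.HSec m s ∧ F = cntB U e φ j m s}
  one_mem' := ⟨0, 1, cnt_one Z, by
    funext a u
    simp [cntB]⟩
  mul_mem' := by
    rintro _ _ ⟨m, s, h, rfl⟩ ⟨m', s', h', rfl⟩
    refine ⟨m + m', s * s', cnt_mul h h', ?_⟩
    funext a u
    simp only [cntB, Pi.mul_apply, pow_add]
    ring

theorem cnt_cont (T : Tc M Z ι c U e φ j) : ∀ F ∈ cntG U e φ j, ∀ a, Continuous (F a) := by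
  rintro _ ⟨m, s, h, rfl⟩ a
  have a1 : Continuous fun u : U => φ a u := (T.cφ a).domRestrict
  have a2 : Continuous fun u : U => j a u := (T.cj a).domRestrict
  refine Continuous.mul (continuous_iff_continuousAt.2 fun u => ?_) (a2.pow m)
  exact ContinuousAt.comp (f := fun u : U => φ a u)
    (h.hol _ (T.me a) _ (T.tgt a u u.2)).continuousAt a1.continuousAt

end T56

open T56 in
/-- The count, for all large degrees. -/
theorem cnt2 (hD : St_DED) (hI : St_IDT) {n d : ℕ} {M : Mf n} {Z : Mf d} [Z.Cpt] {ι : Type}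
    [Fintype ι] [Nonempty ι] {c : M.Ch} {U : Set (E n)} {e : ι → Z.Ch} {φ : ι → E n → E d}
    {j : ι → E n → ℂ} (T : Tc M Z ι c U e φ j) (hB : Z.WBig) :
    ∃ c₁ : ℝ, 0 < c₁ ∧ ∀ᶠ m : ℕ in atTop, ∃ m₂ : ℕ, m ≤ m₂ ∧ m₂ ≤ 2 * m ∧ ∃ N : ℕ,
      c₁ * (m : ℝ) ^ d ≤ N ∧ M.WMany m₂ N := by
  obtain ⟨c0, hc0, hB⟩ := hB
  have : Nonempty U := T.ne.to_subtype
  obtain ⟨u₀, r, F, hF, hu⟩ := hD ι U (cntG U e φ j) (cnt_cont T)
  choose D σ hσ hFe using hF
  have hr : 0 < r := by
    rcases Nat.eq_zero_or_pos r with rfl | h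
    · have := hu.self_of_nhds 1 (cntG U e φ j).one_mem (fun i => i.elim0) (Classical.arbitrary ι)
      simp at this
    · exact h
  have : Nonempty (Fin r) := ⟨⟨0, hr⟩⟩
  have hr' : (0 : ℝ) < r := Nat.cast_pos.2 hr
  have key : ∀ m N, Z.WMany m N → ∃ i N', N ≤ r * N' ∧ M.WMany (m + D i) N' := by
    rintro m N ⟨s, hs, hl⟩
    choose t ht htr using fun i k => T.tr _ _ (cnt_mul (hs k) (hσ i))
    obtain ⟨i, hi⟩ := cnt_lin (fun i => cntL (t i)) (fun x hx => by
      have hS : Z.HSec m (∑ k, x k • s k) := hsec_sum hs x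
      have a := Classical.arbitrary ι
      have h1 : ∀ᶠ u : U in 𝓝 u₀, (∑ k, x k • s k) (e a) (φ a u) = 0 := by
        filter_upwards [hu] with u h
        have h2 := h (cntB U e φ j m (∑ k, x k • s k)) ⟨m, _, hS, rfl⟩ (fun i => by
          have h3 := cnt_zero (hsec_sum (ht i) x) ((cntL_eq _ x).symm.trans (hx i)) T.mem
            (T.sub u.2)
          rw [sum_fun] at h3
          beta_reduce at h3
          rw [← h3, hFe i]
          simp only [htr i _ _ u.2, cntB, sum_fun, Finset.mul_sum, Finset.sum_mul, Pi.mul_apply]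
          rw [Finset.sum_comm]
          refine Finset.sum_congr rfl fun k _ => Finset.sum_congr rfl fun b _ => ?_
          rw [pow_add]
          ring) a
        exact (mul_eq_zero.1 h2).resolve_right (pow_ne_zero _ (T.j0 a u u.2))
      have h4 : ∀ᶠ z in 𝓝 (u₀ : E n), (∑ k, x k • s k) (e a) (φ a z) = 0 := by
        rw [← T.opn.isOpenEmbedding_subtypeVal.map_nhds_eq u₀]
        exact h1
      have h5 := hI d Z m _ hS (e a) (T.me a) _ (T.tgt a u₀ u₀.2) (T.op a u₀ u₀.2 h4)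
      rw [← cntL_eq, cntL, Fintype.linearCombination_apply] at h5
      exact funext (Fintype.linearIndependent_iff.1 hl x h5))
    exact ⟨i, _, hi, cnt_rank (t i) (ht i)⟩
  refine ⟨c0 / r, by positivity, ?_⟩
  filter_upwards [hB, eventually_ge_atTop (∑ i, D i)] with m ⟨N, h1, h2⟩ h4
  obtain ⟨i, N', h5, h6⟩ := key m N h2
  have h7 : D i ≤ m :=
    (Finset.single_le_sum (fun _ _ => Nat.zero_le _) (Finset.mem_univ i)).trans h4
  refine ⟨m + D i, by omega, by omega, N', ?_, h6⟩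
  have h9 : (N : ℝ) ≤ r * N' := by exact_mod_cast h5
  rw [div_mul_eq_mul_div, div_le_iff₀ hr']
  linarith

theorem st_CNT (hD : St_DED) (hI : St_IDT) : St_CNT := by
  intro n d M Z _ ι _ _ c U e φ j T hB
  obtain ⟨c0, hc0, h⟩ := cnt2 hD hI T hB
  refine ⟨c0 / 2 ^ d, by positivity, frequently_atTop.2 fun a => ?_⟩
  obtain ⟨m, ⟨m₂, h1, h2, N, h3, h4⟩, h5⟩ := (h.and (eventually_ge_atTop a)).exists
  refine ⟨m₂, h5.trans h1, N, ?_, h4⟩
  have h8 : (m₂ : ℝ) ^ d ≤ 2 ^ d * (m : ℝ) ^ d := by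
    rw [← mul_pow]
    exact pow_le_pow_left₀ (Nat.cast_nonneg _) (by exact_mod_cast h2) d
  rw [div_mul_eq_mul_div, div_le_iff₀ (by positivity)]
  calc c0 * (m₂ : ℝ) ^ d ≤ c0 * (2 ^ d * (m : ℝ) ^ d) := mul_le_mul_of_nonneg_left h8 hc0.le
    _ = c0 * (m : ℝ) ^ d * 2 ^ d := by ring
    _ ≤ N * 2 ^ d := mul_le_mul_of_nonneg_right h3 (by positivity)

end Pool.Agent.Lib.TQ
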