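import Pool.Agent.Lib.TQ.Grow
import Pool.Agent.Lib.TQ.B_CNT

/-! Project tq: the count in every window of degrees. -/

namespace Pool.Agent.Lib.TQ

theorem st_CNT2 (hD : St_DED) (hI : St_IDT) : St_CNT2 := by
  intro n d M Z _ ι _ _ c U e φ j T hB
  obtain ⟨c₁, h0, h⟩ := cnt2 hD hI T hB
  exact ⟨c₁, h0, h.mono fun m ⟨m', a1, a2, N, a3, a4⟩ => ⟨m', N, a1, a2, a3, a4⟩⟩

end Pool.Agent.Lib.TQ
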