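import Pool.Agent.Lib.TQ.Blue

/-! Row DED: independence of characters, with parameters. -/

open scoped Classical Topology
open Set Filter

namespace Pool.Agent.Lib.TQ

namespace T17

lemma zero_of_pow {ι : Type} [Fintype ι] (x : ι → ℂ) (h : ∀ k : ℕ, ∑ a, x a * x a ^ k = 0)
    (b : ι) : x b = 0 := by
  by_contra hb
  set Q : Polynomial ℂ := ∏ y ∈ (Finset.univ.image x).erase (x b), (Polynomial.X - Polynomial.C y)
    with hQ
  have h1 : ∑ a, x a * Q.eval (x a) = 0 := by
    simp only [Polynomial.eval_eq_sum_range, Finset.mul_sum]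
    rw [Finset.sum_comm]
    refine Finset.sum_eq_zero fun k _ => ?_
    simp only [mul_left_comm (x _)]
    rw [← Finset.mul_sum, h, mul_zero]
  have h2 : ∀ a, x a * Q.eval (x a) = if x a = x b then x b * Q.eval (x b) else 0 := fun a => by
    split_ifs with ha
    · rw [ha]
    · rw [hQ, Polynomial.eval_prod, Finset.prod_eq_zero (i := x a) (by simp [ha]) (by simp),
        mul_zero]
  have h3 : Q.eval (x b) ≠ 0 := by
    rw [hQ, Polynomial.eval_prod]
    refine Finset.prod_ne_zero_iff.2 fun y hy => ?_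
    simpa [sub_eq_zero] using (Finset.ne_of_mem_erase hy).symm
  rw [Finset.sum_congr rfl fun a _ => h2 a, ← Finset.sum_filter, Finset.sum_const,
    nsmul_eq_mul] at h1
  refine mul_ne_zero (Nat.cast_ne_zero.2 (Finset.card_ne_zero.2 ⟨b, ?_⟩)) (mul_ne_zero hb h3) h1
  simp

end T17

theorem st_DED : St_DED := by
  intro ι U _ _ hU G hG
  obtain ⟨u₁⟩ := hU
  set P : ℕ → Prop := fun r => ∃ (u : U) (e : Fin r → ι → U → ℂ), (∀ i, e i ∈ G) ∧
    LinearIndependent ℂ fun i a => e i a u with hP
  have hb : ∀ r, P r → r ≤ Fintype.card ι := by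
    rintro r ⟨u, e, -, h⟩
    simpa using h.fintype_card_le_finrank
  have h0 : P 0 := ⟨u₁, fun i => i.elim0, fun i => i.elim0, linearIndependent_empty_type⟩
  obtain ⟨u₀, e, he, hi⟩ := Nat.findGreatest_spec (Nat.zero_le (Fintype.card ι)) h0
  have hm : ¬P (Nat.findGreatest P (Fintype.card ι) + 1) := fun h =>
    Nat.findGreatest_is_greatest (Nat.lt_succ_self _) (hb _ h) h
  generalize Nat.findGreatest P (Fintype.card ι) = r at e he hi hm
  have hc : Continuous fun (u : U) (i : Fin r) (a : ι) => e i a u :=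
    continuous_pi fun i => continuous_pi fun a => hG _ (he i) a
  refine ⟨u₀, r, e, he, ((hc.tendsto u₀).eventually hi.eventually).mono fun u hu F hF h => ?_⟩
  refine T17.zero_of_pow (fun a => F a u) fun k => ?_
  have hs : (fun a => (F ^ k) a u) ∈ Submodule.span ℂ (range fun i a => e i a u) := by
    by_contra hn
    refine hm ⟨u, Fin.cons (F ^ k) e, fun i => Fin.cases (pow_mem hF k) he i, ?_⟩
    have := linearIndependent_finCons.2 ⟨hu, hn⟩
    have e2 : (fun (i : Fin (r + 1)) a => (Fin.cons (F ^ k) e : Fin (r + 1) → ι → U → ℂ) i a u) =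
        Fin.cons (fun a => (F ^ k) a u) fun i a => e i a u :=
      funext fun i => Fin.cases rfl (fun _ => rfl) i
    exact e2 ▸ this
  obtain ⟨c, hc⟩ := (Submodule.mem_span_range_iff_exists_fun ℂ).1 hs
  have e1 : ∀ a, F a u ^ k = ∑ i, c i * e i a u := fun a => by
    simpa using (congrFun hc a).symm
  simp only [e1, Finset.mul_sum, mul_left_comm (F _ u)]
  rw [Finset.sum_comm]
  exact Finset.sum_eq_zero fun i _ => by rw [← Finset.mul_sum, h, mul_zero]

end Pool.Agent.Lib.TQ
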