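import Pool.Agent.Lib.TQ.Blue

/-! Row DN: the metric descends to the quotient. -/

open scoped Classical Topology ContDiff ComplexOrder Matrix
open Set MeasureTheory Complex Metric Filter

noncomputable section

namespace Pool.Agent.Lib.TQ

open Pool.Agent.Lib.SV (E)
open Pool.Agent.Lib.HS32
open Pool.Agent.Lib.HS95 (Lo Hi Vk lo jn)

namespace T84

variable {n k d : ℕ} (σ : Fin d ≃ Hi n k)

theorem cases_ix (i : Fin n) : i.val < k ∨ ∃ a, i = (σ a).1 := by
  by_cases h : i.val < k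
  · exact Or.inl h
  · exact Or.inr ⟨σ.symm ⟨i, h⟩, by simp⟩

theorem sig_inj {a b : Fin d} : (σ a).1 = (σ b).1 ↔ a = b := by
  rw [Subtype.val_inj, σ.injective.eq_iff]

theorem lo_ne {i : Fin n} (h : i.val < k) (a : Fin d) : i ≠ (σ a).1 :=
  fun e => (σ a).2 (e ▸ h)

theorem eb_hi (T : Mat d) (a b : Fin d) : eb σ T (σ a).1 (σ b).1 = T a b := by
  simp [eb, em, Matrix.mul_apply, sig_inj, apply_ite]

theorem eb_lo1 (T : Mat d) {i : Fin n} (h : i.val < k) (j : Fin n) : eb σ T i j = 0 := by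
  simp [eb, em, Matrix.mul_apply, lo_ne σ h]

theorem eb_lo2 (T : Mat d) (i : Fin n) {j : Fin n} (h : j.val < k) : eb σ T i j = 0 := by
  simp [eb, em, Matrix.mul_apply, lo_ne σ h]

theorem pr_hi (a : Fin d) (j : Fin n) : (pr k : Mat n) (σ a).1 j = 0 := by
  simp [pr, Matrix.diagonal_apply, (σ a).2]

theorem blk_eq {H : Mat n} (hH : H.IsHermitian) (h : H * pr k = pr k) :
    H = pr k + eb σ (bl σ H) := by
  have h1 : ∀ i j : Fin n, j.val < k → H i j = (pr k : Mat n) i j := fun i j hj => by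
    rw [← h]; simp [pr, hj]
  ext i j
  rw [Matrix.add_apply]
  rcases cases_ix σ j with hj | ⟨b, rfl⟩
  · rw [eb_lo2 σ _ _ hj, add_zero, h1 i j hj]
  rcases cases_ix σ i with hi | ⟨a, rfl⟩
  · rw [eb_lo1 σ _ hi, add_zero, ← hH.apply, h1 _ _ hi, pr_hi, star_zero]
    simp [pr, lo_ne σ hi]
  · rw [eb_hi, pr_hi, zero_add]; rfl

theorem det_blk (T : Mat d) : (pr k + eb σ T).det = T.det := by
  let e : Lo n k ⊕ Fin d ≃ Fin n :=
    (Equiv.sumCongr (Equiv.refl _) σ).trans (Equiv.sumCompl fun i : Fin n => i.val < k)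
  have h : (pr k + eb σ T).submatrix e e = Matrix.fromBlocks 1 0 0 T := by
    ext (i | a) (j | b)
    · show (pr k : Mat n) i.1 j.1 + eb σ T i.1 j.1 = _
      rw [eb_lo1 σ _ i.2]
      simp [pr, Matrix.diagonal_apply, Matrix.one_apply, i.2, Subtype.val_inj]
    · show (pr k : Mat n) i.1 (σ b).1 + eb σ T i.1 (σ b).1 = _
      rw [eb_lo1 σ _ i.2]
      simp [pr, lo_ne σ i.2]
    · show (pr k : Mat n) (σ a).1 j.1 + eb σ T (σ a).1 j.1 = _
      rw [eb_lo2 σ _ _ j.2, pr_hi]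
      simp
    · show (pr k : Mat n) (σ a).1 (σ b).1 + eb σ T (σ a).1 (σ b).1 = _
      rw [eb_hi, pr_hi]
      simp
  rw [← Matrix.det_submatrix_equiv_self e, h, Matrix.det_fromBlocks_zero₂₁, Matrix.det_one, one_mul]

/-- `dn` as a real linear map -/
def dL : E n →L[ℝ] E d := ContinuousLinearMap.pi fun a => ContinuousLinearMap.proj (σ a).1

theorem dn_eq : dn σ = dL σ := rfl

theorem dn_cont : Continuous (dn σ : E n → E d) := (dL σ).continuous

theorem dn_jd (v : Vk n k) (w : E d) : dn σ (jd σ v w) = w := by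
  funext a; simp [dn, jd, jn, (σ a).2]

theorem dL_hi (b : Fin d) (c : ℂ) : dL σ (Pi.single (σ b).1 c) = Pi.single b c := by
  funext a
  show (Pi.single (σ b).1 c : E n) (σ a).1 = _
  simp [Pi.single_apply, sig_inj]

theorem dL_lo {j : Fin n} (h : j.val < k) (c : ℂ) : dL σ (Pi.single j c) = 0 := by
  funext a
  show (Pi.single j c : E n) (σ a).1 = _
  simp [(lo_ne σ h a).symm]

theorem fd_dn {f : E d → ℂ} {z : E n} (hf : DifferentiableAt ℝ f (dn σ z)) (v : E n) :
    fderiv ℝ (fun w => f (dn σ w)) z v = fderiv ℝ f (dn σ z) (dL σ v) := by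
  have := (hf.hasFDerivAt.comp z (dL σ).hasFDerivAt).fderiv
  exact congrArg (fun L : E n →L[ℝ] ℂ => L v) this

theorem hess_dn {f : E d → ℂ} {z : E n} (hf : ContDiffAt ℝ ∞ f (dn σ z)) :
    hess (fun w => f (dn σ w)) z = eb σ (hess f (dn σ z)) := by
  have ev := (dn_cont σ).continuousAt.eventually (cd_ev_diff hf)
  ext i j
  rw [hess_apply]
  rcases cases_ix σ j with hj | ⟨b, rfl⟩
  · rw [eb_lo2 σ _ _ hj, dzb_congr (g := fun _ => 0) (ev.mono fun w hw => by
      simp only [dz, fd_dn σ hw, dL_lo σ hj, map_zero]; simp), dzb_const]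
  rw [dzb_congr (g := fun w => dz b f (dn σ w)) (ev.mono fun w hw => by
    simp only [dz, fd_dn σ hw, dL_hi])]
  have h2 := cd_diff (cd_dz hf b)
  rcases cases_ix σ i with hi | ⟨a, rfl⟩
  · rw [eb_lo1 σ _ hi]
    simp only [dzb, fd_dn σ h2, dL_lo σ hi, map_zero]; simp
  · rw [eb_hi, hess_apply]
    simp only [dzb, fd_dn σ h2, dL_hi]

variable {σ} {M : Mf n} {h P : M.Fam (Mat n)} {Z : Mf d}

theorem iv_eq {T : M.Fam (Mat n)} (hT : M.Ten T) {Q : E n → M.X} {z : E n} {c c' : M.Ch}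
    (a : Iv M Q z c) (b : Iv M Q z c') : T c' z = T c z := by
  obtain ⟨a1, a2⟩ := a.eq.self_of_nhds
  obtain ⟨b1, b2⟩ := b.eq.self_of_nhds
  have h1 := hT.cmp c a.mem c' b.mem _ a1 b1
  have h2 : (c ∘ c'.symm) =ᶠ[𝓝 z] id := by
    filter_upwards [a.eq, b.eq] with w ha hb
    have : c'.symm w = Q w := by rw [← c'.left_inv hb.1, hb.2]
    rw [Function.comp_apply, this, ha.2, id]
  have h3 : M.J c c' (Q z) = 1 := by
    ext i j
    simp [Mf.J, jm, b2, h2.fderiv_eq, Pi.single_apply, Matrix.one_apply]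
  beta_reduce at h1
  rw [h3, a2, b2] at h1
  simpa using h1

theorem iv_tgt {Q : E n → M.X} {z : E n} {c : M.Ch} (a : Iv M Q z c) : z ∈ c.target := by
  obtain ⟨a1, a2⟩ := a.eq.self_of_nhds
  exact a2 ▸ c.map_source a1

theorem pl_eq (t : Tb M h P σ Z) {T : M.Fam (Mat n)} (hT : M.Ten T) {e : Z.Ch} {z : E n}
    {c : M.Ch} (a : Iv M (t.Q e) z c) : t.pl T e z = T c z := by
  have H : ∃ c, Iv M (t.Q e) z c := ⟨c, a⟩
  rw [Tb.pl, dif_pos H]
  exact iv_eq hT a H.choose_spec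

theorem pl_ev (t : Tb M h P σ Z) {T : M.Fam (Mat n)} (hT : M.Ten T) {e : Z.Ch} {z : E n}
    {c : M.Ch} (a : Iv M (t.Q e) z c) : t.pl T e =ᶠ[𝓝 z] T c :=
  a.eq.eventually_nhds.mono fun _ hw => pl_eq t hT ⟨a.mem, hw⟩

/-- `v ↦ jd v 0` as a real linear map -/
def jL (n k : ℕ) : Vk n k →L[ℝ] E n := ContinuousLinearMap.pi fun i =>
  if H : i.val < k then (EuclideanSpace.proj (⟨i, H⟩ : Lo n k) : Vk n k →L[ℂ] ℂ).restrictScalars ℝ
  else 0

theorem jd_eq (v : Vk n k) (w : E d) : jd σ v w = jL n k v + jd σ 0 w := by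
  funext i
  by_cases H : i.val < k <;> simp [jd, jn, jL, H]

theorem pl_const (t : Tb M h P σ Z) (hh : M.Met h) {e : Z.Ch} (he : e ∈ t.S) {w : E d}
    (hw : w ∈ e.target) (i j : Fin n) (v v' : Vk n k) :
    t.pl h e (jd σ v w) i j = t.pl h e (jd σ v' w) i j := by
  have key : ∀ v : Vk n k,
      HasFDerivAt (fun v => t.pl h e (jd σ v w) i j) (0 : Vk n k →L[ℝ] ℂ) v := fun v => by
    obtain ⟨c, hc, a⟩ := t.loc e he (jd σ v w) (by rwa [dn_jd])
    have ht := iv_tgt a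
    have s1 := hh.sm c hc.mem _ ht
    have e1 : (fun z => t.pl h e z i j) =ᶠ[𝓝 (jd σ v w)] fun z => h c z i j :=
      (pl_ev t hh.toTen a).mono fun z hz => by simp only [hz]
    have d1 := ((s1.diff i j).hasFDerivAt.congr_of_eventuallyEq e1)
    have d2 : HasFDerivAt (fun v => jd σ v w) (jL n k) v := by
      rw [show (fun v => jd σ v w) = fun v => jL n k v + jd σ 0 w from funext fun v => jd_eq v w]
      exact (jL n k).hasFDerivAt.add_const _
    have d3 := d1.comp v d2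
    refine d3.congr_fderiv ?_
    ext u
    rw [ContinuousLinearMap.comp_apply, fderiv_eq_sum]
    refine Finset.sum_eq_zero fun l _ => ?_
    by_cases H : l.val < k
    · have b1 := hc.cst _ ht l H
      have b2 := dMb_herm (k := l) s1
        (mem_of_superset (c.open_target.mem_nhds ht) fun z hz => hh.herm c hc.mem z hz)
      rw [b1, Matrix.conjTranspose_zero] at b2
      rw [← dM_apply, ← dMb_apply, b1, b2]
      simp
    · simp [jL, H]
  exact is_const_of_fderiv_eq_zero (𝕜 := ℝ) (fun v => (key v).differentiableAt)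
    (fun v => (key v).fderiv) v v'

end T84
open T84

theorem st_DN : St_DN := by
  intro n M h P k d σ Z t μ h' hμ hh hP hh' hA
  have := hμ.prob
  have h1 : ∀ e ∈ t.S, ∀ z, dn σ z ∈ e.target → t.pl h e z = pr k + eb σ (h' e (dn σ z)) := by
    intro e he z hz
    obtain ⟨c, hc, a⟩ := t.loc e he z hz
    have b1 : h' e (dn σ z) = bl σ (t.pl h e z) := by
      rw [hA e he _ hz]
      ext a b
      have e1 : jd σ (lo k z) (dn σ z) = z := by
        funext i
        by_cases H : i.val < k <;> simp [jd, jn, lo, dn, H]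
      show ∫ v, t.pl h e (jd σ v (dn σ z)) (σ a).1 (σ b).1 ∂μ = t.pl h e z (σ a).1 (σ b).1
      simp only [fun v => pl_const t hh he hz (σ a).1 (σ b).1 v (lo k z), e1]
      simp
    rw [b1, pl_eq t hh.toTen a]
    exact blk_eq σ (hh.herm c hc.mem z (iv_tgt a)) (hc.blk z (iv_tgt a))
  intro e he z hz
  obtain ⟨c, hc, a⟩ := t.loc e he z hz
  refine ⟨h1 e he z hz, ?_, ?_⟩
  · rw [pl_eq t (T := h * P) ((mINV n M h hh).2.2.2.2.2.1 P hP) a]
    show h c z * P c z = _
    rw [hc.prj z (iv_tgt a), hc.blk z (iv_tgt a)]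
  · rw [pl_eq t ((mHES n M).2.2.2.2.2.2.2.2.1 h hh).toTen a]
    have he' := t.sub.sub he
    have ev : ∀ᶠ w in 𝓝 z, dn σ w ∈ e.target :=
      (dn_cont σ).continuousAt.eventually (e.open_target.mem_nhds hz)
    have e1 : ld (h c) =ᶠ[𝓝 z] fun w => ld (h' e) (dn σ w) := by
      filter_upwards [ev, pl_ev t hh.toTen a] with w w1 w2
      rw [ld, ld, ← w2, h1 e he w w1, det_blk]
    have s1 : ContDiffAt ℝ ∞ (ld (h' e)) (dn σ z) :=
      cd_ofReal ((cd_re (hh'.sm e he' _ hz).det).log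
        (Complex.pos_iff.1 (hh'.pos e he' _ hz).det_pos).1.ne')
    show -hess (ld (h c)) z = eb σ (-hess (ld (h' e)) (dn σ z))
    rw [hess_congr e1, hess_dn σ s1]
    simp [eb]

end Pool.Agent.Lib.TQ
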