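import Pool.Agent.Lib.TQ.Blue

open Set

namespace Pool.Agent.Lib.TQ

theorem st_FG : St_FG := by
  intro G Y _ _ _ _ _ hc hp ⟨K, hK, hY⟩
  obtain ⟨K2, hK2, hs⟩ := exists_compact_superset hK
  refine Group.fg_iff.2 ⟨_, ?_, hp K2 hK2⟩
  generalize hH : Subgroup.closure {γ : G | ∃ y ∈ K2, γ • y ∈ K2} = H
  have key : ∀ (y : Y) (g g' : G), g • y ∈ interior K2 → g' • y ∈ interior K2 → g ∈ H → g' ∈ H := by
    intro y g g' h1 h2 hg
    have h3 : g' * g⁻¹ ∈ H := by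
      rw [← hH]
      refine Subgroup.subset_closure ⟨g • y, interior_subset h1, ?_⟩
      rw [mul_smul, inv_smul_smul]
      exact interior_subset h2
    simpa using H.mul_mem h3 hg
  have ho : ∀ p : G → Prop, IsOpen {y : Y | ∃ g, p g ∧ g • y ∈ interior K2} := fun p => by
    rw [ofPred_exists]
    refine isOpen_iUnion fun g => ?_
    rw [ofPred_and]
    exact isOpen_const.inter (isOpen_interior.preimage (hc g))
  have hA : IsClopen {y : Y | ∃ g, g ∈ H ∧ g • y ∈ interior K2} := by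
    refine ⟨⟨?_⟩, ho _⟩
    have e : {y : Y | ∃ g, g ∈ H ∧ g • y ∈ interior K2}ᶜ =
        {y : Y | ∃ g, g ∉ H ∧ g • y ∈ interior K2} := by
      ext y
      constructor
      · intro h
        obtain ⟨g, hg⟩ := hY y
        exact ⟨g, fun h' => h ⟨g, h', hs hg⟩, hs hg⟩
      · rintro ⟨g, h1, h2⟩ ⟨g', h3, h4⟩
        exact h1 (key y g' g h4 h2 h3)
    rw [e]
    exact ho _
  obtain ⟨y0⟩ : Nonempty Y := inferInstance
  obtain ⟨g0, h0⟩ := hY y0
  have hU := hA.eq_univ ⟨g0 • y0, 1, H.one_mem, by rw [one_smul]; exact hs h0⟩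
  refine (Subgroup.eq_top_iff' H).2 fun g => ?_
  obtain ⟨g', h1, h2⟩ : g⁻¹ • g0 • y0 ∈ {y : Y | ∃ g, g ∈ H ∧ g • y ∈ interior K2} :=
    hU ▸ mem_univ _
  exact key _ g' g h2 (by rw [smul_inv_smul]; exact hs h0) h1

end Pool.Agent.Lib.TQ
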