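import Pool.Agent.Lib.TQ.Blue

/-! Project tq, row FIN: the linear parts form a finite group. -/

open Set

noncomputable section

namespace Pool.Agent.Lib.TQ

namespace T12

theorem span_top {V : Type} [NormedAddCommGroup V] [InnerProductSpace ℂ V]
    [FiniteDimensional ℂ V] {S : Set V} {R : ℝ} (h : ∀ v, ∃ s ∈ S, ‖s - v‖ ≤ R) :
    Submodule.span ℂ S = ⊤ := by
  rw [← Submodule.orthogonal_eq_bot_iff, Submodule.eq_bot_iff]
  intro u hu
  by_contra h0
  have hp : 0 < ‖u‖ := norm_pos_iff.2 h0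
  obtain ⟨s, hs, hR⟩ := h ((((|R| + 1) / ‖u‖ : ℝ) : ℂ) • u)
  have h1 := norm_inner_le_norm (𝕜 := ℂ) u (s - (((|R| + 1) / ‖u‖ : ℝ) : ℂ) • u)
  rw [inner_sub_right, Submodule.inner_left_of_mem_orthogonal (Submodule.subset_span hs) hu,
    zero_sub, norm_neg, inner_smul_right, norm_mul, inner_self_eq_norm_sq_to_K, norm_pow,
    Complex.norm_real, RCLike.norm_ofReal, abs_norm, Real.norm_eq_abs,
    abs_of_nonneg (by positivity), pow_two, ← mul_assoc, div_mul_cancel₀ _ hp.ne'] at h1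
  nlinarith [le_abs_self R]

variable {V : Type} [NormedAddCommGroup V] [InnerProductSpace ℂ V] {d : ℕ} {g : Gy d}
  (a : Ga V g)

theorem b_conj (γ l : g.Γ) (hl : a.A l = 1) : a.b (γ * l * γ⁻¹) = a.A γ (a.b l) := by
  have h1 : a.b 1 = 0 := by
    have := a.bmul 1 1
    rw [mul_one, map_one] at this
    simpa using this
  have h2 := a.bmul γ γ⁻¹
  rw [mul_inv_cancel, h1] at h2
  rw [mul_assoc, a.bmul, a.bmul, hl, map_add, add_left_comm]
  exact add_eq_left.2 h2.symm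

theorem orbit_fin (l : g.Γ) (hl : a.A l = 1) (hy : ∀ y : g.Y, l • y = y) :
    (range fun γ => a.A γ (a.b l)).Finite := by
  obtain ⟨y⟩ : Nonempty g.Y := inferInstance
  refine ((a.prp {y} isCompact_singleton ‖a.b l‖).image a.b).subset ?_
  rintro _ ⟨γ, rfl⟩
  refine ⟨γ * l * γ⁻¹, ⟨?_, y, rfl, ?_⟩, b_conj a γ l hl⟩
  · rw [b_conj a γ l hl, LinearIsometryEquiv.norm_map]
  · rw [mul_smul, mul_smul, hy, smul_inv_smul]
    rfl

end T12

open T12 in
theorem st_FIN : St_FIN := by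
  intro V _ _ _ d g a
  obtain ⟨R, hR⟩ := a.lat
  have hS : Submodule.span ℂ {v | ∃ l : g.Γ, a.A l = 1 ∧ (∀ y : g.Y, l • y = y) ∧ a.b l = v} = ⊤ :=
    span_top (R := R) fun v => by
      obtain ⟨l, h1, h2, h3⟩ := hR v
      exact ⟨a.b l, ⟨l, h1, h2, rfl⟩, h3⟩
  obtain ⟨t, ht, hst⟩ := (Submodule.fg_span_iff_fg_span_finset_subset _).1
    (hS ▸ Module.Finite.fg_top (R := ℂ) (M := V))
  rw [hS] at hst
  have hf : (Set.pi univ fun v : t => range fun γ => a.A γ v).Finite :=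
    Finite.pi fun v => by
      obtain ⟨l, h1, h2, h3⟩ := ht v.2
      rw [← h3]
      exact orbit_fin a l h1 h2
  have hi : Function.Injective fun (e : V ≃ₗᵢ[ℂ] V) (v : t) => e v := fun e e' h =>
    LinearIsometryEquiv.toLinearEquiv_injective (LinearEquiv.toLinearMap_injective
      (LinearMap.ext_on hst.symm fun v hv => congrFun h ⟨v, hv⟩))
  have : Finite a.A.range := (hf.preimage hi.injOn).subset (by
    rintro _ ⟨γ, rfl⟩ v -
    exact ⟨γ, rfl⟩)
  exact Subgroup.finiteIndex_ker _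

end Pool.Agent.Lib.TQ
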