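import Pool.Agent.Lib.TQ.Blue

/-! Project tq: a subgroup of finite index that acts freely. -/

open scoped Classical Topology
open Set Filter

noncomputable section

namespace Pool.Agent.Lib.TQ

open Pool.Agent.Lib.SV (E)

namespace T24

theorem tors_exp (A : Type) [CommGroup A] [Group.FG A] :
    ∃ N : ℕ, N ≠ 0 ∧ ∀ a : A, IsOfFinOrder a → a ^ N = 1 := by
  have : Module.Finite ℤ (Additive A) := Module.Finite.iff_addGroup_fg.mpr inferInstance
  have : Finite (Submodule.torsion ℤ (Additive A)) :=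
    Module.finite_of_fg_torsion _ Submodule.torsion_isTorsion
  refine ⟨Nat.card (Submodule.torsion ℤ (Additive A)), Nat.card_pos.ne', fun a ha => ?_⟩
  obtain ⟨m, hm, h1⟩ := isOfFinOrder_iff_pow_eq_one.1 ha
  have h2 : Additive.ofMul a ∈ Submodule.torsion ℤ (Additive A) :=
    ⟨⟨(m : ℤ), mem_nonZeroDivisors_of_ne_zero (Int.natCast_ne_zero.2 hm.ne')⟩, by
      change (m : ℤ) • Additive.ofMul a = 0
      rw [natCast_zsmul, ← ofMul_pow, h1, ofMul_one]⟩
  have h3 := congrArg Subtype.val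
    (card_nsmul_eq_zero' (x := (⟨_, h2⟩ : Submodule.torsion ℤ (Additive A))))
  change Nat.card (Submodule.torsion ℤ (Additive A)) • Additive.ofMul a = 0 at h3
  rwa [← ofMul_pow, ofMul_eq_zero] at h3

theorem loc_cpt {d : ℕ} (g : Gy d) : LocallyCompactSpace g.Y := by
  let _ : ChartedSpace (E d) g.Y :=
    { atlas := range g.c
      chartAt := fun y => g.c (g.cov y).choose
      mem_chart_source := fun y => (g.cov y).choose_spec
      chart_mem_atlas := fun y => ⟨_, rfl⟩ }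
  exact ChartedSpace.locallyCompactSpace (E d) g.Y

variable {V : Type} [NormedAddCommGroup V] [InnerProductSpace ℂ V] {d : ℕ} {g : Gy d}

theorem ker_comm (a : Ga V g) {γ δ : g.Γ} (hγ : a.A γ = 1) (hδ : a.A δ = 1) : γ * δ = δ * γ := by
  have b1 : a.b 1 = 0 := by simpa using a.bmul 1 1
  have add : ∀ x y, a.A x = 1 → a.b (x * y) = a.b x + a.b y := fun x y hx => by
    rw [a.bmul, hx]; rfl
  have h1 : a.A (γ * δ) = 1 := by rw [map_mul, hγ, hδ, mul_one]
  have h2 : a.A (δ * γ) = 1 := by rw [map_mul, hγ, hδ, mul_one]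
  have h3 := add (δ * γ) (δ * γ)⁻¹ h2
  rw [mul_inv_cancel, b1, add δ γ hδ] at h3
  refine mul_inv_eq_one.1 (a.inj _ (by rw [map_mul, map_inv, h1, h2, inv_one, mul_one]) ?_)
  rw [add _ _ h1, add γ δ hγ, h3, add_comm (a.b γ)]

theorem pd_all (a : Ga V g) (K : Set g.Y) (hK : IsCompact K) :
    ((fun γ : g.Γ => fun y : g.Y => γ • y) '' {γ | ∃ y ∈ K, γ • y ∈ K}).Finite := by
  obtain ⟨R, hR⟩ := a.lat
  refine ((a.prp K hK R).image fun γ : g.Γ => fun y : g.Y => γ • y).subset ?_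
  rintro _ ⟨γ, ⟨y, hy, hy'⟩, rfl⟩
  obtain ⟨l, l1, l2, l3⟩ := hR (-a.b γ)
  refine ⟨l * γ, ⟨?_, y, hy, by rwa [mul_smul, l2]⟩, funext fun y => by simp only [mul_smul, l2]⟩
  rw [a.bmul, l1]
  rwa [sub_neg_eq_add] at l3

theorem cc_fin (a : Ga V g) (Δ : Subgroup g.Γ) [Δ.FiniteIndex] :
    ∃ K : Set g.Y, IsCompact K ∧ ∀ y : g.Y, ∃ γ ∈ Δ, γ • y ∈ K := by
  obtain ⟨K, hK, R, hR⟩ := a.coc
  refine ⟨⋃ c : g.Γ ⧸ Δ, (fun y => c.out⁻¹ • y) '' K,
    isCompact_iUnion fun c => hK.image (g.cont _), fun y => ?_⟩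
  obtain ⟨γ, -, h1⟩ := hR 0 y
  refine ⟨(QuotientGroup.mk γ⁻¹ : g.Γ ⧸ Δ).out⁻¹ * γ⁻¹, QuotientGroup.eq.1 (QuotientGroup.out_eq' _),
    mem_iUnion.2 ⟨_, _, h1, (mul_smul _ _ _).symm⟩⟩

end T24

open T24

theorem st_GRP (hFG : St_FG) (hFIN : St_FIN) : St_GRP := by
  intro V _ _ _ d g a
  have := hFIN V d g a
  have := loc_cpt g
  let φ := MulAction.toPermHom g.Γ g.Y
  let B := a.A.ker.map φ
  have pdB : ∀ K : Set g.Y, IsCompact K → {β : B | ∃ y ∈ K, β • y ∈ K}.Finite := fun K hK => by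
    refine Finite.of_finite_image (f := fun β : B => fun y => β.1 y)
      ((pd_all a K hK).subset ?_) fun β _ β' _ e => Subtype.ext (Equiv.ext (congrFun e))
    rintro _ ⟨⟨_, γ, hγ, rfl⟩, hβ, rfl⟩
    exact ⟨γ, hβ, rfl⟩
  have : Group.FG B := by
    refine hFG B g.Y ?_ pdB ?_
    · rintro ⟨_, γ, hγ, rfl⟩
      exact g.cont γ
    · obtain ⟨K, hK, h1⟩ := cc_fin a a.A.ker
      exact ⟨K, hK, fun y => (h1 y).elim fun γ hγ => ⟨⟨φ γ, γ, hγ.1, rfl⟩, hγ.2⟩⟩
  let _ : CommGroup B :=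
    { (inferInstance : Group B) with
      mul_comm := by
        rintro ⟨_, γ, hγ, rfl⟩ ⟨_, δ, hδ, rfl⟩
        refine Subtype.ext ?_
        change φ γ * φ δ = φ δ * φ γ
        rw [← map_mul, ← map_mul, ker_comm a hγ hδ] }
  obtain ⟨N, hN, hT⟩ := tors_exp B
  have := Subgroup.finiteIndex_range_powMonoidHom_of_fg B hN
  let Δ := (((powMonoidHom (α := B) N).range).comap (φ.subgroupMap a.A.ker)).map a.A.ker.subtype
  have hΔ : Δ.FiniteIndex := ⟨by
    rw [Subgroup.index_map_subtype,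
      Subgroup.index_comap_of_surjective _ (φ.subgroupMap_surjective a.A.ker)]
    exact mul_ne_zero Subgroup.FiniteIndex.index_ne_zero Subgroup.FiniteIndex.index_ne_zero⟩
  refine ⟨Δ, hΔ, ?_, ?_, fun K hK => (pd_all a K hK).subset (image_mono fun γ h => h.2),
    cc_fin a Δ⟩
  · rintro _ ⟨γ, -, rfl⟩
    exact γ.2
  · rintro _ ⟨γ, ⟨α, hα⟩, rfl⟩ y hy y'
    have h1 : (φ.subgroupMap a.A.ker γ) • y = y := hy
    have h2 : IsOfFinOrder (φ.subgroupMap a.A.ker γ) := by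
      refine finite_powers.1 ((pdB {y} isCompact_singleton).subset ?_)
      rintro _ ⟨m, rfl⟩
      exact ⟨y, rfl, (MulAction.stabilizer B y).pow_mem h1 m⟩
    have h3 : φ.subgroupMap a.A.ker γ = 1 := by
      rw [← hα] at h2 ⊢
      exact hT α (h2.of_pow hN)
    change (φ.subgroupMap a.A.ker γ) • y' = y'
    rw [h3, one_smul]

end Pool.Agent.Lib.TQ
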