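import Pool.Agent.Lib.TQ.Blue
import Pool.Agent.Lib.HS32.MAll
import Pool.Agent.Lib.SV.Hol85

/-! The identity theorem for holomorphic sections. -/

open scoped Topology
open Set Filter

namespace Pool.Agent.Lib.TQ

open Pool.Agent.Lib.SV (E)
open Pool.Agent.Lib.HS32

namespace T80

variable {d m : ℕ} {Z : Mf d} {s : Z.Fam ℂ}

theorem zero_iff (hs : Z.HSec m s) {e : Z.Ch} (he : e ∈ Z.C) {x : Z.X} (hx : x ∈ e.source) :
    s e (e x) = 0 ↔ Z.ev s x = 0 := by
  obtain ⟨h1, h2, -⟩ := mTR d Z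
  rw [hs.cmp _ (h1 x).1 e he x (h1 x).2 hx, mul_eq_zero,
    or_iff_left (pow_ne_zero _ (h2 _ (h1 x).1 e he x (h1 x).2 hx).2.1)]
  rfl

theorem near_iff (hs : Z.HSec m s) {e : Z.Ch} (he : e ∈ Z.C) {x : Z.X} (hx : x ∈ e.source) :
    (∀ᶠ w in 𝓝 (e x), s e w = 0) ↔ ∀ᶠ y in 𝓝 x, Z.ev s y = 0 := by
  rw [← e.map_nhds_eq hx, eventually_map]
  exact eventually_congr ((e.open_source.eventually_mem hx).mono
    fun y hy => zero_iff hs he hy)

end T80

open T80 in
theorem st_IDT : St_IDT := by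
  intro d Z _ m s hs e he w hw h0
  have h1 : univ ⊆ {x | ∀ᶠ y in 𝓝 x, Z.ev s y = 0} := by
    refine isPreconnected_univ.subset_of_closure_inter_subset isOpen_setOfPred_eventually_nhds
      ⟨e.symm w, mem_univ _, (near_iff hs he (e.map_target hw)).1 (by rwa [e.right_inv hw])⟩ ?_
    rintro x ⟨hx, -⟩
    obtain ⟨c, hc, hxc⟩ := Z.cov x
    refine (near_iff hs hc hxc).1 (SV.H85.eventually_zero_of_frequently
      ((c.open_target.eventually_mem (c.map_source hxc)).mono
        fun z hz => hs.hol c hc z hz) ?_)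
    rw [← c.map_nhds_eq hxc, frequently_map]
    exact ((mem_closure_iff_frequently.1 hx).and_eventually (c.open_source.mem_nhds hxc)).mono
      fun y hy => (near_iff hs hc hy.2).2 hy.1
  exact funext fun x => (h1 (mem_univ x)).self_of_nhds

end Pool.Agent.Lib.TQ
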