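import Pool.Agent.Lib.TQ.Blue

/-! Project tq: maxima on the tubes. -/

open scoped Classical Topology
open Set Metric Filter

noncomputable section

namespace Pool.Agent.Lib.TQ

open Pool.Agent.Lib.SV (E)
open Pool.Agent.Lib.HS32
open Pool.Agent.Lib.HS95 (Lo Hi Vk lo jn)

namespace T73

variable {n k d : ℕ} (σ : Fin d ≃ Hi n k)

lemma dn_jd' (v : Vk n k) (w : E d) : dn σ (jd σ v w) = w := by
  funext a
  simp [dn, jd, jn, (σ a).2]

lemma jd_lo' (z : E n) : jd σ (lo k z) (dn σ z) = z := by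
  funext i
  by_cases h : i.val < k <;> simp [dn, jd, jn, lo, h]

lemma jd_cont' : Continuous fun p : Vk n k × E d => jd σ p.1 p.2 := by
  refine continuous_pi fun i => ?_
  by_cases h : i.val < k
  · simp only [jd, jn, h, dite_true]
    fun_prop
  · simp only [jd, jn, h, dite_false]
    fun_prop

lemma Q_cont {M : Mf n} {h P : M.Fam (Mat n)} {Z : Mf d} (t : Tb M h P σ Z) {e : Z.Ch}
    (he : e ∈ t.S) {z : E n} (hz : dn σ z ∈ e.target) : ContinuousAt (t.Q e) z := by
  obtain ⟨c, -, hc⟩ := t.loc e he z hz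
  have h1 := hc.eq.self_of_nhds
  have h2 : z ∈ c.target := h1.2 ▸ c.map_source h1.1
  refine (c.continuousAt_symm h2).congr ?_
  filter_upwards [hc.eq] with z' hz'
  rw [← c.left_inv hz'.1, hz'.2]

end T73

theorem st_MAX : St_MAX := by
  intro n M h P k d σ Z _ t a b ha hb
  obtain ⟨V, hV⟩ := (mCOV d Z).2.1 t.S (fun _ => univ) t.sub fun _ => univ_mem
  obtain ⟨R, hR⟩ := t.per
  have hR0 : 0 ≤ R := by
    obtain ⟨l, hl, -⟩ := hR 0
    exact (norm_nonneg _).trans hl
  set f : Fin V.r → Vk n k × E d → ℝ :=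
    fun i p => a (t.Q (V.e i) (jd σ p.1 p.2)) - b ((V.e i).symm p.2) with hf
  have hsub : ∀ i, closedBall (V.c i) (V.ρ i) ⊆ (V.e i).target := fun i =>
    (closedBall_subset_closedBall (by linarith [V.pos i])).trans (V.sub i)
  have hmax : ∀ i, ∃ p ∈ closedBall (0 : Vk n k) R ×ˢ closedBall (V.c i) (V.ρ i),
      IsMaxOn (f i) (closedBall (0 : Vk n k) R ×ˢ closedBall (V.c i) (V.ρ i)) p := by
    intro i
    refine ((isCompact_closedBall _ _).prod (isCompact_closedBall _ _)).exists_isMaxOn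
      ⟨(0, V.c i), mem_closedBall_self hR0, mem_closedBall_self (V.pos i).le⟩ ?_
    intro p hp
    apply ContinuousAt.continuousWithinAt
    have h1 : p.2 ∈ (V.e i).target := hsub i hp.2
    refine ContinuousAt.sub (ha.continuousAt.comp ?_) (hb.continuousAt.comp ?_)
    · refine ContinuousAt.comp (f := fun p : Vk n k × E d => jd σ p.1 p.2)
        (T73.Q_cont σ t (hV i).1 ?_) (T73.jd_cont' σ).continuousAt
      rw [T73.dn_jd']
      exact h1
    · exact ((V.e i).continuousAt_symm h1).comp continuousAt_snd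
  choose p hp hm using hmax
  obtain ⟨x0⟩ : Nonempty Z.X := inferInstance
  obtain ⟨i0, -⟩ := V.cov x0
  obtain ⟨i, -, hi⟩ := Finset.exists_max_image Finset.univ (fun i => f i (p i))
    ⟨i0, Finset.mem_univ _⟩
  refine ⟨V.e i, (hV i).1, jd σ (p i).1 (p i).2, ?_, fun e' he' z' hz' => ?_⟩
  · rw [T73.dn_jd']
    exact hsub i (hp i).2
  · obtain ⟨j, hj, hj', -⟩ := V.cov (e'.symm (dn σ z'))
    obtain ⟨b0, hb0⟩ := t.ov (V.e j) (hV j).1 e' he' _ hj (e'.map_target hz')
    have h1 := hb0.self_of_nhds (lo k z')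
    rw [e'.right_inv hz', T73.jd_lo'] at h1
    obtain ⟨l, hl, hl'⟩ := hR (lo k z' + b0)
    have h2 := hl' (V.e j) (hV j).1 (lo k z' + b0 - l) (V.e j (e'.symm (dn σ z')))
    rw [sub_add_cancel] at h2
    have h3 : (lo k z' + b0 - l, V.e j (e'.symm (dn σ z'))) ∈
        closedBall (0 : Vk n k) R ×ˢ closedBall (V.c j) (V.ρ j) :=
      ⟨by rw [mem_closedBall_zero_iff, norm_sub_rev]; exact hl, ball_subset_closedBall hj'⟩
    have h4 : f j _ ≤ f j (p j) := hm j h3
    have h5 := hi j (Finset.mem_univ _)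
    rw [T73.dn_jd', h1, h2]
    simp only [hf, (V.e j).left_inv hj] at h4 h5
    linarith

end Pool.Agent.Lib.TQ
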