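import Pool.Agent.Lib.TQ.Blue

/-! Project tq: the invariant mean of periodic functions. -/

open scoped Classical Topology Pointwise
open Set MeasureTheory Metric Filter

noncomputable section

namespace Pool.Agent.Lib.TQ

namespace T91

theorem span_top {V : Type} [NormedAddCommGroup V] [NormedSpace ℝ V] [FiniteDimensional ℝ V]
    {L : Set V} {R : ℝ} (h : ∀ v, ∃ l ∈ L, ‖l - v‖ ≤ R) : Submodule.span ℝ L = ⊤ := by
  by_contra hne
  obtain ⟨f, hf0, hf⟩ := Submodule.exists_le_ker_of_lt_top _ (lt_top_iff_ne_top.2 hne)
  obtain ⟨v, hv⟩ : ∃ v, f v ≠ 0 := by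
    by_contra hc
    push Not at hc
    exact hf0 (LinearMap.ext hc)
  let g : V →L[ℝ] ℝ := LinearMap.toContinuousLinearMap f
  obtain ⟨l, hl, hlR⟩ := h (((‖g‖ * R + 1) / f v) • v)
  have h1 : f l = 0 := hf (Submodule.subset_span hl)
  have h2 : g (l - ((‖g‖ * R + 1) / f v) • v) = -(‖g‖ * R + 1) := by
    change f _ = _
    rw [map_sub, map_smul, h1, smul_eq_mul, div_mul_cancel₀ _ hv, zero_sub]
  have h3 := (g.le_opNorm _).trans (mul_le_mul_of_nonneg_left hlR (norm_nonneg g))
  rw [h2, norm_neg, Real.norm_eq_abs] at h3
  linarith [le_abs_self (‖g‖ * R + 1)]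

end T91

theorem st_MEA : St_MEA := by
  rintro V _ _ _ _ _ L ⟨R, hR⟩
  obtain ⟨s, hsL, hs, hli⟩ := exists_linearIndependent ℝ L
  let bs : Module.Basis s ℝ V := Module.Basis.mk hli (by
    rw [Subtype.range_coe, hs, T91.span_top hR])
  have : Finite s := Module.Finite.finite_basis bs
  let vol : Measure V := Measure.addHaar
  have hD := ZSpan.isAddFundamentalDomain bs vol
  have hb := ZSpan.fundamentalDomain_isBounded bs
  have h0 : vol (ZSpan.fundamentalDomain bs) ≠ 0 := ZSpan.measure_fundamentalDomain_ne_zero bs
  refine ⟨ProbabilityTheory.cond vol (ZSpan.fundamentalDomain bs),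
    ProbabilityTheory.cond_isProbabilityMeasure_of_finite h0 hb.measure_lt_top.ne,
    ⟨closure (ZSpan.fundamentalDomain bs), hb.isCompact_closure, ?_⟩, fun F _ hF b => ?_⟩
  · rw [ProbabilityTheory.cond, Measure.smul_apply,
      Measure.restrict_apply isClosed_closure.measurableSet.compl,
      (disjoint_iff_inter_eq_empty.1 (disjoint_compl_left.mono_right subset_closure)),
      measure_empty, smul_zero]
  · have hinv : ∀ l ∈ Submodule.span ℤ (range bs), ∀ v, F (l + v) = F v := by
      intro l hl
      induction hl using Submodule.span_induction with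
      | mem x hx =>
        obtain ⟨i, rfl⟩ := hx
        intro v
        rw [add_comm]
        exact hF _ (by simpa [bs] using hsL i.2) v
      | zero => intro v; rw [zero_add]
      | add x y _ _ hx hy => intro v; rw [add_assoc, hx, hy]
      | smul n x _ hx =>
        induction n using Int.induction_on with
        | zero => intro v; rw [zero_smul, zero_add]
        | succ n ih => intro v; rw [add_smul, one_smul, add_assoc, ih, hx]
        | pred n ih =>
          intro v
          rw [sub_smul, one_smul, sub_eq_add_neg, add_assoc, ih, ← hx (-x + v),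
            add_neg_cancel_left]
    have : VAddInvariantMeasure (Submodule.span ℤ (range bs)) V vol :=
      inferInstanceAs <| VAddInvariantMeasure (Submodule.span ℤ (range bs)).toAddSubgroup V vol
    have h1 := hD.setIntegral_eq (hD.vadd_of_comm b) (f := F) fun l v => hinv l l.2 v
    have h2 := (measurePreserving_add_left vol b).setIntegral_image_emb
      (measurableEmbedding_addLeft b) F (ZSpan.fundamentalDomain bs)
    simp only [ProbabilityTheory.cond, integral_smul_measure]
    congr 1
    rw [h1]
    simp only [add_comm _ b]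
    exact h2.symm

end Pool.Agent.Lib.TQ
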