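import Pool.Agent.Lib.TQ.Blue

/-! Row NFZ: the canonical bundle of the quotient is nef. -/

open scoped Classical Topology ContDiff ComplexOrder Matrix
open Set MeasureTheory Complex Metric Filter

noncomputable section

namespace Pool.Agent.Lib.TQ

open Pool.Agent.Lib.SV (E)
open Pool.Agent.Lib.HS32
open Pool.Agent.Lib.HS95 (Lo Hi Vk lo jn)

namespace T5

variable {n k d : ℕ} (σ : Fin d ≃ Hi n k)

lemma dn_jd (v : Vk n k) (w : E d) : dn σ (jd σ v w) = w := by
  funext a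
  simp only [dn, jd, jn]
  rw [dif_neg (σ a).2]
  simp

lemma eb_app (T : Mat d) (a b : Fin d) : eb σ T (σ a).1 (σ b).1 = T a b := by
  have h : ∀ a b : Fin d, ((σ a).1 = (σ b).1) = (b = a) := fun a b => propext
    ⟨fun h => (σ.injective (Subtype.ext h)).symm, fun h => by rw [h]⟩
  simp [eb, em, Matrix.mul_apply, h, apply_ite (star : ℂ → ℂ)]

lemma pd_of {A B : Mat n} (h : A.PosDef) (e : A = B) : B.PosDef := e ▸ h

end T5

theorem st_NFZ (_hT : St_AVT) (hF : St_AVF) (hP : St_AVP) : St_NFZ := by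
  intro n M H h P k d σ Z t μ H' h' hμ hH hh hN hH' hh' hA hD ε hε
  obtain ⟨w, hw, hpos⟩ := hN ε hε
  have hM := (mHES n M).2.2.2.2.2.2.2.2
  have hZ := (mHES d Z).2.2.2.2.2.2.2.2
  obtain ⟨l1, r1⟩ := hM.2 H h hH.toMet hh
  obtain ⟨l2, r2⟩ := hZ.2 H' h' hH'.toMet hh'
  have hu := hw.add l1
  obtain ⟨u, su, -, au⟩ := hF n M h P k d σ Z t μ _ hμ hu
  have ar : t.AvT μ (M.ric h) (Z.ric h') := by
    intro e he z hz
    have := hμ.prob
    ext a b
    simp only [avM, av, Matrix.of_apply]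
    have h1 : ∀ v, t.pl (M.ric h) e (jd σ v z) (σ a).1 (σ b).1 = Z.ric h' e z a b := fun v => by
      rw [(hD e he _ (by rwa [T5.dn_jd])).2.2, T5.eb_app, T5.dn_jd]
    simp [h1]
  have f1 := (hM.1 h hh).toForm
  have f2 := ((mHES n M).1 _ hu).toForm
  have g1 := (hZ.1 h' hh').toForm
  have g2 := ((mHES d Z).1 _ su).toForm
  have a1 := (hP n M h P k d σ Z t μ H H' hμ hH.toTen hH'.toTen hA).2.2.1 ε
  have a2 := ((hP n M h P k d σ Z t μ _ _ hμ (hH.toTen.smul ε) (hH'.toTen.smul ε) a1).2.2.2 _ _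
    f1.toTen ar).2
  have a3 := ((hP n M h P k d σ Z t μ _ _ hμ ((hH.toTen.smul ε).sub f1.toTen)
    ((hH'.toTen.smul ε).sub g1.toTen) a2).2.2.2 _ _ f2.toTen au).1
  have ff := ((hH.toForm.smul ε).sub f1).add f2
  have m := (hP n M h P k d σ Z t μ _ _ hμ ff.toTen
    (((hH'.toTen.smul ε).sub g1.toTen).add g2.toTen) a3).1 ⟨ff, fun e he z hz => by
      have := hpos e he z hz
      simp only [Mf.gE, Pi.add_apply, Pi.sub_apply] at this ⊢
      rw [r1 e he z hz] at this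
      rw [((mLAP n M _ _ hw l1).1 0 e he z hz).2.1]
      exact T5.pd_of this (by abel)⟩
  refine ⟨_, su.sub l2, fun e he z hz => ?_⟩
  have := m.pos e he z hz
  simp only [Mf.gE, Pi.add_apply, Pi.sub_apply] at this ⊢
  rw [r2 e he z hz, ((mLAP d Z _ _ su l2).1 0 e he z hz).2.2.1]
  exact T5.pd_of this (by abel)

end Pool.Agent.Lib.TQ
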