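import Pool.Agent.Lib.TQ.Blue

/-! Project tq: the quotient manifold. -/

open scoped Topology
open Set Filter

noncomputable section

namespace Pool.Agent.Lib.TQ

open Pool.Agent.Lib.SV (E)
open Pool.Agent.Lib.HS32

namespace T53

variable {d : ℕ} (g : Gy d)

theorem bih_trans {ψ φ : OpenPartialHomeomorph (E d) (E d)} (h : Bih ψ) (h' : Bih φ) :
    Bih (ψ.trans φ) :=
  ⟨h'.1.comp (h.1.mono inter_subset_left) fun _ hz => hz.2,
    h.2.comp (h'.2.mono inter_subset_left) fun _ hz => hz.2⟩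

/-- The homeomorphism defined by an element of the group. -/
def hm (γ : g.Γ) : g.Y ≃ₜ g.Y := ⟨MulAction.toPerm γ, g.cont γ, g.cont γ⁻¹⟩

/-- The same in coordinates. -/
def ta (γ : g.Γ) (j j' : g.J) : OpenPartialHomeomorph (E d) (E d) :=
  (g.c j).symm.trans ((hm g γ).toOpenPartialHomeomorph.trans (g.c j'))

theorem bih_ta (γ : g.Γ) (j j' : g.J) : Bih (ta g γ j j') := by
  refine ⟨fun z hz => ?_, fun z hz => ?_⟩
  · have := g.hol γ j j' _ ((g.c j).map_target hz.1) hz.2.2
    rw [(g.c j).right_inv hz.1] at this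
    exact this.differentiableWithinAt
  · have := g.hol γ⁻¹ j' j _ ((g.c j').map_target hz.1.1) hz.2
    rw [(g.c j').right_inv hz.1.1] at this
    exact this.differentiableWithinAt

theorem lc : LocallyCompactSpace g.Y :=
  letI : ChartedSpace (E d) g.Y := ⟨range g.c, fun y => g.c (g.cov y).choose,
    fun y => (g.cov y).choose_spec, fun _ => mem_range_self _⟩
  ChartedSpace.locallyCompactSpace (E d) g.Y

/-- The topological quotient. -/
theorem quo {Δ : Subgroup g.Γ} (h : Fr g Δ) : ∃ (X : Type) (_ : TopologicalSpace X)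
    (π : g.Y → X), T2Space X ∧ IsLocalHomeomorph π ∧ Function.Surjective π ∧
      ∀ y y', π y = π y' ↔ ∃ γ ∈ Δ, y' = γ • y := by
  set G := Δ.map (MulAction.toPermHom g.Γ g.Y)
  have := lc g
  have : ContinuousConstSMul G g.Y := ⟨fun ⟨_, γ, _, e⟩ => by subst e; exact g.cont γ⟩
  have : ProperlyDiscontinuousSMul G g.Y := ⟨fun {K L} hK hL =>
    Finite.of_finite_image (f := fun s : G => (s.1 : g.Y → g.Y)) ((h.pd _ (hK.union hL)).subset (by
      rintro _ ⟨⟨_, γ, a, rfl⟩, ⟨_, ⟨y, b, rfl⟩, c⟩, rfl⟩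
      exact ⟨γ, ⟨a, y, Or.inl b, Or.inr c⟩, rfl⟩))
      fun _ _ _ _ e => Subtype.ext (DFunLike.coe_injective e)⟩
  have : IsCancelSMul G g.Y := isCancelSMul_iff_eq_one_of_smul_eq.2 fun ⟨_, γ, a, e⟩ y hy => by
    subst e
    exact Subtype.ext (Equiv.ext (h.free γ a y hy))
  refine ⟨Quotient (MulAction.orbitRel G g.Y), inferInstance, Quotient.mk _, inferInstance,
    isQuotientCoveringMap_quotientMk_of_properlyDiscontinuousSMul.isCoveringMap.isLocalHomeomorph,
    Quotient.mk_surjective, fun y y' => ?_⟩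
  rw [eq_comm, Quotient.eq]
  constructor
  · rintro ⟨⟨_, γ, a, rfl⟩, e⟩
    exact ⟨γ, a, e.symm⟩
  · rintro ⟨γ, a, e⟩
    exact ⟨⟨_, γ, a, rfl⟩, e.symm⟩

end T53

open T53

theorem st_QUO : St_QUO := by
  intro d g Δ h
  obtain ⟨X, _, π, h2, hl, hs, hf⟩ := quo g h
  have hc := hl.continuous
  let Z : Mf d :=
    { X := X
      C := {e | ∀ y, π y ∈ e.source → ∃ j ψ, Bih ψ ∧ y ∈ (g.c j).source ∧
        g.c j y ∈ ψ.source ∧ ∀ᶠ y' in 𝓝 y, e (π y') = ψ (g.c j y')}
      cov := fun x => by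
        obtain ⟨y₀, rfl⟩ := hs x
        obtain ⟨p, a1, a2⟩ := hl y₀
        obtain ⟨j₀, a3⟩ := g.cov y₀
        have a4 : ∀ y ∈ p.source, p.symm (π y) = y := fun y hy => by rw [a2, p.left_inv hy]
        refine ⟨p.symm.trans (g.c j₀), fun y hy => ?_, a2 ▸ p.map_source a1, ?_⟩
        · obtain ⟨γ, b1, b2⟩ := (hf y (p.symm (π y))).1
            ((p.right_inv hy.1).symm.trans (congrFun a2 _).symm)
          obtain ⟨j, b3⟩ := g.cov y
          refine ⟨j, ta g γ j j₀, bih_ta g γ j j₀, b3, ⟨(g.c j).map_source b3, trivial, ?_⟩, ?_⟩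
          · change γ • (g.c j).symm (g.c j y) ∈ (g.c j₀).source
            rw [(g.c j).left_inv b3, ← b2]
            exact hy.2
          · filter_upwards [(g.c j).open_source.mem_nhds b3, (g.cont γ).continuousAt.eventually_mem
              (p.open_source.mem_nhds (b2 ▸ p.map_target hy.1))] with y' c1 c2
            change g.c j₀ (p.symm (π y')) = g.c j₀ (γ • (g.c j).symm (g.c j y'))
            rw [(g.c j).left_inv c1, (hf y' _).2 ⟨γ, b1, rfl⟩, a4 _ c2]
        · change p.symm (π y₀) ∈ (g.c j₀).source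
          rwa [a4 _ a1]
      hol := fun e he e' he' z hz => by
        obtain ⟨y, hy⟩ := hs (e'.symm z)
        have a0 : π y ∈ e'.source := hy ▸ e'.map_target hz.1
        obtain ⟨j, ψ, a1, a2, a3, a4⟩ := he y (hy ▸ hz.2)
        obtain ⟨j', ψ', b1, b2, b3, b4⟩ := he' y a0
        have e1 : z = ψ' (g.c j' y) := by rw [← b4.self_of_nhds, hy, e'.right_inv hz.1]
        have e2 : ψ'.symm z = g.c j' y := by rw [e1, ψ'.left_inv b3]
        have e3 : (g.c j').symm (ψ'.symm z) = y := by rw [e2, (g.c j').left_inv b2]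
        have m1 := ψ'.open_target.mem_nhds (e1 ▸ ψ'.map_source b3 : z ∈ ψ'.target)
        have m2 := (g.c j').map_source b2
        have d1 : DifferentiableAt ℂ ψ'.symm z := b1.2.differentiableAt m1
        have t : Tendsto (fun w => (g.c j').symm (ψ'.symm w)) (𝓝 z) (𝓝 y) := by
          have := ((g.c j').continuousAt_symm (e2 ▸ m2)).comp d1.continuousAt
          rwa [ContinuousAt, Function.comp_apply, e3] at this
        have d2 := g.hol 1 j' j y b2 (by rwa [one_smul])
        simp only [one_smul] at d2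
        have d3 : DifferentiableAt ℂ ψ (g.c j ((g.c j').symm (ψ'.symm z))) :=
          e3.symm ▸ a1.1.differentiableAt (ψ.open_source.mem_nhds a3)
        refine ((d3.comp z ((e2.symm ▸ d2 :).comp z d1)).congr_of_eventuallyEq
          ?_).differentiableWithinAt
        filter_upwards [t.eventually a4, t.eventually b4, m1, t.eventually
          (hc.continuousAt.eventually_mem (e'.open_source.mem_nhds a0)),
          d1.continuousAt.eventually_mem ((g.c j').open_target.mem_nhds (e2 ▸ m2))]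
          with w c1 c2 c3 c4 c5
        rw [(g.c j').right_inv c5, ψ'.right_inv c3] at c2
        refine Eq.trans ?_ c1
        rw [Function.comp_apply, ← e'.left_inv c4, c2]
      sat := fun e he φ a1 a2 y hy => by
        obtain ⟨j, ψ, b1, b2, b3, b4⟩ := he y hy.1
        exact ⟨j, ψ.trans φ, bih_trans b1 ⟨a1, a2⟩, b2, ⟨b3, by
          change ψ (g.c j y) ∈ φ.source
          rw [← show e (π y) = _ from b4.self_of_nhds]
          exact hy.2⟩, b4.mono fun y' c => congrArg φ c⟩ }
  obtain ⟨K, k1, k2⟩ := h.cc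
  refine ⟨Z, ⟨h2, ⟨(k1.image hc).of_isClosed_subset isClosed_univ fun x _ => ?_⟩,
    hs.connectedSpace hc⟩, π, hl, hs, hf, fun e he => he⟩
  obtain ⟨y, rfl⟩ := hs x
  obtain ⟨γ, a1, a2⟩ := k2 y
  exact ⟨_, a2, ((hf y _).2 ⟨γ, a1, rfl⟩).symm⟩

end Pool.Agent.Lib.TQ
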