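import Pool.Agent.Lib.TQ.Blue
import Pool.Agent.Lib.HN9.All
import Pool.Agent.Lib.HN.B_NVB
import Pool.Agent.Lib.GH.B_GPRD

/-! Project tq: the output of the first half. -/

open scoped Topology
open Set Filter MeasureTheory

noncomputable section

namespace Pool.Agent.Lib.TQ

open Pool.Agent.Lib.SV (E)
open Pool.Agent.Lib.HS32
open Pool.Agent.Lib.HS95 (Hi Vk lo up)

/-- The flat leaves are compact. -/
theorem raw {n : ℕ} (M : Mf n) [M.Cpt] {H h P : M.Fam (Mat n)} {k d : ℕ} (σ : Fin d ≃ Hi n k)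
    (hn : 0 < n) (hH : M.Kae H) (hN : M.NefB H 0) (hh : M.Met h) (hP : M.Fl1 h P k)
    (hv : 0 < M.vB H (h * P) 0) : Raw M h P σ := by
  obtain ⟨a1, a2, a3, -⟩ := GH.st_GPRD n M h P k hh hP
  obtain ⟨S, g, T, ⟨L⟩, hc, ⟨D⟩, t1, t2, t3⟩ := HN9.leaf n M H h P k hn hH hh hP.en a1 a2
    (HN.st_NVB n M H h _ hH hh a2 a3 hN).1 hv
  let R : (Hi n k → ℂ) ≃L[ℂ] E d := (LinearEquiv.funCongrLeft ℂ ℂ σ).toContinuousLinearEquiv
  have hR : ∀ z : E n, R.symm (dn σ z) = up k z := fun z => R.symm_apply_eq.2 rfl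
  refine ⟨{ Y := g.Y, J := g.J, c := fun j => (g.c j).transHomeomorph R.toHomeomorph, cov := g.cov
            Γ := T.Γ, cont := fun γ => (T.iso γ).cont, hol := fun γ j j' y hy hy' => ?_ },
    ⟨T.A, T.b, T.bmul, T.inj, t1, t2, t3⟩, D.q, D.cont, D.inv, D.orb, D.linj, fun x => ?_⟩
  · have := ((T.iso γ).loc j j' y hy hy').hol
    rw [← R.symm_apply_apply (g.c j y)] at this
    exact R.differentiableAt.comp _ (this.comp _ R.symm.differentiableAt)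
  · obtain ⟨i, hi⟩ := S.cov x
    obtain ⟨B, v, j, -, b1, b2⟩ := D.sec i x hi
    simp only [L.app, ← hR] at b1 b2
    exact ⟨_, L.prod i, L.src i ▸ hi, B, v, j, b1, b2⟩

/-- The hypotheses of the second half. -/
theorem raw' {n : ℕ} (M : Mf n) [M.Cpt] {H h P : M.Fam (Mat n)} {k d : ℕ} (σ : Fin d ≃ Hi n k)
    (hn : 0 < n) (hH : M.Kae H) (hN : M.NefB H 0) (hh : M.Met h) (hP : M.Fl1 h P k)
    (hv : 0 < ∫ x, M.dq H (h * P - M.ric h) x ∂M.mu H) :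
    W86.Nef M H ∧ 0 < M.vB H (h * P) 0 ∧ Raw M h P σ := by
  obtain ⟨-, a2, a3, -⟩ := GH.st_GPRD n M h P k hh hP
  rw [← (HN.st_NVB n M H h _ hH hh a2 a3 hN).2] at hv
  exact ⟨fun ε hε => (hN ε hε).imp fun _ hp => ⟨hp.sm, W86.gB_zero ▸ hp.kae.pos⟩, hv,
    raw M σ hn hH hN hh hP hv⟩

theorem card_hi {n k : ℕ} (h : k ≤ n) : Nonempty (Fin (n - k) ≃ Hi n k) := by
  refine ⟨(Fintype.equivFinOfCardEq ?_).symm⟩
  rw [Fintype.card_subtype_compl, Fintype.card_fin, Fintype.card_subtype,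
    Fin.card_filter_val_lt, min_eq_right h]

end Pool.Agent.Lib.TQ
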