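import Pool.Agent.Lib.TQ.B_AVT

/-! Project tq: the trace of the sections of the quotient. -/

open scoped Classical Topology ContDiff ComplexOrder Matrix
open Set MeasureTheory Complex Metric Filter

noncomputable section

namespace Pool.Agent.Lib.TQ

open Pool.Agent.Lib.SV (E)
open Pool.Agent.Lib.HS32 Pool.Agent.Lib.HW68
open Pool.Agent.Lib.HS95 (Lo Hi Vk lo jn)

namespace R68

open T68

variable {n k d : ℕ} (σ : Fin d ≃ Hi n k)

theorem jd_lo (z : E n) : jd σ (lo k z) (dn σ z) = z := by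
  ext i
  by_cases h : i.val < k <;> simp [jd, jn, lo, dn, h]

theorem lo_jd (t : Vk n k) (w : E d) : lo k (jd σ t w) = t := HS95.lo_jn k t _

theorem jd_add (t b : Vk n k) (w : E d) :
    jd σ (t + b) w = jd σ b 0 + (pr k : Mat n) *ᵥ jd σ t 0 + (em σ)ᴴ *ᵥ w := by
  rw [jd_eq]
  congr 1
  ext i
  by_cases h : i.val < k <;> simp [jd, jn, pr, Matrix.mulVec_diagonal, h, add_comm]

theorem dn_eq (z : E n) : dn σ z = em σ *ᵥ z := by
  ext a
  simp [dn, em, Matrix.mulVec, dotProduct]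

theorem det_blk (J : Mat d) : ((pr k : Mat n) + (em σ)ᴴ * J * em σ).det = J.det := by
  let ε : Lo n k ⊕ Fin d ≃ Fin n :=
    ((Equiv.refl _).sumCongr σ).trans (Equiv.sumCompl fun i : Fin n => i.val < k)
  have e : ((pr k : Mat n) + (em σ)ᴴ * J * em σ).submatrix ε ε = Matrix.fromBlocks 1 0 0 J := by
    have h1 : ∀ (a : Lo n k) (b : Fin d), (a : Fin n) ≠ σ b := fun a b h => (σ b).2 (h ▸ a.2)
    have h2 : ∀ a b : Fin d, ((σ a : Fin n) = σ b) = (a = b) := fun a b =>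
      propext (Subtype.ext_iff.symm.trans σ.apply_eq_iff_eq)
    ext (i | i) (j | j)
    · simp [ε, pr, em, Matrix.mul_apply, h1, Matrix.diagonal_apply, i.2, Matrix.one_apply,
        Subtype.ext_iff]
    · simp [ε, pr, em, Matrix.mul_apply, h1]
    · simp [ε, pr, em, Matrix.mul_apply, h1, (h1 j i).symm]
    · simp [ε, pr, em, Matrix.mul_apply, h2, Matrix.diagonal_apply, (σ i).2]
  rw [← Matrix.det_submatrix_equiv_self ε, e, Matrix.det_fromBlocks_zero₂₁, Matrix.det_one, one_mul]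

theorem det_tr {φ : E d → E d} {z : E n} {b : Vk n k} {Θ : E n → E n}
    (hφ : DifferentiableAt ℂ φ (dn σ z))
    (e : ∀ᶠ u in 𝓝 z, Θ u = jd σ (lo k u + b) (φ (dn σ u))) :
    (jm Θ z).det = (jm φ (dn σ z)).det := by
  have e1 : Θ =ᶠ[𝓝 z] fun u => jd σ b 0 + (pr k : Mat n) *ᵥ u + (em σ)ᴴ *ᵥ φ (em σ *ᵥ u) :=
    e.mono fun u hu => by
      rw [hu, jd_add, dn_eq]
      congr 2
      ext i
      by_cases h : i.val < k <;> simp [jd, jn, lo, pr, Matrix.mulVec_diagonal, h]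
  rw [dn_eq] at hφ
  have d1 := (LinearMap.toContinuousLinearMap (pr k : Mat n).mulVecLin).hasFDerivAt (x := z)
  have d2 := (LinearMap.toContinuousLinearMap (em σ).mulVecLin).hasFDerivAt (x := z)
  have d3 := ((LinearMap.toContinuousLinearMap (em σ)ᴴ.mulVecLin).hasFDerivAt.comp z
    (hφ.hasFDerivAt.comp z d2))
  have d4 := ((d1.const_add (jd σ b 0)).add d3).congr_of_eventuallyEq e1
  rw [← det_blk σ, dn_eq]
  refine congrArg Matrix.det (Matrix.ext_iff_mulVec.2 fun v => ?_)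
  rw [show jm Θ z = jr Θ z from rfl, jr_mulVec, d4.fderiv, Matrix.add_mulVec,
    ← Matrix.mulVec_mulVec, ← Matrix.mulVec_mulVec,
    show jm φ (em σ *ᵥ z) = jr φ (em σ *ᵥ z) from rfl, jr_mulVec]
  rfl

theorem cont_jd : Continuous fun p : Vk n k × E d => jd σ p.1 p.2 :=
  (HS95.continuous_jn k).comp (continuous_fst.prodMk
    (continuous_pi fun _ => (continuous_apply _).comp continuous_snd))

theorem cont_dn : Continuous (dn σ) := continuous_pi fun _ => continuous_apply _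

theorem cont_lo : Continuous (lo k : E n → Vk n k) :=
  (PiLp.continuous_toLp 2 _).comp (continuous_pi fun _ => continuous_apply _)

theorem dn_open (z : E n) : 𝓝 (dn σ z) ≤ map (dn σ) (𝓝 z) := by
  have c : Tendsto (jd σ (lo k z)) (𝓝 (dn σ z)) (𝓝 z) := by
    have := (jd_der σ (lo k z) (dn σ z)).continuousAt.tendsto
    rwa [jd_lo] at this
  intro s hs
  filter_upwards [c hs] with w hw
  have : dn σ (jd σ (lo k z) w) ∈ s := hw
  rwa [dn_jd] at this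

variable {σ} {g : Gy d} {a : Ga (Vk n k) g}

theorem mv_mul (γ δ : g.Γ) (p : Vk n k × g.Y) : a.mv (γ * δ) p = a.mv γ (a.mv δ p) := by
  simp only [Ga.mv, map_mul, a.bmul, LinearIsometryEquiv.coe_mul, Function.comp, map_add,
    mul_smul, Prod.mk.injEq, and_true]
  abel

theorem mv_cont (γ : g.Γ) : Continuous (a.mv γ) :=
  (((a.A γ).continuous.comp continuous_fst).add continuous_const).prodMk
    ((g.cont γ).comp continuous_snd)

variable {M : Mf n} {h P : M.Fam (Mat n)} {q : Vk n k × g.Y → M.X} {Δ : Subgroup g.Γ} {Z : Mf d}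
  {π : g.Y → Z.X}

/-- The Jacobian determinants of two adapted charts. -/
theorem det_ad (hD : Dv M h P σ a q) (hQ : Qt g Δ Z π) {γ : g.Γ} (hγ : γ ∈ Δ) (hA : a.A γ = 1)
    {c c' : M.Ch} {e e' : Z.Ch} {p : Vk n k × g.Y} (he : e ∈ Z.C) (he' : e' ∈ Z.C)
    (hp : π p.2 ∈ e.source) (hp' : π p.2 ∈ e'.source) (h1 : Ad M h P σ q π c e (a.mv γ p))
    (h2 : Ad M h P σ q π c' e' p) : (M.J c c' (q p)).det = (Z.J e e' (π p.2)).det := by
  have z0 : c' (q p) = jd σ p.1 (e' (π p.2)) := h2.eq.self_of_nhds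
  have z1 : dn σ (c' (q p)) = e' (π p.2) := by rw [z0, dn_jd]
  have hol := ((mTR d Z).2.1 e he e' he' _ hp hp').1.self_of_nhds
  rw [Mf.J, Mf.J, ← z1]
  refine det_tr σ (b := a.b γ) (z1 ▸ hol) ?_
  have o1 : 𝓝 (e' (π p.2)) ≤ map (fun y => e' (π y)) (𝓝 p.2) := by
    rw [← e'.map_nhds_eq hp', ← hQ.loc.map_nhds_eq p.2, map_map]
    exact le_rfl
  have ev : ∀ᶠ p' in 𝓝 p, (c ∘ c'.symm) (jd σ p'.1 (e' (π p'.2))) =
      jd σ (p'.1 + a.b γ) ((e ∘ e'.symm) (e' (π p'.2))) := by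
    filter_upwards [h2.eq, (mv_cont γ).continuousAt.eventually h1.eq,
      hD.cont.continuousAt.eventually (c'.open_source.mem_nhds h2.mem),
      (hQ.loc.continuous.comp continuous_snd).continuousAt.eventually
        (e'.open_source.mem_nhds hp')] with p' a1 a2 a3 a4
    have a5 : π (γ • p'.2) = π p'.2 := ((hQ.fib _ _).2 ⟨γ, hγ, rfl⟩).symm
    rw [hD.inv] at a2
    simp only [Ga.mv, hA, a5, LinearIsometryEquiv.coe_one, id] at a2
    rw [← a1, Function.comp, Function.comp, c'.left_inv a3, e'.left_inv (x := π p'.2) a4, a2]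
  have ev2 : ∀ᶠ r : Vk n k × E d in 𝓝 (p.1, e' (π p.2)), (c ∘ c'.symm) (jd σ r.1 r.2) =
      jd σ (r.1 + a.b γ) ((e ∘ e'.symm) r.2) := by
    rw [nhds_prod_eq] at ev ⊢
    obtain ⟨u, hu, v, hv, huv⟩ := eventually_prod_iff.1 ev
    refine eventually_prod_iff.2 ⟨u, hu, fun w => ∃ y, v y ∧ e' (π y) = w,
      o1 (mem_map.2 (hv.mono fun y hy => ⟨y, hy, rfl⟩)), ?_⟩
    rintro t ht _ ⟨y, hy, rfl⟩
    exact huv ht hy
  have c3 : Tendsto (fun u => (lo k u, dn σ u)) (𝓝 (c' (q p))) (𝓝 (p.1, e' (π p.2))) := by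
    have := ((cont_lo (k := k)).prodMk (cont_dn σ)).tendsto (c' (q p))
    rwa [z1, show lo k (c' (q p)) = p.1 by rw [z0, lo_jd]] at this
  filter_upwards [c3.eventually ev2] with u hu
  rwa [jd_lo] at hu

/-- One branch of the trace. -/
def br (q : Vk n k × g.Y → M.X) (π : g.Y → Z.X) (κ : Vk n k × g.Y → M.Ch) (m : ℕ) (s : Z.Fam ℂ)
    (c : M.Ch) (p : Vk n k × g.Y) : ℂ := Z.ev s (π p.2) * (M.J (κ p) c (q p)).det ^ m

variable {κ : Vk n k × g.Y → M.Ch} {m : ℕ} {s : Z.Fam ℂ}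

theorem br_eq (hD : Dv M h P σ a q) (hQ : Qt g Δ Z π)
    (hκ : ∀ p, Ad M h P σ q π (κ p) (Z.ch (π p.2)) p) (hs : Z.Sec m s) {γ : g.Γ} (hγ : γ ∈ Δ)
    (hA : a.A γ = 1) {c c' : M.Ch} {e' : Z.Ch} {p : Vk n k × g.Y} (hc : c ∈ M.C)
    (hx : q p ∈ c.source) (he' : e' ∈ Z.C) (hp' : π p.2 ∈ e'.source)
    (h2 : Ad M h P σ q π c' e' p) :
    br q π κ m s c (a.mv γ p) = s e' (e' (π p.2)) * (M.J c' c (q p)).det ^ m := by
  have a5 : π (a.mv γ p).2 = π p.2 := ((hQ.fib _ _).2 ⟨γ, hγ, rfl⟩).symm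
  have h1 := hκ (a.mv γ p)
  have h3 := h1.mem
  rw [a5] at h1
  rw [hD.inv] at h3
  rw [br, a5, hD.inv, hs.cmp _ (Mf.ch_mem _) e' he' _ (Mf.mem_ch _) hp',
    ← det_ad hD hQ hγ hA (Mf.ch_mem _) he' (Mf.mem_ch _) hp' h1 h2,
    ((mTR n M).2.1 _ h1.prod.mem c' h2.prod.mem _ h3 h2.mem).2.2.2.2 c hc hx, Matrix.det_mul,
    mul_pow, mul_assoc]
  rfl

theorem br_inv (hD : Dv M h P σ a q) (hQ : Qt g Δ Z π)
    (hκ : ∀ p, Ad M h P σ q π (κ p) (Z.ch (π p.2)) p) (hs : Z.Sec m s) {γ : g.Γ} (hγ : γ ∈ Δ)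
    (hA : a.A γ = 1) {c : M.Ch} {p : Vk n k × g.Y} (hc : c ∈ M.C) (hx : q p ∈ c.source) :
    br q π κ m s c (a.mv γ p) = br q π κ m s c p :=
  br_eq hD hQ hκ hs hγ hA hc hx (Mf.ch_mem _) (Mf.mem_ch _) (hκ p)

theorem sum_inv [Fintype (g.Γ ⧸ Δ)] (hD : Dv M h P σ a q) (hQ : Qt g Δ Z π)
    (hκ : ∀ p, Ad M h P σ q π (κ p) (Z.ch (π p.2)) p) (hs : Z.Sec m s)
    (hA : ∀ γ ∈ Δ, a.A γ = 1) {c : M.Ch} {p p' : Vk n k × g.Y} (hc : c ∈ M.C)
    (hx : q p ∈ c.source) (e : q p = q p') :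
    ∑ i : g.Γ ⧸ Δ, br q π κ m s c (a.mv i.out⁻¹ p') =
      ∑ i : g.Γ ⧸ Δ, br q π κ m s c (a.mv i.out⁻¹ p) := by
  obtain ⟨γ, rfl⟩ := hD.orb p p' e
  rw [← Equiv.sum_comp (MulAction.toPerm γ)]
  refine Finset.sum_congr rfl fun i _ => ?_
  have h1 : (γ • i).out⁻¹ * (γ * i.out) ∈ Δ := QuotientGroup.eq.1 (by
    rw [QuotientGroup.out_eq', ← smul_eq_mul, ← MulAction.Quotient.smul_mk, QuotientGroup.out_eq'])
  rw [← br_inv (p := a.mv i.out⁻¹ p) hD hQ hκ hs h1 (hA _ h1) hc (by rwa [hD.inv]), ← mv_mul,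
    ← mv_mul]
  simp only [MulAction.toPerm_apply, mul_assoc, mul_inv_cancel, mul_one]

end R68

open R68 T68 in
theorem st_TRC : St_TRC := by
  intro n M h P k d σ g a q Δ Z π hD hQ hΔ hA had
  let _ : Fintype (g.Γ ⧸ Δ) := Fintype.ofFinite _
  choose κ hκ using fun p : Vk n k × g.Y => had _ (Mf.ch_mem (π p.2)) p (Mf.mem_ch _)
  have sec : ∀ x, ∃ r : M.X → Vk n k × g.Y, ContinuousAt r x ∧ ∀ᶠ x' in 𝓝 x, q (r x') = x' :=
    fun x => by
      obtain ⟨e, -, hx, B, v, j, h1, h2⟩ := hD.sec x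
      exact ⟨_, ((B.continuous.comp cont_lo).continuousAt.comp (e.continuousAt hx)).add
        continuousAt_const |>.prodMk (((g.c j).continuousAt_symm h1).comp
          (f := fun x => dn σ (e x)) ((cont_dn σ).continuousAt.comp (e.continuousAt hx))), h2⟩
  choose r r1 r2 using sec
  have r0 : ∀ x, q (r x x) = x := fun x => (r2 x).self_of_nhds
  let S : ℕ → Z.Fam ℂ → M.Fam ℂ := fun m s c z =>
    ∑ i : g.Γ ⧸ Δ, br q π κ m s c (a.mv i.out⁻¹ (r (c.symm z) (c.symm z)))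
  have loc : ∀ c ∈ M.C, ∀ z₀ ∈ c.target, ∃ (e : g.Γ ⧸ Δ → Z.Ch) (c' : g.Γ ⧸ Δ → M.Ch),
      (∀ i, e i ∈ Z.C ∧ c' i ∈ M.C) ∧ ∀ᶠ z in 𝓝 z₀, z ∈ c.target ∧
        (∀ i, c.symm z ∈ (c' i).source ∧ dn σ ((c' i ∘ c.symm) z) ∈ (e i).target) ∧
        ∀ m s, Z.Sec m s → S m s c z =
          ∑ i, s (e i) (dn σ ((c' i ∘ c.symm) z)) * (jm (c' i ∘ c.symm) z).det ^ m := by
    intro c hc z₀ hz
    let p : g.Γ ⧸ Δ → M.X → Vk n k × g.Y := fun i x => a.mv i.out⁻¹ (r (c.symm z₀) x)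
    have pc : ∀ i, ContinuousAt (p i) (c.symm z₀) := fun i => (mv_cont _).continuousAt.comp (r1 _)
    refine ⟨fun i => Z.ch (π (p i (c.symm z₀)).2), fun i => κ (p i (c.symm z₀)),
      fun i => ⟨Mf.ch_mem _, (hκ _).prod.mem⟩, ?_⟩
    have ev : ∀ i, ∀ᶠ x in 𝓝 (c.symm z₀), π (p i x).2 ∈ (Z.ch (π (p i (c.symm z₀)).2)).source ∧
        Ad M h P σ q π (κ (p i (c.symm z₀))) (Z.ch (π (p i (c.symm z₀)).2)) (p i x) := fun i => by
      filter_upwards [(pc i).eventually (hκ _).eq.eventually_nhds,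
        (hD.cont.continuousAt.comp (pc i)).eventually
          ((κ (p i (c.symm z₀))).open_source.mem_nhds (hκ _).mem),
        ((hQ.loc.continuous.comp continuous_snd).continuousAt.comp (pc i)).eventually
          ((Z.ch (π (p i (c.symm z₀)).2)).open_source.mem_nhds (Mf.mem_ch _))] with x a1 a2 a3
      exact ⟨a3, (hκ _).prod, a2, a1⟩
    filter_upwards [c.open_target.mem_nhds hz, (c.continuousAt_symm hz).eventually
      ((eventually_all.2 ev).and (r2 (c.symm z₀)))] with z h1 ⟨h2, h3⟩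
    have qp : ∀ i, q (p i (c.symm z)) = c.symm z := fun i => (hD.inv _ _).trans h3
    have dd : ∀ i, dn σ ((κ (p i (c.symm z₀)) ∘ c.symm) z) =
        Z.ch (π (p i (c.symm z₀)).2) (π (p i (c.symm z)).2) := fun i => by
      have := (h2 i).2.eq.self_of_nhds
      rw [qp] at this
      rw [Function.comp, this, dn_jd]
    refine ⟨h1, fun i => ⟨qp i ▸ (h2 i).2.mem, dd i ▸ OpenPartialHomeomorph.map_source _ (h2 i).1⟩,
      fun m s hs => ?_⟩
    refine (sum_inv hD hQ hκ hs hA hc (h3.symm ▸ c.map_target h1) (h3.trans (r0 _).symm)).trans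
      (Finset.sum_congr rfl fun i _ => ?_)
    have := br_eq hD hQ hκ hs Δ.one_mem (map_one _) hc ((qp i).symm ▸ c.map_target h1)
      (Mf.ch_mem _) (h2 i).1 (h2 i).2
    rw [← mv_mul, one_mul, qp, Mf.J, c.right_inv h1] at this
    rw [dd]
    exact this
  have hol : ∀ c ∈ M.C, ∀ c' ∈ M.C, ∀ z ∈ c.target, c.symm z ∈ c'.source →
      HolN (c' ∘ c.symm) z ∧ (jm (c' ∘ c.symm) z).det ≠ 0 := fun c hc c' hc' z hz hz' => by
    obtain ⟨h1, h2, -⟩ := (mTR n M).2.1 c' hc' c hc _ hz' (c.map_target hz)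
    rw [Mf.J] at h2
    rw [c.right_inv hz] at h1 h2
    exact ⟨h1, h2⟩
  have hS : ∀ m s, Z.HSec m s → M.HSec m (S m s) := fun m s hs => by
    have d1 : M.All fun c z => DifferentiableAt ℂ (S m s c) z := fun c hc z hz => by
      obtain ⟨e, c', h1, h2⟩ := loc c hc z hz
      obtain ⟨-, h3, -⟩ := h2.self_of_nhds
      refine (DifferentiableAt.fun_sum fun i _ => ?_).congr_of_eventuallyEq
        (h2.mono fun u hu => hu.2.2 m s hs.toSec)
      have h4 := (hol c hc _ (h1 i).2 z hz (h3 i).1).1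
      exact ((hs.hol _ (h1 i).1 _ (h3 i).2).comp z (differentiableAt_pi.2 fun b =>
        differentiableAt_pi.1 h4.self_of_nhds _)).fun_mul
        ((mCHN n _ _ h4).2.2.2.2.1.self_of_nhds.fun_pow m)
    refine ⟨⟨fun c hc z hz => hol_cd (d1.ev hc hz), fun c hc c' hc' x hx hx' => ?_⟩, d1⟩
    simp only [S, c.left_inv hx, c'.left_inv hx', Finset.sum_mul, br, hD.inv, r0]
    refine Finset.sum_congr rfl fun i _ => ?_
    have h1 := (hκ (a.mv i.out⁻¹ (r x x))).mem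
    rw [hD.inv, r0] at h1
    rw [((mTR n M).2.1 _ (hκ _).prod.mem c hc x h1 hx).2.2.2.2 c' hc' hx', Matrix.det_mul, mul_pow,
      mul_assoc]
  let x₀ := q (0, Classical.arbitrary g.Y)
  obtain ⟨e, c', h1, h2⟩ := loc _ (Mf.ch_mem x₀) _ (Mf.ch_tgt x₀)
  obtain ⟨U, hU, ho, hz⟩ := _root_.eventually_nhds_iff.1 h2
  have hh := fun i z (hz : z ∈ U) =>
    hol _ (Mf.ch_mem x₀) _ (h1 i).2 z (hU z hz).1 ((hU z hz).2.1 i).1
  refine ⟨g.Γ ⧸ Δ, inferInstance, ⟨(1 : g.Γ)⟩, M.ch x₀, U, e,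
    fun i z => dn σ ((c' i ∘ (M.ch x₀).symm) z), fun i z => (jm (c' i ∘ (M.ch x₀).symm) z).det,
    Mf.ch_mem x₀, ho, ⟨_, hz⟩, fun z hz => (hU z hz).1, fun i => (h1 i).1,
    fun i z hz => ((hU z hz).2.1 i).2, fun i z hz => ?_, fun i z hz => ?_,
    fun i z hz => (hh i z hz).2, fun i z hz => ?_,
    fun m s hs => ⟨_, hS m s hs, fun z hz => (hU z hz).2.2 m s hs.toSec⟩⟩
  · exact ((cont_dn σ).continuousAt.comp (hh i z hz).1.self_of_nhds.continuousAt).continuousWithinAt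
  · exact (mCHN n _ _ (hh i z hz).1).2.2.2.2.1.self_of_nhds.continuousAt.continuousWithinAt
  · refine (dn_open σ _).trans ?_
    rw [Function.comp, ← (c' i).map_nhds_eq ((hU z hz).2.1 i).1,
      ← (M.ch x₀).symm.map_nhds_eq (hU z hz).1, map_map, map_map]
    exact le_rfl

end Pool.Agent.Lib.TQ
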