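import Pool.Agent.Lib.TQ.Blue

/-! Row `TUB`: tubes over the charts of the quotient. -/

open scoped Classical Topology ContDiff ComplexOrder Matrix
open Set MeasureTheory Complex Metric Filter

noncomputable section

namespace Pool.Agent.Lib.TQ

open Pool.Agent.Lib.SV (E)
open Pool.Agent.Lib.HS32
open Pool.Agent.Lib.HS95 (Lo Hi Vk lo jn)

namespace T50

variable {n k d : ℕ} (σ : Fin d ≃ Hi n k)

theorem dn_jd (t : Vk n k) (w : E d) : dn σ (jd σ t w) = w := by
  funext a
  simp only [dn, jd, jn, dif_neg (σ a).2, Subtype.coe_eta, Equiv.symm_apply_apply]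

theorem lo_jd (t : Vk n k) (w : E d) : lo k (jd σ t w) = t := HS95.lo_jn k _ _

theorem jd_lo_dn (z : E n) : jd σ (lo k z) (dn σ z) = z := by
  simp only [jd, dn, Equiv.apply_symm_apply]
  exact HS95.jn_lo_up k z

theorem cont_dn : Continuous (dn σ) := continuous_pi fun _ => continuous_apply _

/-- Charts with a continuous section. -/
def Se {Y : Type} [TopologicalSpace Y] {Z : Mf d} (π : Y → Z.X) (e : Z.Ch) (s : Z.X → Y) : Prop :=
  ContinuousOn s e.source ∧ ∀ x ∈ e.source, π (s x) = x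

theorem cover {Y : Type} [TopologicalSpace Y] {Z : Mf d} {π : Y → Z.X} (h : IsLocalHomeomorph π)
    (y : Y) : ∃ e ∈ Z.C, π y ∈ e.source ∧ ∃ s, Se π e s := by
  obtain ⟨p, hy, rfl⟩ := h y
  obtain ⟨e, he, hx⟩ := Z.cov (p y)
  have hW : IsOpen (e.target ∩ e.symm ⁻¹' p.target) :=
    e.symm.isOpen_inter_preimage p.open_target
  have hs : (e.trans (OpenPartialHomeomorph.ofSet _ hW)).source ⊆ p.target := fun x hx' => by
    have : e.symm (e x) ∈ p.target := hx'.2.2
    rwa [e.left_inv hx'.1] at this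
  refine ⟨e.trans (OpenPartialHomeomorph.ofSet _ hW),
    Z.sat e he _ differentiableOn_id differentiableOn_id, ⟨hx, e.map_source hx, ?_⟩, p.symm,
    p.symm.continuousOn.mono hs, fun x hx' => p.right_inv (hs hx')⟩
  change e.symm (e (p y)) ∈ p.target
  rw [e.left_inv hx]
  exact p.map_source hy

end T50

open T50 in
theorem st_TUB : St_TUB := by
  intro n M h P k d σ g a q Δ Z π hD hQ hA ad
  let S : Set Z.Ch := {e | e ∈ Z.C ∧ ∃ s, Se π e s}
  have : ∀ e : Z.Ch, ∃ s : Z.X → g.Y, e ∈ S → Se π e s := fun e => by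
    by_cases he : e ∈ S
    · exact he.2.imp fun s hs _ => hs
    · exact ⟨fun x => (hQ.sur x).choose, fun h => (he h).elim⟩
  choose s hs using this
  have mv : ∀ γ, a.A γ = 1 → ∀ t y, q (t + a.b γ, γ • y) = q (t, y) := fun γ hγ t y => by
    have := hD.inv γ (t, y)
    rwa [Ga.mv, hγ] at this
  have cv : ∀ x, ∃ e ∈ S, x ∈ e.source := fun x => by
    obtain ⟨y, rfl⟩ := hQ.sur x
    obtain ⟨e, he, h1, h2⟩ := cover hQ.loc y
    exact ⟨e, ⟨he, h2⟩, h1⟩
  refine ⟨⟨S, ⟨fun e he => he.1, cv⟩, fun e z => q (lo k z, s e (e.symm (dn σ z))),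
    fun e he z hz => ?_, ?_, fun e he e' he' x hx hx' => ?_, fun x => ?_⟩⟩
  · have hx := e.map_target hz
    obtain ⟨c, hc⟩ := ad e he.1 (lo k z, s e (e.symm (dn σ z))) (by rwa [(hs e he).2 _ hx])
    have hc1 : ContinuousAt (fun z => (lo k z, s e (e.symm (dn σ z)))) z :=
      (HS95.continuous_lo k).continuousAt.prodMk
        (ContinuousAt.comp (f := fun z => e.symm (dn σ z))
          ((hs e he).1.continuousAt (e.open_source.mem_nhds hx))
          (ContinuousAt.comp (f := dn σ) (e.continuousAt_symm hz) (cont_dn σ).continuousAt))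
    refine ⟨c, hc.prod, hc.prod.mem, ?_⟩
    filter_upwards [hc1.eventually hc.eq, (hD.cont.continuousAt.comp hc1).eventually
      (c.open_source.mem_nhds hc.mem),
      (cont_dn σ).continuousAt.eventually (e.open_target.mem_nhds hz)] with z' h1 h2 h3
    refine ⟨h2, ?_⟩
    rw [h1, (hs e he).2 _ (e.map_target h3), e.right_inv h3, jd_lo_dn]
  · obtain ⟨R, hR⟩ := a.lat
    refine ⟨R, fun v => ?_⟩
    obtain ⟨γ, h1, h2, h3⟩ := hR v
    refine ⟨a.b γ, h3, fun e _ t w => ?_⟩
    simp only [lo_jd, dn_jd]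
    rw [← mv γ h1 t, h2]
  · obtain ⟨γ, hγ, h1⟩ := (hQ.fib (s e' x) (s e x)).1
      (((hs e' he').2 x hx').trans ((hs e he).2 x hx).symm)
    obtain ⟨p, hp, hπ⟩ := hQ.loc (s e x)
    refine ⟨a.b γ, ?_⟩
    have c1 := (hs e he).1.continuousAt (e.open_source.mem_nhds hx)
    have c2 : ContinuousAt (fun x => γ • s e' x) x := (g.cont γ).continuousAt.comp
      ((hs e' he').1.continuousAt (e'.open_source.mem_nhds hx'))
    filter_upwards [c1.eventually (p.open_source.mem_nhds hp),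
      c2.eventually (p.open_source.mem_nhds (by rwa [h1] at hp)), e.open_source.mem_nhds hx,
      e'.open_source.mem_nhds hx'] with x' b1 b2 b3 b4 t
    have b5 : γ • s e' x' = s e x' := p.injOn b2 b1 (by
      rw [← hπ, ← (hQ.fib _ _).2 ⟨γ, hγ, rfl⟩, (hs e he).2 _ b3, (hs e' he').2 _ b4])
    simp only [lo_jd, dn_jd, e.left_inv b3, e'.left_inv b4]
    rw [← b5, mv γ (hA γ hγ)]
  · obtain ⟨_, _, _, B, v, j, _, h1⟩ := hD.sec x
    have h2 := h1.self_of_nhds
    generalize B _ + v = t at h2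
    generalize (g.c j).symm _ = y at h2
    obtain ⟨e, he, hy⟩ := cv (π y)
    obtain ⟨γ, hγ, h3⟩ := (hQ.fib y (s e (π y))).1 ((hs e he).2 _ hy).symm
    refine ⟨e, he, jd σ (t + a.b γ) (e (π y)), by rw [dn_jd]; exact e.map_source hy, ?_⟩
    simp only [lo_jd, dn_jd, e.left_inv hy]
    rw [h3, mv γ (hA γ hγ), h2]

end Pool.Agent.Lib.TQ
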