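import Pool.Agent.Lib.TQ.B_ADP
import Pool.Agent.Lib.TQ.B_AVF
import Pool.Agent.Lib.TQ.B_AVP
import Pool.Agent.Lib.TQ.B_AVT
import Pool.Agent.Lib.TQ.B_CNT2
import Pool.Agent.Lib.TQ.B_DED
import Pool.Agent.Lib.TQ.B_DN
import Pool.Agent.Lib.TQ.B_FG
import Pool.Agent.Lib.TQ.B_FIN
import Pool.Agent.Lib.TQ.B_GRP
import Pool.Agent.Lib.TQ.B_IDT
import Pool.Agent.Lib.TQ.B_MAX
import Pool.Agent.Lib.TQ.B_MEA
import Pool.Agent.Lib.TQ.B_NFZ
import Pool.Agent.Lib.TQ.B_PAR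
import Pool.Agent.Lib.TQ.B_QUO
import Pool.Agent.Lib.TQ.B_RAW
import Pool.Agent.Lib.TQ.B_TRC
import Pool.Agent.Lib.TQ.B_TUB
import Pool.Agent.Lib.HW.All

/-! Project tq: assembly of the tail, given the positivity of the volume of the quotient. -/

namespace Pool.Agent.Lib.TQ

open Pool.Agent.Lib.HS32

theorem st_BIG : St_BIG := fun _ Z _ _ hd hH hs hv =>
  HW27.big_of HW.morse HW27.st_WBA Z hd hH hs hv

theorem tail2_cv (hVZ : St_VZ) : St_TAIL2 :=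
  tail2_of HS.asAUBIN (st_GRP st_FG st_FIN) st_QUO st_ADP st_TUB st_MEA (st_AVT st_PAR)
    (st_AVP st_PAR) st_DN (st_NFZ (st_AVT st_PAR) (st_AVF st_PAR) (st_AVP st_PAR)) hVZ st_TRC
    (st_CNT2 st_DED st_IDT) st_BIG st_IDT

theorem tail_cv (hVZ : St_VZ) : HN.St_TAIL := by
  intro n M _ H h P k hn hH _ hN hh hP hv
  obtain ⟨σ⟩ := card_hi hP.le
  obtain ⟨a, b, c⟩ := raw' M σ hn hH hN hh hP hv
  exact tail2_cv hVZ n M H h P k _ σ hH hh hP a b c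

end Pool.Agent.Lib.TQ
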