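import Pool.Agent.Lib.TQ.Blue

/-! Project tq: comparison of the potentials. -/

open scoped Classical Topology ContDiff ComplexOrder Matrix
open Set MeasureTheory Complex Metric Filter

noncomputable section

namespace Pool.Agent.Lib.TQ

open Pool.Agent.Lib.SV (E)
open Pool.Agent.Lib.HS32
open Pool.Agent.Lib.HS95 (Lo Hi Vk lo jn)

namespace T21

variable {n k d : ℕ} (σ : Fin d ≃ Hi n k)

/-- The projection as a linear map. -/
def dnL : E n →L[ℝ] E d := ContinuousLinearMap.pi fun a => ContinuousLinearMap.proj (σ a).1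

theorem dnL_apply (z : E n) : dnL σ z = dn σ z := rfl

theorem fd_dn {f : E d → ℂ} {w : E n} (hf : DifferentiableAt ℝ f (dn σ w)) (j : Fin n) (c : ℂ) :
    fderiv ℝ (fun z => f (dn σ z)) w (Pi.single j c) =
      ∑ a, em σ a j * fderiv ℝ f (dn σ w) (Pi.single a c) := by
  have e : fderiv ℝ (fun z => f (dn σ z)) w = (fderiv ℝ f (dn σ w)).comp (dnL σ) :=
    (hf.hasFDerivAt.comp w (dnL σ).hasFDerivAt).fderiv
  have s : dn σ (Pi.single j c) = ∑ a, Pi.single a (em σ a j * c) := by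
    ext b
    simp only [dn, em, Matrix.of_apply, Finset.sum_apply, Pi.single_apply, Finset.sum_ite_eq,
      Finset.mem_univ, if_true, eq_comm (a := j), ite_mul, one_mul, zero_mul]
  rw [e, ContinuousLinearMap.comp_apply, dnL_apply, s, map_sum]
  refine Finset.sum_congr rfl fun a _ => ?_
  simp only [em, Matrix.of_apply]
  split_ifs <;> simp

theorem dz_dn {f : E d → ℂ} {w : E n} (hf : DifferentiableAt ℝ f (dn σ w)) (j : Fin n) :
    dz j (fun z => f (dn σ z)) w = ∑ a, em σ a j * dz a f (dn σ w) := by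
  simp only [dz, fd_dn σ hf, Finset.mul_sum, ← Finset.sum_sub_distrib, Finset.sum_div]
  exact Finset.sum_congr rfl fun a _ => by ring

theorem dzb_dn {f : E d → ℂ} {w : E n} (hf : DifferentiableAt ℝ f (dn σ w)) (j : Fin n) :
    dzb j (fun z => f (dn σ z)) w = ∑ a, em σ a j * dzb a f (dn σ w) := by
  simp only [dzb, fd_dn σ hf, Finset.mul_sum, ← Finset.sum_add_distrib, Finset.sum_div]
  exact Finset.sum_congr rfl fun a _ => by ring

theorem cd_dn {F : Type} [NormedAddCommGroup F] [NormedSpace ℝ F] {f : E d → F} {z : E n}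
    (hf : ContDiffAt ℝ ∞ f (dn σ z)) : ContDiffAt ℝ ∞ (fun w => f (dn σ w)) z :=
  hf.comp z (dnL σ).contDiff.contDiffAt

theorem star_em (a : Fin d) (i : Fin n) : star (em σ a i) = em σ a i := by
  simp only [em, Matrix.of_apply]
  split_ifs <;> simp

theorem eb_apply (T : Mat d) (i j : Fin n) :
    eb σ T i j = ∑ a, em σ a j * ∑ b, em σ b i * T b a := by
  simp only [eb, Matrix.mul_apply, Matrix.conjTranspose_apply, star_em]
  exact Finset.sum_congr rfl fun a _ => mul_comm _ _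

theorem hess_dn {f : E d → ℂ} {z : E n} (hf : ContDiffAt ℝ ∞ f (dn σ z)) :
    hess (fun w => f (dn σ w)) z = eb σ (hess f (dn σ z)) := by
  ext i j
  have ev : ∀ᶠ w in 𝓝 z, DifferentiableAt ℝ f (dn σ w) :=
    (dnL σ).continuous.continuousAt.eventually (cd_ev_diff hf)
  have s : ∀ a, DifferentiableAt ℝ (fun w => dz a f (dn σ w)) z := fun a =>
    cd_diff (cd_dn σ (cd_dz hf a))
  change dzb i (dz j fun w => f (dn σ w)) z = _
  rw [dzb_congr (ev.mono fun w hw => dz_dn σ hw j),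
    dzb_sum (f := fun a w => em σ a j * dz a f (dn σ w)) fun a _ => (s a).const_mul _, eb_apply]
  refine Finset.sum_congr rfl fun a _ => ?_
  rw [dzb_const_mul _ (s a), dzb_dn σ (cd_diff (cd_dz hf a))]
  rfl

theorem em_lo (a : Fin d) {j : Fin n} (hj : j.val < k) : em σ a j = 0 :=
  if_neg fun h : j = (σ a).1 => (σ a).2 (h ▸ hj)

theorem em_hi (a : Fin d) (j : Hi n k) : em σ a j.1 = if a = σ.symm j then 1 else 0 := by
  simp only [em, Matrix.of_apply, Subtype.val_inj, Equiv.eq_symm_apply, eq_comm (a := j)]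

theorem det_blk (hk : k ≤ n) (c : ℝ) (T : Mat d) :
    (c • pr k + eb σ T : Mat n).det = (c : ℂ) ^ k * T.det := by
  rw [Matrix.twoBlockTriangular_det _ (fun i : Fin n => i.val < k)]
  · congr 1
    · have e : Matrix.toSquareBlockProp (c • pr k + eb σ T : Mat n) (fun i => i.val < k) =
          (c : ℂ) • 1 := by
        ext i j
        simp only [Matrix.toSquareBlockProp_def, Matrix.of_apply, Matrix.add_apply, eb_apply,
          em_lo σ _ j.2, zero_mul, Finset.sum_const_zero, add_zero, Matrix.smul_apply, pr,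
          Matrix.diagonal_apply, Subtype.val_inj, Matrix.one_apply, i.2, if_true, real_smul,
          smul_eq_mul]
      rw [e, Matrix.det_smul, Matrix.det_one, mul_one, Fintype.card_subtype,
        Fin.card_filter_val_lt, min_eq_right hk]
    · rw [← Matrix.det_submatrix_equiv_self σ.symm T]
      congr 1
      ext i j
      simp only [Matrix.toSquareBlockProp_def, Matrix.of_apply, Matrix.add_apply, eb_apply,
        em_hi, ite_mul, one_mul, zero_mul, Finset.sum_ite_eq', Finset.mem_univ, if_true,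
        Matrix.smul_apply, pr, Matrix.diagonal_apply, i.2, if_false, ite_self, smul_zero, zero_add,
        Matrix.submatrix_apply]
  · intro i hi j hj
    have : i ≠ j := fun h => hi (h ▸ hj)
    simp only [Matrix.add_apply, eb_apply, em_lo σ _ hj, zero_mul, Finset.sum_const_zero, add_zero,
      Matrix.smul_apply, pr, Matrix.diagonal_apply, if_neg this, smul_zero]

theorem mx_blk {f : E n → ℝ} {g : E d → ℝ} {z : E n} (hf : ContDiffAt ℝ ∞ f z)
    (hg : ContDiffAt ℝ ∞ g (dn σ z)) (mx : IsLocalMax (fun w => f w - g (dn σ w)) z) :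
    (eb σ (hess (fun w => (g w : ℂ)) (dn σ z)) - hess (fun w => (f w : ℂ)) z).PosSemidef := by
  have p := (mMAXE n _ z (hf.sub (cd_dn σ hg)) mx).1
  simp only [ofReal_sub] at p
  rwa [hess_sub (cd_ofReal hf) (cd_ofReal (cd_dn σ hg)), neg_sub,
    hess_dn σ (f := fun w => (g w : ℂ)) (cd_ofReal hg)] at p

variable {M : Mf n}

theorem iv_symm {Q : E n → M.X} {z : E n} {c : M.Ch} (H : Iv M Q z c) :
    ∀ᶠ w in 𝓝 z, w ∈ c.target ∧ c.symm w = Q w :=
  H.eq.mono fun w hw => ⟨hw.2 ▸ c.map_source hw.1, by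
    conv_lhs => rw [← hw.2]
    exact c.left_inv hw.1⟩

theorem pl_eq {h P : M.Fam (Mat n)} {σ : Fin d ≃ Hi n k} {Z : Mf d} (t : Tb M h P σ Z)
    {T : M.Fam (Mat n)} (hT : M.Ten T) {e : Z.Ch} {z : E n} {c : M.Ch} (H : Iv M (t.Q e) z c) :
    t.pl T e z = T c z := by
  have ex : ∃ c, Iv M (t.Q e) z c := ⟨c, H⟩
  have H' := ex.choose_spec
  rw [Tb.pl, dif_pos ex]
  have a : T ex.choose (ex.choose (t.Q e z)) = (M.J c ex.choose (t.Q e z))ᴴ * T c (c (t.Q e z)) *
      M.J c ex.choose (t.Q e z) :=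
    hT.cmp c H.mem _ H'.mem _ H.eq.self_of_nhds.1 H'.eq.self_of_nhds.1
  have j : M.J c ex.choose (t.Q e z) = 1 := by
    rw [Mf.J, H'.eq.self_of_nhds.2, ← BTR.jm_id z]
    refine BTR.jm_congr ?_
    filter_upwards [iv_symm H', H.eq] with w h1 h2
    rw [Function.comp_apply, h1.2, h2.2]
  rwa [j, H'.eq.self_of_nhds.2, H.eq.self_of_nhds.2, Matrix.conjTranspose_one, Matrix.one_mul,
    Matrix.mul_one] at a

end T21

open T21 in
theorem st_CMP (hM : St_MAX) : St_CMP := by
  intro n M H h P k d σ Z _ t H' h' C C' ε u u' hk hH hh hP hH' hh' hD hC hε l1 l2 s1 s2 x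
  have r1 := (mHES n M).2.2.2.2.2.2.2.2.2 H h hH hh
  have r2 := (mHES d Z).2.2.2.2.2.2.2.2.2 H' h' hH' hh'
  have sa : M.Sm fun x => u x + Real.log (M.dq h H x) := fun e he z hz =>
    (s1.sm e he z hz).add (r1.1 e he z hz)
  have sb : Z.Sm fun x => u' x + Real.log (Z.dq h' H' x) := fun e he z hz =>
    (s2.sm e he z hz).add (r2.1 e he z hz)
  obtain ⟨e, he, z, hz, hm⟩ := hM n M h P k d σ Z t _ _ (((mTR n M).2.2.2.1 ℝ _).1 sa)
    (((mTR d Z).2.2.2.1 ℝ _).1 sb)
  obtain ⟨e', he', z', hz', rfl⟩ := t.sur x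
  refine ⟨e'.symm (dn σ z'), ?_⟩
  have h0 := hm e' he' z' hz'
  obtain ⟨c, -, hc⟩ := t.loc e he z hz
  have hz0 := (iv_symm hc).self_of_nhds
  have eC := t.sub.sub he
  obtain ⟨d1, d2, d3⟩ := hD e he z hz
  rw [pl_eq t hh.toTen hc] at d1
  rw [pl_eq t (T := h * P) ((mINV n M h hh).2.2.2.2.2.1 P hP) hc] at d2
  rw [pl_eq t ((mHES n M).2.2.2.2.2.2.2.2.1 h hh).toTen hc] at d3
  have ca := sa c hc.mem z hz0.1
  have cb := sb e eC _ hz
  have mx : IsLocalMax (fun w => (u (c.symm w) + Real.log (M.dq h H (c.symm w))) -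
      (u' (e.symm (dn σ w)) + Real.log (Z.dq h' H' (e.symm (dn σ w))))) z := by
    filter_upwards [iv_symm hc, (dnL σ).continuous.continuousAt.eventually
      (e.open_target.eventually_mem hz)] with w h1 h2
    rw [h1.2, hz0.2]
    exact hm e he w h2
  have p3 := mx_blk σ ca cb mx
  have e1 := ((mLAP n M _ _ s1.sm r1.1).1 0 c hc.mem z hz0.1).2.1
  have e2 := ((mLAP d Z _ _ s2.sm r2.1).1 0 e eC _ hz).2.1
  replace p3 : (eb σ (Z.hs u' e (dn σ z) + Z.hs (fun x => Real.log (Z.dq h' H' x)) e (dn σ z)) -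
      (M.hs u c z + M.hs (fun x => Real.log (M.dq h H x)) c z)).PosSemidef := by
    rw [← e1, ← e2]
    exact p3
  have p1 := (l1 c hc.mem z hz0.1).smul hε.le
  have p2 := ((l2 e eC _ hz).smul (mul_pos hC hε).le).conjTranspose_mul_mul_same (em σ)
  have key : ((1 + C * ε) • pr k + eb σ (Z.gE H' (C * C' * ε) u' e (dn σ z)) -
      M.gB H (h * P) ε u c z).PosSemidef := by
    refine (congrArg Matrix.PosSemidef ?_).mp ((p1.add p2).add p3)
    simp only [Mf.gE, Mf.gB, Pi.add_apply, Pi.sub_apply, Pi.smul_apply, r1.2 c hc.mem z hz0.1,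
      r2.2 e eC _ hz, d1, d2, d3, eb, Matrix.mul_add, Matrix.mul_sub, Matrix.add_mul,
      Matrix.sub_mul, Matrix.mul_smul, Matrix.smul_mul]
    module
  have m1 := HS76.det_mono (s1.kae.pos c hc.mem z hz0.1) key
  have q1 := ((mINV n M H hH).2.1 _ s1.kae.toForm c hc.mem z hz0.1).2.2
  have q2 := ((mINV n M h hh).2.1 _ hH.toForm c hc.mem z hz0.1).2.2
  have q3 := ((mINV d Z H' hH').2.1 _ s2.kae.toForm e eC _ hz).2.2
  have q4 := ((mINV d Z h' hh').2.1 _ hH'.toForm e eC _ hz).2.2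
  have q5 : (h c z).det = (h' e (dn σ z)).det := by
    have := det_blk σ hk 1 (h' e (dn σ z))
    rwa [one_smul, ← d1, ofReal_one, one_pow, one_mul] at this
  have a1 := ((mINV n M h hh).2.2.2.2.2.2.2 H hH).1 (c.symm z)
  have a2 := ((mINV d Z h' hh').2.2.2.2.2.2.2 H' hH').1 (e.symm (dn σ z))
  have a3 : 0 < (h' e (dn σ z)).det.re := HS76.det_re_pos (hh'.pos e eC _ hz)
  have a4 : 0 < 1 + C * ε := by positivity
  rw [det_blk σ hk, ← ofReal_pow, re_ofReal_mul, q1, q2, q3, q4, s1.det, s2.det, q5, ← mul_assoc,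
    ← mul_assoc, ← mul_assoc] at m1
  have m2 := Real.log_le_log (by positivity) (le_of_mul_le_mul_right m1 a3)
  rw [Real.log_mul (Real.exp_pos _).ne' a1.ne', Real.log_mul (by positivity) a2.ne',
    Real.log_mul (by positivity) (Real.exp_pos _).ne', Real.log_exp, Real.log_exp, Real.log_pow,
    hz0.2] at m2
  linarith

end Pool.Agent.Lib.TQ
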