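import Pool.Agent.Lib.TQ.Blue
import Pool.Agent.Lib.GH.B_GPRD

/-! Project tq: the volume of the quotient is positive. -/

open scoped Topology ComplexOrder Matrix
open Set MeasureTheory Filter

noncomputable section

namespace Pool.Agent.Lib.TQ

open Pool.Agent.Lib.HS32 Pool.Agent.Lib.HS32.Mf

theorem st_VZ (hA : HS.St_AUBIN) (hC : St_CMP) : St_VZ := by
  intro n M _ H h P k d σ Z _ t H' h' hd hH hh hf hN hv hH' hh' hD hN'
  have hn : 0 < n := (σ ⟨0, hd⟩).1.pos
  obtain ⟨C, C0, hle, -⟩ := (mBD n M h hh).1 H hH.toForm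
  obtain ⟨C', C0', hle', -⟩ := (mBD d Z H' hH'.toMet).1 h' hh'.toForm
  obtain ⟨-, hB, hB0, -⟩ := GH.st_GPRD n M h P k hh hf
  obtain ⟨-, hfin, -, hV, hi, -⟩ := mMU n M H hH.toMet
  obtain ⟨D, D0, hD'⟩ := W86.phi hH'
  obtain ⟨c, c0, hc⟩ := isCompact_univ.exists_forall_le' (a := 0)
    ((mINV n M h hh).1 H hH.toTen).2.2.2.1.continuous.continuousOn
    fun x _ => ((mINV n M h hh).2.2.2.2.2.2.2 H hH.toMet).1 x
  obtain ⟨c', hc'⟩ := (isCompact_range
    ((mINV d Z h' hh').1 H' hH'.toTen).2.2.2.1.continuous).bddAbove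
  have p' := ((mINV d Z h' hh').2.2.2.2.2.2.2 H' hH'.toMet).1
  have hcont : Continuous (M.vB H (h * P)) := K88.vol_cont hH.toMet (K88.clo_tw hH hB).toForm
  have e1 : ∀ᶠ ε in 𝓝[>] (0 : ℝ), M.vB H (h * P) 0 / 2 < M.vB H (h * P) ε :=
    ((hcont.tendsto 0).eventually (lt_mem_nhds (half_lt_self hv))).filter_mono nhdsWithin_le_nhds
  have e2 : ∀ᶠ ε in 𝓝[>] (0 : ℝ), C * C' * ε < 1 :=
    (((continuous_const.mul continuous_id).tendsto' 0 0 (by simp)).eventually
      (gt_mem_nhds one_pos)).filter_mono nhdsWithin_le_nhds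
  have e3 : ∀ᶠ ε in 𝓝[>] (0 : ℝ), M.vB H (h * P) 0 / 2 / (M.mu H).real univ * c ≤
      D * Z.vol H' (C * C' * ε) * c' * (1 + C * ε) ^ k := by
    filter_upwards [e1, e2, self_mem_nhdsWithin] with ε a1 a2 (a3 : 0 < ε)
    have a4 : 0 < C * C' * ε := by positivity
    obtain ⟨w, w1, w2⟩ := hN ε a3
    obtain ⟨u, u1, u2, u3⟩ := RB.solve hA hn hH.toMet (T := ε • H + h * P) w1
      ⟨(((hH.toClo.smul ε).add hB).sub ((mHES n M).2.2.2.2.2.2.2.2.1 H hH.toMet)).add
        ((mHES n M).1 _ w1), fun e he z hz => by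
          have b1 := (w2 e he z hz).add_posSemidef (hB0 e he z hz)
          have b2 : (ε • H + h * P - M.ric H + M.hs w) e z =
              M.gE H ε w e z + ((h * P) e z - (0 : M.Fam (Mat n)) e z) := by
            simp only [gE, Pi.add_apply, Pi.sub_apply, Pi.zero_apply]
            abel
          rwa [← b2] at b1⟩
    have hu : M.SolB H (h * P) ε u := ⟨u1, u2, u3⟩
    obtain ⟨u', hu'⟩ := hN'.sol hA hd hH' _ a4
    obtain ⟨a, b1, -, b2⟩ := hD' _ ⟨a4, a2.le⟩ u' hu'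
    obtain ⟨x, hx⟩ : ∃ x, M.vB H (h * P) 0 / 2 / (M.mu H).real univ ≤ Real.exp (u x) := by
      by_contra hx
      push Not at hx
      have b3 := integral_mono (μ := M.mu H) (hi ℝ _ (Real.continuous_exp.comp u1.continuous))
        (integrable_const _) fun x => (hx x).le
      rw [integral_const, smul_eq_mul, mul_div_cancel₀ _ hV.ne'] at b3
      exact absurd ((K88.mass hH hB hu).symm.trans_le b3) (not_le.2 a1)
    obtain ⟨y, hy⟩ := hC n M H h P k d σ Z t H' h' C C' ε u u' hf.le hH.toMet hh hf.en hH'.toMet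
      hh' hD C0 a3 hle hle' hu hu' x
    have b4 := Real.exp_le_exp.2 hy
    have b5 : 0 < 1 + C * ε := by positivity
    rw [Real.exp_add, Real.exp_add, Real.exp_add, Real.exp_log (c0.trans_le (hc x trivial)),
      Real.exp_log (p' y), Real.exp_nat_mul, Real.exp_log b5] at b4
    have b6 := (Real.exp_le_exp.2 (b1 y)).trans b2
    calc _ ≤ Real.exp (u x) * M.dq h H x :=
          mul_le_mul hx (hc x trivial) c0.le (Real.exp_pos _).le
      _ ≤ _ := b4
      _ ≤ _ := mul_le_mul_of_nonneg_right (mul_le_mul b6 (hc' ⟨y, rfl⟩) (p' y).le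
          ((Real.exp_pos _).le.trans b6)) (pow_pos b5 k).le
  have e4 : Continuous fun ε : ℝ => D * Z.vol H' (C * C' * ε) * c' * (1 + C * ε) ^ k := by
    have := W86.vol_cont hH'
    fun_prop
  have e5 := ge_of_tendsto ((e4.tendsto 0).mono_left nhdsWithin_le_nhds) e3
  simp only [mul_zero, add_zero, one_pow, mul_one] at e5
  have e6 : 0 < D * Z.vol H' 0 * c' := lt_of_lt_of_le (by positivity) e5
  obtain ⟨y⟩ : Nonempty Z.X := inferInstance
  exact (mul_pos_iff_of_pos_left D0).1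
    ((mul_pos_iff_of_pos_right ((p' y).trans_le (hc' ⟨y, rfl⟩))).1 e6)

end Pool.Agent.Lib.TQ
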