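import Pool.Agent.Lib.TQ.Blue
import Pool.Agent.Lib.HS32.MAll

/-! Adapted product charts. -/

open scoped Classical Topology ContDiff ComplexOrder Matrix
open Set MeasureTheory Complex Metric Filter

noncomputable section

namespace Pool.Agent.Lib.TQ

open Pool.Agent.Lib.SV (E)
open Pool.Agent.Lib.HS32
open Pool.Agent.Lib.HS95 (Lo Hi Vk lo jn)

namespace T76

variable {n k d : ℕ} (σ : Fin d ≃ Hi n k)

/-- The splitting of the coordinates. -/
def spL : E n ≃ₗ[ℂ] Vk n k × E d where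
  toFun z := (lo k z, dn σ z)
  invFun p := jd σ p.1 p.2
  map_add' _ _ := rfl
  map_smul' _ _ := rfl
  left_inv z := by ext i; by_cases h : i.val < k <;> simp [jd, jn, lo, dn, h]
  right_inv p := Prod.ext (HS95.lo_jn k _ _) (by ext a; simp [dn, jd, jn, (σ a).2])

/-- The same, with continuity. -/
def sp : E n ≃L[ℂ] Vk n k × E d := (spL σ).toContinuousLinearEquiv

/-- The product of an affine isometry and of a local map. -/
def pm (U : Vk n k ≃ₗᵢ[ℂ] Vk n k) (u : Vk n k) (ψ : OpenPartialHomeomorph (E d) (E d)) :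
    OpenPartialHomeomorph (E n) (E n) :=
  ((sp σ).toHomeomorph.transOpenPartialHomeomorph
    ((U.toHomeomorph.trans (Homeomorph.addRight u)).toOpenPartialHomeomorph.prod ψ)).transHomeomorph
    (sp σ).symm.toHomeomorph

theorem der (U : Vk n k ≃ₗᵢ[ℂ] Vk n k) (u u' : Vk n k) {φ : E d → E d} {z : E n}
    (hφ : DifferentiableAt ℂ φ (dn σ z)) :
    HasFDerivAt (fun w => jd σ (U (lo k w + u') + u) (φ (dn σ w)))
      ((sp σ).symm.toContinuousLinearMap ∘L ((U.toContinuousLinearEquiv.toContinuousLinearMap).prodMap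
        (fderiv ℂ φ (dn σ z))) ∘L (sp σ).toContinuousLinearMap) z := by
  have h1 : HasFDerivAt (fun t : Vk n k => U (t + u') + u)
      U.toContinuousLinearEquiv.toContinuousLinearMap (sp σ z).1 := by
    simp only [map_add]
    exact (U.toContinuousLinearEquiv.hasFDerivAt.add_const _).add_const _
  exact (sp σ).symm.hasFDerivAt.comp z ((HasFDerivAt.prodMap (sp σ z) h1 hφ.hasFDerivAt).comp z
    (sp σ).hasFDerivAt)

theorem pr_vec (a : E n) : (pr k : Mat n) *ᵥ a = jd σ (lo k a) 0 := by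
  ext i; by_cases h : i.val < k <;> simp [pr, Matrix.mulVec_diagonal, jd, jn, lo, h]

theorem pr_inner (a b : E n) : star a ⬝ᵥ (pr k : Mat n) *ᵥ b = inner ℂ (lo k a) (lo k b) := by
  rw [PiLp.inner_apply, dotProduct,
    ← Fintype.sum_subtype_add_sum_subtype (fun i : Fin n => i.val < k)]
  rw [Finset.sum_eq_zero (s := Finset.univ) (f := fun i : Hi n k => star a i.1 * (pr k *ᵥ b) i.1)
    fun i _ => by simp [pr, Matrix.mulVec_diagonal, i.2], add_zero]
  exact Finset.sum_congr rfl fun i _ => by simp [pr, Matrix.mulVec_diagonal, i.2, lo, mul_comm]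

theorem alg {J : Mat n} (U : Vk n k ≃ₗᵢ[ℂ] Vk n k) (D : E d →L[ℂ] E d)
    (hJ : ∀ a, J *ᵥ a = jd σ (U (lo k a)) (D (dn σ a))) :
    J * pr k = pr k * J ∧ Jᴴ * pr k * J = pr k := by
  have l1 : ∀ t w, lo k (jd σ t w) = t := fun t w => HS95.lo_jn k _ _
  have l2 : ∀ t w, dn σ (jd σ t w) = w := fun t w =>
    congrArg Prod.snd ((spL σ).apply_symm_apply (t, w))
  refine ⟨Matrix.ext_iff_mulVec.2 fun a => ?_, Matrix.ext fun i j => ?_⟩
  · rw [← Matrix.mulVec_mulVec, ← Matrix.mulVec_mulVec, pr_vec σ, pr_vec σ, hJ, hJ, l1, l1, l2,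
      map_zero]
  · have e : ∀ A : Mat n, A i j = star (Pi.single i 1 : E n) ⬝ᵥ A *ᵥ Pi.single j 1 := fun A => by
      simp
    rw [e (_ * _), e (pr k), ← Matrix.mulVec_mulVec, ← Matrix.mulVec_mulVec,
      Matrix.dotProduct_mulVec, ← Matrix.star_mulVec, pr_inner, pr_inner, hJ, hJ, l1, l1,
      U.inner_map_map]

variable {M : Mf n} {h P : M.Fam (Mat n)}

theorem prod_of (hM : M.Met h) (hF : M.Fl1 h P k) {c : M.Ch} (hc : c ∈ M.C)
    (h1 : ∀ z ∈ c.target, P c z = pr k) (h2 : ∀ z ∈ c.target, h c z * pr k = pr k) :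
    M.Prod h P k c := by
  refine ⟨hc, h1, h2, fun z hz i hi => ?_⟩
  have b1 : ∀ j, gam (h c) j z * pr k = 0 := fun j => by
    have : dM j (fun w => h c w * pr k) z = dM j (fun _ => pr k) z :=
      dM_congr ((c.open_target.eventually_mem hz).mono h2)
    rw [dM_mul (hM.sm c hc z hz) (smM_const _)] at this
    rw [gam, Matrix.mul_assoc, show dM j (h c) z * pr k = 0 by simpa using this, Matrix.mul_zero]
  have b2 : gam (h c) i z = 0 := by
    ext l j
    have := congrFun (hF.t2 c hc z hz (Pi.single i 1) (Pi.single j 1)) l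
    simp only [h1 z hz, tors, asy, Matrix.mulVec_mulVec, Matrix.sum_mul, Matrix.smul_mul, b1] at this
    simpa [pr, Pi.single_apply, Matrix.sum_apply, Matrix.diagonal_apply, hi] using this
  rw [← Matrix.mul_nonsing_inv_cancel_left _ (dM i (h c) z) (hM.det_ne c hc z hz).isUnit, ← gam, b2,
    Matrix.mul_zero]

theorem prod_pm (hM : M.Met h) (hF : M.Fl1 h P k) {c : M.Ch} (hc : M.Prod h P k c)
    (U : Vk n k ≃ₗᵢ[ℂ] Vk n k) (u : Vk n k) {ψ : OpenPartialHomeomorph (E d) (E d)} (hψ : Bih ψ) :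
    M.Prod h P k (c.trans (pm σ U u ψ)) := by
  have e1 : ⇑(pm σ U u ψ) = fun w => jd σ (U (lo k w + 0) + u) (ψ (dn σ w)) := by
    funext w; rw [add_zero]; rfl
  have e2 : ⇑(pm σ U u ψ).symm = fun w => jd σ (U.symm (lo k w + -u) + 0) (ψ.symm (dn σ w)) := by
    funext w; rw [add_zero]; rfl
  have d2 := fun w (hw : w ∈ (pm σ U u ψ).target) => der σ U.symm 0 (-u)
    (hψ.2.differentiableAt (ψ.open_target.mem_nhds hw.2))
  have a1 : DifferentiableOn ℂ (pm σ U u ψ) (pm σ U u ψ).source := fun w hw => by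
    rw [e1]
    exact (der σ U u 0 (hψ.1.differentiableAt
      (ψ.open_source.mem_nhds hw.2))).differentiableAt.differentiableWithinAt
  have a2 : DifferentiableOn ℂ (pm σ U u ψ).symm (pm σ U u ψ).target := fun w hw => by
    rw [e2]
    exact (d2 w hw).differentiableAt.differentiableWithinAt
  have hm := M.sat c hc.mem _ a1 a2
  set c' := c.trans (pm σ U u ψ)
  have key : ∀ x ∈ c'.source, M.J c c' x * pr k = pr k * M.J c c' x ∧
      (M.J c c' x)ᴴ * pr k * M.J c c' x = pr k := fun x hx => by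
    have hw : pm σ U u ψ (c x) ∈ _ := (pm σ U u ψ).map_source hx.2
    rw [((mTR n M).2.2.2.2.2 c hc.mem _ a1 a2 x hx).2]
    refine alg σ U.symm (fderiv ℂ ψ.symm (dn σ (pm σ U u ψ (c x)))) fun a => ?_
    rw [← BCHN.fderiv_mulVec, e2, (d2 _ hw).fderiv]
    rfl
  refine prod_of hM hF hm (Mf.allOn_of_source (S := {c'}) (p := fun e z => P e z = pr k) ?_ c' rfl)
    (Mf.allOn_of_source (S := {c'}) (p := fun e z => h e z * pr k = pr k) ?_ c' rfl)
  · rintro _ rfl x hx
    have b := hF.en.cmp c hc.mem c' hm x hx.1 hx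
    beta_reduce at b
    rw [hc.prj _ (c.map_source hx.1), ← (key x hx).1] at b
    exact ((Matrix.isUnit_iff_isUnit_det _).2
      ((mTR n M).2.1 c hc.mem c' hm x hx.1 hx).2.1.isUnit).mul_left_cancel b
  · rintro _ rfl x hx
    rw [hM.cmp c hc.mem c' hm x hx.1 hx, Matrix.mul_assoc, (key x hx).1, ← Matrix.mul_assoc,
      Matrix.mul_assoc _ _ (pr k), hc.blk _ (c.map_source hx.1), (key x hx).2]

/-- A group element read in two charts. -/
def tr (g : Gy d) (γ : g.Γ) (j j' : g.J) : OpenPartialHomeomorph (E d) (E d) :=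
  (g.c j).symm.trans ((⟨MulAction.toPerm γ, g.cont γ, g.cont γ⁻¹⟩ : g.Y ≃ₜ g.Y).transOpenPartialHomeomorph
    (g.c j'))

theorem bih_tr (g : Gy d) (γ : g.Γ) (j j' : g.J) : Bih (tr g γ j j') := by
  refine ⟨fun w hw => ?_, fun w hw => ?_⟩
  · have := g.hol γ j j' _ ((g.c j).map_target hw.1) hw.2
    rw [(g.c j).right_inv hw.1] at this
    exact this.differentiableWithinAt
  · have := g.hol γ⁻¹ j' j _ ((g.c j').map_target hw.1) hw.2
    rw [(g.c j').right_inv hw.1] at this
    exact this.differentiableWithinAt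

theorem bih_trans {φ ψ : OpenPartialHomeomorph (E d) (E d)} (h1 : Bih φ) (h2 : Bih ψ) :
    Bih (φ.trans ψ) :=
  ⟨h2.1.comp (h1.1.mono inter_subset_left) fun _ hw => hw.2,
    h1.2.comp (h2.2.mono inter_subset_left) fun _ hw => hw.2⟩

end T76

open T76 in
theorem st_ADP : St_ADP := by
  intro n M h P k d σ g a q Δ Z π hM hF hD hQ e he p hp
  obtain ⟨c, hc, hx, B, v, j, hj, hs⟩ := hD.sec (q p)
  obtain ⟨γ, hγ⟩ := hD.orb p _ hs.self_of_nhds.symm
  obtain ⟨O, hO, hI⟩ := hD.linj (a.mv γ p)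
  obtain ⟨j', ψ, hψ, y1, y2, y3⟩ := hQ.lift e he p.2 hp
  have c1 : ContinuousAt (fun x => sp σ (c x)) (q p) :=
    (sp σ).continuous.continuousAt.comp (c.continuousAt hx)
  have c2 : ContinuousAt (fun x => (B (lo k (c x)) + v, (g.c j).symm (dn σ (c x)))) (q p) :=
    ((B.continuous.continuousAt.comp c1.fst).add continuousAt_const).prodMk
      (ContinuousAt.comp (f := fun x => (sp σ (c x)).2) ((g.c j).continuousAt_symm hj) c1.snd)
  have c3 : Continuous (a.mv γ) :=
    (((a.A γ).continuous.comp continuous_fst).add continuous_const).prodMk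
      ((g.cont γ).comp continuous_snd)
  have b : ∀ᶠ p' in 𝓝 p, (B.trans (a.A γ).symm) (lo k (c (q p'))) + (a.A γ).symm (v - a.b γ) = p'.1 ∧
      γ⁻¹ • (g.c j).symm (dn σ (c (q p'))) = p'.2 := by
    filter_upwards [c3.continuousAt.preimage_mem_nhds hO, hD.cont.continuousAt.eventually hs,
      hD.cont.continuousAt.eventually (c2.eventually_mem (hγ ▸ hO))] with p' o1 o2 o3
    have := hI o3 o1 (o2.trans (hD.inv γ p').symm)
    obtain ⟨t1, t2⟩ := Prod.mk.inj this
    refine ⟨?_, by rw [t2, inv_smul_smul]⟩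
    rw [LinearIsometryEquiv.trans_apply, ← map_add, add_sub, t1, add_sub_cancel_right,
      LinearIsometryEquiv.symm_apply_apply]
  have b0 := b.self_of_nhds.2
  refine ⟨_, prod_pm σ hM hF hc (B.trans (a.A γ).symm) ((a.A γ).symm (v - a.b γ))
    (bih_trans (bih_tr g γ⁻¹ j j') hψ), ⟨hx, trivial, ⟨hj, ?_⟩, ?_⟩, ?_⟩
  · exact mem_of_eq_of_mem (s := (g.c j').source) b0 y1
  · exact mem_of_eq_of_mem (s := ψ.source) (congrArg (g.c j') b0) y2
  · filter_upwards [b, continuous_snd.continuousAt.eventually y3] with p' t1 t2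
    rw [t2, ← t1.1, ← t1.2]
    rfl

end Pool.Agent.Lib.TQ
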