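import Pool.Agent.Lib.TQ.All0
import Pool.Agent.Lib.TQ.B_CMP
import Pool.Agent.Lib.TQ.B_VZ

/-! Project tq: the tail without hypotheses. -/

namespace Pool.Agent.Lib.HN

theorem st_TAIL : St_TAIL := TQ.tail_cv (TQ.st_VZ HS.asAUBIN (TQ.st_CMP TQ.st_MAX))

end Pool.Agent.Lib.HN
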