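import Pool.Agent.Lib.TQ.Blue

/-! Project tq, row PAR: derivatives of the mean. -/

open scoped Classical Topology ContDiff ComplexOrder Matrix
open Set MeasureTheory Complex Metric Filter

noncomputable section

namespace Pool.Agent.Lib.TQ

open Pool.Agent.Lib.SV (E)
open Pool.Agent.Lib.HS32
open Pool.Agent.Lib.HS95 (Lo Hi Vk lo jn)

namespace T48

section gen

variable {V W X : Type} [TopologicalSpace V] [MeasurableSpace V] [OpensMeasurableSpace V]
  [SecondCountableTopology V] [NormedAddCommGroup W] [NormedSpace ℝ W] [ProperSpace W]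
  [NormedAddCommGroup X] [NormedSpace ℝ X] {A : V → X} {L : W →L[ℝ] X} {μ : Measure V}
  [IsFiniteMeasure μ] {K : Set V} {U : Set W}

omit [ProperSpace W] [MeasurableSpace V] [OpensMeasurableSpace V] [SecondCountableTopology V] in
theorem cont_v {B : Type} [TopologicalSpace B] {G : X → B} (hA : Continuous A) {w : W}
    (hG : ∀ v, ContinuousAt G (A v + L w)) : Continuous fun v => G (A v + L w) :=
  continuous_iff_continuousAt.2 fun v =>
    ContinuousAt.comp (f := fun v => A v + L w) (hG v) (hA.add continuous_const).continuousAt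

omit [MeasurableSpace V] [OpensMeasurableSpace V] [SecondCountableTopology V] in
theorem bnd {B : Type} [NormedAddCommGroup B] {G : X → B} (hA : Continuous A) (hK : IsCompact K)
    (hU : IsOpen U) (hG : ∀ v, ∀ w ∈ U, ContinuousAt G (A v + L w)) {w : W} (hw : w ∈ U) :
    ∃ r > 0, ∃ C : ℝ, ball w r ⊆ U ∧ ∀ v ∈ K, ∀ x ∈ ball w r, ‖G (A v + L x)‖ ≤ C := by
  obtain ⟨r, hr, hb⟩ := nhds_basis_closedBall.mem_iff.1 (hU.mem_nhds hw)
  have hc : ContinuousOn (fun p : V × W => G (A p.1 + L p.2)) (K ×ˢ closedBall w r) := by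
    intro p hp
    refine ContinuousAt.continuousWithinAt ?_
    exact ContinuousAt.comp (f := fun p : V × W => A p.1 + L p.2) (hG p.1 p.2 (hb hp.2))
      ((hA.comp continuous_fst).add (L.continuous.comp continuous_snd)).continuousAt
  obtain ⟨C, hC⟩ := (hK.prod (isCompact_closedBall w r)).exists_bound_of_continuousOn hc
  exact ⟨r, hr, C, ball_subset_closedBall.trans hb, fun v hv x hx =>
    hC (v, x) ⟨hv, ball_subset_closedBall hx⟩⟩

theorem intg {B : Type} [NormedAddCommGroup B] {G : X → B} (hA : Continuous A) (hK : IsCompact K)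
    (hμ : μ Kᶜ = 0) (hU : IsOpen U) (hG : ∀ v, ∀ w ∈ U, ContinuousAt G (A v + L w)) {w : W}
    (hw : w ∈ U) : Integrable (fun v => G (A v + L w)) μ := by
  obtain ⟨r, hr, C, -, hC⟩ := bnd hA hK hU hG hw
  refine Integrable.of_bound (cont_v hA fun v => hG v w hw).aestronglyMeasurable C ?_
  have h1 : ∀ᵐ v ∂μ, v ∈ K := hμ
  filter_upwards [h1] with v hv
  exact hC v hv w (mem_ball_self hr)

theorem cont_w {B : Type} [NormedAddCommGroup B] [NormedSpace ℝ B] {G : X → B}
    (hA : Continuous A) (hK : IsCompact K) (hμ : μ Kᶜ = 0) (hU : IsOpen U)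
    (hG : ∀ v, ∀ w ∈ U, ContinuousAt G (A v + L w)) {w : W} (hw : w ∈ U) :
    ContinuousAt (fun x => ∫ v, G (A v + L x) ∂μ) w := by
  obtain ⟨r, hr, C, hb, hC⟩ := bnd hA hK hU hG hw
  have h1 : ∀ᵐ v ∂μ, v ∈ K := hμ
  refine continuousAt_of_dominated (bound := fun _ => C) ?_ ?_ (integrable_const C) ?_
  · filter_upwards [hU.mem_nhds hw] with x hx
    exact (cont_v hA fun v => hG v x hx).aestronglyMeasurable
  · filter_upwards [ball_mem_nhds w hr] with x hx
    filter_upwards [h1] with v hv
    exact hC v hv x hx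
  · refine Eventually.of_forall fun v => ?_
    exact ContinuousAt.comp (f := fun x : W => A v + L x) (hG v w hw)
      (continuous_const.add L.continuous).continuousAt

omit [ProperSpace W] in
theorem sm_d {B : Type} [NormedAddCommGroup B] [NormedSpace ℝ B] {G : X → B} {z : X}
    (h : ContDiffAt ℝ ∞ G z) : ContDiffAt ℝ ∞ (fun y => (fderiv ℝ G y).comp L) z :=
  (h.fderiv_right (m := ∞) le_rfl).clm_comp contDiffAt_const

theorem der {B : Type} [NormedAddCommGroup B] [NormedSpace ℝ B] {G : X → B}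
    (hA : Continuous A) (hK : IsCompact K) (hμ : μ Kᶜ = 0) (hU : IsOpen U)
    (hG : ∀ v, ∀ w ∈ U, ContDiffAt ℝ ∞ G (A v + L w)) {w : W} (hw : w ∈ U) :
    HasFDerivAt (fun x => ∫ v, G (A v + L x) ∂μ)
      (∫ v, (fderiv ℝ G (A v + L w)).comp L ∂μ) w := by
  have hG' : ∀ v, ∀ x ∈ U, ContinuousAt (fun y => (fderiv ℝ G y).comp L) (A v + L x) :=
    fun v x hx => (sm_d (hG v x hx)).continuousAt
  obtain ⟨r, hr, C, hb, hC⟩ := bnd hA hK hU hG' hw
  have h1 : ∀ᵐ v ∂μ, v ∈ K := hμ
  refine hasFDerivAt_integral_of_dominated_of_fderiv_le (s := ball w r) (bound := fun _ => C)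
    (F' := fun x v => (fderiv ℝ G (A v + L x)).comp L) (ball_mem_nhds w hr) ?_ ?_ ?_ ?_
    (integrable_const C) ?_
  · filter_upwards [hU.mem_nhds hw] with x hx
    exact (cont_v hA fun v => (hG v x hx).continuousAt).aestronglyMeasurable
  · exact intg hA hK hμ hU (fun v x hx => (hG v x hx).continuousAt) hw
  · exact (cont_v (G := fun y => (fderiv ℝ G y).comp L) hA fun v =>
      hG' v w hw).aestronglyMeasurable
  · filter_upwards [h1] with v hv x hx
    exact hC v hv x hx
  · refine Eventually.of_forall fun v x hx => ?_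
    exact ((hG v x (hb hx)).differentiableAt (by simp)).hasFDerivAt.comp x
      (L.hasFDerivAt.const_add (A v))

theorem smooth (hA : Continuous A) (hK : IsCompact K) (hμ : μ Kᶜ = 0) (hU : IsOpen U) (m : ℕ) :
    ∀ (B : Type) [NormedAddCommGroup B] [NormedSpace ℝ B] (G : X → B),
      (∀ v, ∀ w ∈ U, ContDiffAt ℝ ∞ G (A v + L w)) →
        ContDiffOn ℝ m (fun x => ∫ v, G (A v + L x) ∂μ) U := by
  induction m with
  | zero =>
    intro B _ _ G hG
    rw [Nat.cast_zero, contDiffOn_zero]
    exact fun w hw =>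
      (cont_w hA hK hμ hU (fun v x hx => (hG v x hx).continuousAt) hw).continuousWithinAt
  | succ m ih =>
    intro B _ _ G hG
    rw [Nat.cast_succ, contDiffOn_succ_iff_fderiv_of_isOpen hU]
    refine ⟨fun w hw => (der hA hK hμ hU hG hw).differentiableAt.differentiableWithinAt,
      fun h => absurd h (by simp), ?_⟩
    refine (ih _ (fun y => (fderiv ℝ G y).comp L) fun v w hw => sm_d (hG v w hw)).congr ?_
    intro w hw
    exact (der hA hK hμ hU hG hw).fderiv

end gen

variable {n k d : ℕ} (σ : Fin d ≃ Hi n k)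

/-- The inclusion of the last coordinates. -/
def Lj : E d →L[ℝ] E n :=
  ContinuousLinearMap.pi fun i =>
    if h : i.val < k then 0 else ContinuousLinearMap.proj (σ.symm ⟨i, h⟩)

theorem jd_eq (v : Vk n k) (w : E d) : jd σ v w = jd σ v 0 + Lj σ w := by
  funext i
  by_cases h : i.val < k <;> simp [jd, jn, Lj, h]

theorem jd_cont : Continuous fun v : Vk n k => jd σ v 0 := by
  refine continuous_pi fun i => ?_
  by_cases h : i.val < k
  · simp only [jd, jn, h, dif_pos]
    fun_prop
  · simp only [jd, jn, h, dif_neg, not_false_eq_true]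
    exact continuous_const

theorem dn_jd' (v : Vk n k) (w : E d) : dn σ (jd σ v w) = w := by
  funext a
  simp [dn, jd, jn, (σ a).2]

theorem Lj_single (a : Fin d) (c : ℂ) : Lj σ (Pi.single a c) = Pi.single (σ a).1 c := by
  funext i
  by_cases h : i.val < k
  · have : i ≠ (σ a).1 := fun e => (σ a).2 (e ▸ h)
    simp [Lj, h, this]
  · by_cases h2 : i = (σ a).1
    · subst h2
      simp [Lj, h]
    · have : σ.symm ⟨i, h⟩ ≠ a := fun e => h2 (by rw [← e]; simp)
      simp [Lj, h, h2, this]

end T48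

theorem st_PAR : St_PAR := by
  intro n k d σ μ _ K U G hK hμ hU hG w hw
  have hG' : ∀ v, ∀ x ∈ U, ContDiffAt ℝ ∞ G (jd σ v 0 + T48.Lj σ x) := fun v x hx =>
    hG _ (by rw [← T48.jd_eq, T48.dn_jd']; exact hx)
  have hA := T48.jd_cont σ
  have hav : ∀ F : E n → ℂ, av σ μ F = fun x => ∫ v, F (jd σ v 0 + T48.Lj σ x) ∂μ := by
    intro F
    funext x
    simp only [av, ← T48.jd_eq]
  refine ⟨?_, ?_, fun a => ?_⟩
  · have := T48.intg hA hK hμ hU (fun v x hx => (hG' v x hx).continuousAt) hw
    simpa only [← T48.jd_eq] using this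
  · rw [hav, contDiffAt_infty]
    exact fun m => (T48.smooth hA hK hμ hU m ℂ G hG').contDiffAt (hU.mem_nhds hw)
  · have hI := T48.intg (G := fun y => (fderiv ℝ G y).comp (T48.Lj σ)) hA hK hμ hU
      (fun v x hx => (T48.sm_d (hG' v x hx)).continuousAt) hw
    have hd : ∀ c : ℂ, fderiv ℝ (av σ μ G) w (Pi.single a c) =
        ∫ v, fderiv ℝ G (jd σ v 0 + T48.Lj σ w) (Pi.single (σ a).1 c) ∂μ := by
      intro c
      rw [hav, (T48.der hA hK hμ hU hG' hw).fderiv, ContinuousLinearMap.integral_apply hI]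
      simp only [ContinuousLinearMap.comp_apply, T48.Lj_single]
    have hi : ∀ c : ℂ, Integrable
        (fun v => fderiv ℝ G (jd σ v 0 + T48.Lj σ w) (Pi.single (σ a).1 c)) μ := by
      intro c
      have := hI.apply_continuousLinearMap (Pi.single a c)
      simpa only [ContinuousLinearMap.comp_apply, T48.Lj_single] using this
    constructor
    · rw [hav (dz _ G)]
      simp only [dz, hd]
      rw [integral_div, integral_sub (hi 1) ((hi I).const_mul I), integral_const_mul]
    · rw [hav (dzb _ G)]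
      simp only [dzb, hd]
      rw [integral_div, integral_add (hi 1) ((hi I).const_mul I), integral_const_mul]

end Pool.Agent.Lib.TQ
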