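import Pool.Agent.Lib.TQ.Defs
import Pool.Agent.Lib.HW.Br

/-! Project tq: blueprint. -/

open scoped Classical Topology ContDiff ComplexOrder Matrix
open Set MeasureTheory Complex Metric Filter

noncomputable section

namespace Pool.Agent.Lib.TQ

open Pool.Agent.Lib.SV (E)
open Pool.Agent.Lib.HS32
open Pool.Agent.Lib.HS95 (Lo Hi Vk lo jn)

/-! ### Groups -/

/-- A group that acts properly and cocompactly on a connected space is finitely generated. -/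
def St_FG : Prop := ∀ (G Y : Type) [Group G] [TopologicalSpace Y] [ConnectedSpace Y]
  [LocallyCompactSpace Y] [MulAction G Y], (∀ γ : G, Continuous fun y : Y => γ • y) →
  (∀ K : Set Y, IsCompact K → {γ : G | ∃ y ∈ K, γ • y ∈ K}.Finite) →
  (∃ K : Set Y, IsCompact K ∧ ∀ y : Y, ∃ γ : G, γ • y ∈ K) → Group.FG G

/-- The linear parts form a finite group. -/
def St_FIN : Prop := ∀ (V : Type) [NormedAddCommGroup V] [InnerProductSpace ℂ V]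
  [FiniteDimensional ℂ V] (d : ℕ) (g : Gy d) (a : Ga V g), a.A.ker.FiniteIndex

/-- A subgroup of finite index that acts freely. -/
def St_GRP : Prop := ∀ (V : Type) [NormedAddCommGroup V] [InnerProductSpace ℂ V]
  [FiniteDimensional ℂ V] (d : ℕ) (g : Gy d) (a : Ga V g),
  ∃ Δ : Subgroup g.Γ, Δ.FiniteIndex ∧ (∀ γ ∈ Δ, a.A γ = 1) ∧ Fr g Δ

/-- The quotient manifold. -/
def St_QUO : Prop := ∀ (d : ℕ) (g : Gy d) (Δ : Subgroup g.Γ), Fr g Δ →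
  ∃ (Z : Mf d) (_ : Z.Cpt) (π : g.Y → Z.X), Qt g Δ Z π

/-! ### Charts -/

/-- Adapted charts. -/
def St_ADP : Prop := ∀ (n : ℕ) (M : Mf n) (h P : M.Fam (Mat n)) (k d : ℕ) (σ : Fin d ≃ Hi n k)
  (g : Gy d) (a : Ga (Vk n k) g) (q : Vk n k × g.Y → M.X) (Δ : Subgroup g.Γ) (Z : Mf d)
  (π : g.Y → Z.X), M.Met h → M.Fl1 h P k → Dv M h P σ a q → Qt g Δ Z π →
  ∀ e ∈ Z.C, ∀ p : Vk n k × g.Y, π p.2 ∈ e.source → ∃ c, Ad M h P σ q π c e p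

/-- Tubes. -/
def St_TUB : Prop := ∀ (n : ℕ) (M : Mf n) (h P : M.Fam (Mat n)) (k d : ℕ) (σ : Fin d ≃ Hi n k)
  (g : Gy d) (a : Ga (Vk n k) g) (q : Vk n k × g.Y → M.X) (Δ : Subgroup g.Γ) (Z : Mf d)
  (π : g.Y → Z.X), Dv M h P σ a q → Qt g Δ Z π → (∀ γ ∈ Δ, a.A γ = 1) →
  (∀ e ∈ Z.C, ∀ p : Vk n k × g.Y, π p.2 ∈ e.source → ∃ c, Ad M h P σ q π c e p) →
  Nonempty (Tb M h P σ Z)

/-! ### Means -/

/-- The invariant mean of periodic functions. -/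
def St_MEA : Prop := ∀ (V : Type) [NormedAddCommGroup V] [NormedSpace ℝ V] [FiniteDimensional ℝ V]
  [MeasurableSpace V] [BorelSpace V] (L : Set V), (∃ R : ℝ, ∀ v, ∃ l ∈ L, ‖l - v‖ ≤ R) →
  ∃ μ : Measure V, IsProbabilityMeasure μ ∧ (∃ K, IsCompact K ∧ μ Kᶜ = 0) ∧
    ∀ F : V → ℂ, Continuous F → (∀ l ∈ L, ∀ v, F (v + l) = F v) →
      ∀ b, ∫ v, F (v + b) ∂μ = ∫ v, F v ∂μ

/-- Derivatives of the mean. -/
def St_PAR : Prop := ∀ (n k d : ℕ) (σ : Fin d ≃ Hi n k) (μ : Measure (Vk n k)) [IsFiniteMeasure μ]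
  (K : Set (Vk n k)) (U : Set (E d)) (G : E n → ℂ), IsCompact K → μ Kᶜ = 0 → IsOpen U →
  (∀ z, dn σ z ∈ U → ContDiffAt ℝ ∞ G z) → ∀ w ∈ U,
    Integrable (fun v => G (jd σ v w)) μ ∧ ContDiffAt ℝ ∞ (av σ μ G) w ∧ ∀ a,
      dz a (av σ μ G) w = av σ μ (dz (σ a).1 G) w ∧ dzb a (av σ μ G) w = av σ μ (dzb (σ a).1 G) w

/-- The mean of a tensor. -/
def St_AVT : Prop := ∀ (n : ℕ) (M : Mf n) (h P : M.Fam (Mat n)) (k d : ℕ) (σ : Fin d ≃ Hi n k)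
  (Z : Mf d) (t : Tb M h P σ Z) (μ : Measure (Vk n k)) (T : M.Fam (Mat n)), t.Mu μ → M.Ten T →
  ∃ T', Z.Ten T' ∧ t.AvT μ T T'

/-- The mean of a function. -/
def St_AVF : Prop := ∀ (n : ℕ) (M : Mf n) (h P : M.Fam (Mat n)) (k d : ℕ) (σ : Fin d ≃ Hi n k)
  (Z : Mf d) (t : Tb M h P σ Z) (μ : Measure (Vk n k)) (u : M.X → ℝ), t.Mu μ → M.Sm u →
  ∃ u', Z.Sm u' ∧ t.AvF μ u u' ∧ t.AvT μ (M.hs u) (Z.hs u')

/-- The mean is linear and preserves positive and closed forms. -/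
def St_AVP : Prop := ∀ (n : ℕ) (M : Mf n) (h P : M.Fam (Mat n)) (k d : ℕ) (σ : Fin d ≃ Hi n k)
  (Z : Mf d) (t : Tb M h P σ Z) (μ : Measure (Vk n k)) (T : M.Fam (Mat n)) (T' : Z.Fam (Mat d)),
  t.Mu μ → M.Ten T → Z.Ten T' → t.AvT μ T T' →
  (M.Met T → Z.Met T') ∧ (M.Kae T → Z.Kae T') ∧ (∀ c : ℝ, t.AvT μ (c • T) (c • T')) ∧
  ∀ S S', M.Ten S → t.AvT μ S S' → t.AvT μ (T + S) (T' + S') ∧ t.AvT μ (T - S) (T' - S')

/-- The metric descends. -/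
def St_DN : Prop := ∀ (n : ℕ) (M : Mf n) (h P : M.Fam (Mat n)) (k d : ℕ) (σ : Fin d ≃ Hi n k)
  (Z : Mf d) (t : Tb M h P σ Z) (μ : Measure (Vk n k)) (h' : Z.Fam (Mat d)), t.Mu μ → M.Met h →
  M.End P → Z.Met h' → t.AvT μ h h' → t.Dn h'

/-- The canonical bundle of the quotient is nef. -/
def St_NFZ : Prop := ∀ (n : ℕ) (M : Mf n) (H h P : M.Fam (Mat n)) (k d : ℕ) (σ : Fin d ≃ Hi n k)
  (Z : Mf d) (t : Tb M h P σ Z) (μ : Measure (Vk n k)) (H' h' : Z.Fam (Mat d)), t.Mu μ →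
  M.Kae H → M.Met h → W86.Nef M H → Z.Kae H' → Z.Met h' → t.AvT μ H H' → t.Dn h' → W86.Nef Z H'

/-! ### The volume of the quotient -/

/-- Maxima on the tubes. -/
def St_MAX : Prop := ∀ (n : ℕ) (M : Mf n) (h P : M.Fam (Mat n)) (k d : ℕ) (σ : Fin d ≃ Hi n k)
  (Z : Mf d) [Z.Cpt] (t : Tb M h P σ Z) (a : M.X → ℝ) (b : Z.X → ℝ), Continuous a →
  Continuous b → ∃ e ∈ t.S, ∃ z, dn σ z ∈ e.target ∧ ∀ e' ∈ t.S, ∀ z', dn σ z' ∈ e'.target →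
    a (t.Q e' z') - b (e'.symm (dn σ z')) ≤ a (t.Q e z) - b (e.symm (dn σ z))

/-- Comparison of the potentials. -/
def St_CMP : Prop := ∀ (n : ℕ) (M : Mf n) (H h P : M.Fam (Mat n)) (k d : ℕ) (σ : Fin d ≃ Hi n k)
  (Z : Mf d) [Z.Cpt] (t : Tb M h P σ Z) (H' h' : Z.Fam (Mat d)) (C C' ε : ℝ) (u : M.X → ℝ)
  (u' : Z.X → ℝ), k ≤ n → M.Met H → M.Met h → M.End P → Z.Met H' → Z.Met h' → t.Dn h' → 0 < C →
  0 < ε → M.Le H (C • h) → Z.Le h' (C' • H') → M.SolB H (h * P) ε u → Z.Sol H' (C * C' * ε) u' →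
  ∀ x, ∃ y, u x + Real.log (M.dq h H x) ≤
    u' y + Real.log (Z.dq h' H' y) + k * Real.log (1 + C * ε)

/-- The volume is positive. -/
def St_VZ : Prop := ∀ (n : ℕ) (M : Mf n) [M.Cpt] (H h P : M.Fam (Mat n)) (k d : ℕ)
  (σ : Fin d ≃ Hi n k) (Z : Mf d) [Z.Cpt] (t : Tb M h P σ Z) (H' h' : Z.Fam (Mat d)), 0 < d →
  M.Kae H → M.Met h → M.Fl1 h P k → W86.Nef M H → 0 < M.vB H (h * P) 0 → Z.Kae H' → Z.Met h' →
  t.Dn h' → W86.Nef Z H' → 0 < Z.vol H' 0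

/-! ### Sections -/

/-- The trace. -/
def St_TRC : Prop := ∀ (n : ℕ) (M : Mf n) (h P : M.Fam (Mat n)) (k d : ℕ) (σ : Fin d ≃ Hi n k)
  (g : Gy d) (a : Ga (Vk n k) g) (q : Vk n k × g.Y → M.X) (Δ : Subgroup g.Γ) (Z : Mf d)
  (π : g.Y → Z.X), Dv M h P σ a q → Qt g Δ Z π → Δ.FiniteIndex → (∀ γ ∈ Δ, a.A γ = 1) →
  (∀ e ∈ Z.C, ∀ p : Vk n k × g.Y, π p.2 ∈ e.source → ∃ c, Ad M h P σ q π c e p) →
  ∃ (ι : Type) (_ : Fintype ι) (_ : Nonempty ι) (c : M.Ch) (U : Set (E n)) (e : ι → Z.Ch)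
    (φ : ι → E n → E d) (j : ι → E n → ℂ), Tc M Z ι c U e φ j

/-- Independence of characters, with parameters. -/
def St_DED : Prop := ∀ (ι U : Type) [Fintype ι] [TopologicalSpace U] [Nonempty U]
  (G : Submonoid (ι → U → ℂ)), (∀ F ∈ G, ∀ a, Continuous (F a)) →
  ∃ (u₀ : U) (r : ℕ) (e : Fin r → ι → U → ℂ), (∀ i, e i ∈ G) ∧ ∀ᶠ u in 𝓝 u₀, ∀ F ∈ G,
    (∀ i, ∑ a, F a u * e i a u = 0) → ∀ a, F a u = 0

/-- The identity theorem. -/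
def St_IDT : Prop := ∀ (d : ℕ) (Z : Mf d) [Z.Cpt] (m : ℕ) (s : Z.Fam ℂ), Z.HSec m s →
  ∀ e ∈ Z.C, ∀ w ∈ e.target, (∀ᶠ w' in 𝓝 w, s e w' = 0) → Z.ev s = 0

/-- The count. -/
def St_CNT : Prop := ∀ (n d : ℕ) (M : Mf n) (Z : Mf d) [Z.Cpt] (ι : Type) [Fintype ι] [Nonempty ι]
  (c : M.Ch) (U : Set (E n)) (e : ι → Z.Ch) (φ : ι → E n → E d) (j : ι → E n → ℂ),
  Tc M Z ι c U e φ j → Z.WBig → Kap M d

/-- Nef with positive volume implies big. -/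
def St_BIG : Prop := ∀ (d : ℕ) (Z : Mf d) [Z.Cpt] (H : Z.Fam (Mat d)), 0 < d → Z.Kae H →
  (∀ ε : ℝ, 0 < ε → ∃ u, Z.Sol H ε u) → 0 < Z.vol H 0 → Z.WBig

/-- The second half of the tail. -/
def St_TAIL : Prop := ∀ (n : ℕ) (M : Mf n) [M.Cpt] (H h P : M.Fam (Mat n)) (k d : ℕ)
  (σ : Fin d ≃ Hi n k), M.Kae H → M.Met h → M.Fl1 h P k → W86.Nef M H → 0 < M.vB H (h * P) 0 →
  Raw M h P σ → Kap M d

theorem tail_of (hA : HS.St_AUBIN) (h1 : St_GRP) (h2 : St_QUO) (h3 : St_ADP) (h4 : St_TUB)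
    (h5 : St_MEA) (h6 : St_AVT) (h7 : St_AVP) (h8 : St_DN) (h9 : St_NFZ) (h10 : St_VZ)
    (h11 : St_TRC) (h12 : St_CNT) (h13 : St_BIG) : St_TAIL := by
  rintro n M _ H h P k d σ hH hh hf hN hv ⟨g, a, q, hD⟩
  obtain ⟨Δ, a1, a2, a3⟩ := h1 _ d g a
  obtain ⟨Z, _, π, hQ⟩ := h2 d g Δ a3
  have ad := h3 n M h P k d σ g a q Δ Z π hh hf hD hQ
  obtain ⟨ι, _, _, c, U, e, φ, j, hT⟩ := h11 n M h P k d σ g a q Δ Z π hD hQ a1 a2 ad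
  refine h12 n d M Z ι c U e φ j hT ?_
  rcases Nat.eq_zero_or_pos d with rfl | hd
  · exact HW.big_zero Z
  obtain ⟨t⟩ := h4 n M h P k d σ g a q Δ Z π hD hQ a2 ad
  obtain ⟨μ, m1, m2, m3⟩ := h5 (Vk n k)
    {l | ∀ e ∈ t.S, ∀ v w, t.Q e (jd σ (v + l) w) = t.Q e (jd σ v w)}
    (t.per.imp fun R hR v => (hR v).imp fun l hl => ⟨hl.2, hl.1⟩)
  have hμ : t.Mu μ := ⟨m1, m2, m3⟩
  obtain ⟨H', b1, b2⟩ := h6 n M h P k d σ Z t μ H hμ hH.toTen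
  obtain ⟨h', b3, b4⟩ := h6 n M h P k d σ Z t μ h hμ hh.toTen
  have b5 := (h7 n M h P k d σ Z t μ H H' hμ hH.toTen b1 b2).2.1 hH
  have b6 := (h7 n M h P k d σ Z t μ h h' hμ hh.toTen b3 b4).1 hh
  have b7 := h8 n M h P k d σ Z t μ h' hμ hh hf.en b6 b4
  have b8 := h9 n M H h P k d σ Z t μ H' h' hμ hH hh hN b5 b6 b2 b7
  exact h13 d Z H' hd b5 (b8.sol hA hd b5) (h10 n M H h P k d σ Z t H' h' hd hH hh hf hN hv b5 b6 b7 b8)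

end Pool.Agent.Lib.TQ
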