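import Pool.Agent.Lib.HS95.Blue2
import Pool.Agent.Lib.HQ.Blue
import Pool.Agent.Lib.HW27.Defs
import Pool.Agent.Lib.HW86.Ae

/-! Project tq (from compact flat leaves to pluricanonical sections): the objects. -/

open scoped Classical Topology ContDiff ComplexOrder Matrix
open Set MeasureTheory Complex Metric Filter

set_option linter.unusedVariables false

noncomputable section

namespace Pool.Agent.Lib.TQ

open Pool.Agent.Lib.SV (E)
open Pool.Agent.Lib.HS32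
open Pool.Agent.Lib.HS95 (Lo Hi Vk lo jn)

section coord

variable {n k d : ℕ} (σ : Fin d ≃ Hi n k)

/-- The last `d` coordinates. -/
def dn (z : E n) : E d := fun a => z (σ a).1

/-- The point with first coordinates `t` and last coordinates `w`. -/
def jd (t : Vk n k) (w : E d) : E n := jn k t fun a => w (σ.symm a)

/-- The lower block of a matrix. -/
def bl (T : Mat n) : Mat d := T.submatrix (fun a => (σ a).1) fun a => (σ a).1

/-- The matrix of `dn`. -/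
def em : Matrix (Fin d) (Fin n) ℂ := Matrix.of fun a i => if i = (σ a).1 then 1 else 0

/-- The matrix with lower block `T` and zero elsewhere. -/
def eb (T : Mat d) : Mat n := (em σ)ᴴ * T * em σ

/-- The mean in the first coordinates. -/
def av (μ : Measure (Vk n k)) (G : E n → ℂ) (w : E d) : ℂ := ∫ v, G (jd σ v w) ∂μ

/-- The mean of the lower block. -/
def avM (μ : Measure (Vk n k)) (T : E n → Mat n) (w : E d) : Mat d :=
  Matrix.of fun a b => av σ μ (fun z => T z (σ a).1 (σ b).1) w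

end coord

/-- A biholomorphic map between open sets. -/
def Bih {d : ℕ} (ψ : OpenPartialHomeomorph (E d) (E d)) : Prop :=
  DifferentiableOn ℂ ψ ψ.source ∧ DifferentiableOn ℂ ψ.symm ψ.target

/-- A space with a holomorphic atlas and a group of holomorphic maps. -/
structure Gy (d : ℕ) where
  Y : Type
  [tY : TopologicalSpace Y]
  [hY : T2Space Y]
  [cY : ConnectedSpace Y]
  J : Type
  c : J → OpenPartialHomeomorph Y (E d)
  cov : ∀ y, ∃ j, y ∈ (c j).source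
  Γ : Type
  [gΓ : Group Γ]
  [aΓ : MulAction Γ Y]
  cont : ∀ γ : Γ, Continuous fun y : Y => γ • y
  hol : ∀ (γ : Γ) j j' y, y ∈ (c j).source → γ • y ∈ (c j').source →
    DifferentiableAt ℂ (fun z => c j' (γ • (c j).symm z)) (c j y)

attribute [instance] Gy.tY Gy.hY Gy.cY Gy.gΓ Gy.aΓ

/-- The group also acts on the flat factor, properly and cocompactly on the product, and the pure
translations are relatively dense. -/
structure Ga (V : Type) [NormedAddCommGroup V] [InnerProductSpace ℂ V] {d : ℕ} (g : Gy d) where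
  A : g.Γ →* (V ≃ₗᵢ[ℂ] V)
  b : g.Γ → V
  bmul : ∀ γ δ, b (γ * δ) = b γ + A γ (b δ)
  inj : ∀ γ, A γ = 1 → b γ = 0 → γ = 1
  prp : ∀ K : Set g.Y, IsCompact K → ∀ R : ℝ, {γ : g.Γ | ‖b γ‖ ≤ R ∧ ∃ y ∈ K, γ • y ∈ K}.Finite
  coc : ∃ K : Set g.Y, IsCompact K ∧ ∃ R : ℝ, ∀ (v : V) (y : g.Y), ∃ γ : g.Γ,
    ‖b γ - v‖ ≤ R ∧ γ⁻¹ • y ∈ K
  lat : ∃ R : ℝ, ∀ v : V, ∃ γ : g.Γ, A γ = 1 ∧ (∀ y : g.Y, γ • y = y) ∧ ‖b γ - v‖ ≤ R

/-- The action on the product. -/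
def Ga.mv {V : Type} [NormedAddCommGroup V] [InnerProductSpace ℂ V] {d : ℕ} {g : Gy d}
    (a : Ga V g) (γ : g.Γ) (p : V × g.Y) : V × g.Y := (a.A γ p.1 + a.b γ, γ • p.2)

/-- A subgroup whose effective action is free, properly discontinuous and cocompact. -/
structure Fr {d : ℕ} (g : Gy d) (Δ : Subgroup g.Γ) : Prop where
  free : ∀ γ ∈ Δ, ∀ y : g.Y, γ • y = y → ∀ y' : g.Y, γ • y' = y'
  pd : ∀ K : Set g.Y, IsCompact K →
    ((fun γ : g.Γ => fun y : g.Y => γ • y) '' {γ | γ ∈ Δ ∧ ∃ y ∈ K, γ • y ∈ K}).Finite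
  cc : ∃ K : Set g.Y, IsCompact K ∧ ∀ y : g.Y, ∃ γ ∈ Δ, γ • y ∈ K

/-- The quotient manifold. -/
structure Qt {d : ℕ} (g : Gy d) (Δ : Subgroup g.Γ) (Z : Mf d) (π : g.Y → Z.X) : Prop where
  loc : IsLocalHomeomorph π
  sur : Function.Surjective π
  fib : ∀ y y', π y = π y' ↔ ∃ γ ∈ Δ, y' = γ • y
  lift : ∀ e ∈ Z.C, ∀ y, π y ∈ e.source → ∃ j ψ, Bih ψ ∧ y ∈ (g.c j).source ∧
    g.c j y ∈ ψ.source ∧ ∀ᶠ y' in 𝓝 y, e (π y') = ψ (g.c j y')

section mf

variable {n : ℕ} (M : Mf n) (h P : M.Fam (Mat n)) {k d : ℕ} (σ : Fin d ≃ Hi n k)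

/-- The manifold is the quotient of the product. -/
structure Dv {g : Gy d} (a : Ga (Vk n k) g) (q : Vk n k × g.Y → M.X) : Prop where
  cont : Continuous q
  inv : ∀ γ p, q (a.mv γ p) = q p
  orb : ∀ p p', q p = q p' → ∃ γ, p' = a.mv γ p
  linj : ∀ p, ∃ O ∈ 𝓝 p, InjOn q O
  sec : ∀ x, ∃ e, M.Prod h P k e ∧ x ∈ e.source ∧ ∃ (B : Vk n k ≃ₗᵢ[ℂ] Vk n k) (v : Vk n k)
    (j : g.J), dn σ (e x) ∈ (g.c j).target ∧
      ∀ᶠ x' in 𝓝 x, q (B (lo k (e x')) + v, (g.c j).symm (dn σ (e x'))) = x'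

/-- The output of the first half: the flat leaves are compact. -/
def Raw : Prop := ∃ (g : Gy d) (a : Ga (Vk n k) g) (q : Vk n k × g.Y → M.X), Dv M h P σ a q

/-- The product chart `c` of `M` is adapted to the chart `e` of `Z` at the point `p`. -/
structure Ad {Y : Type} [TopologicalSpace Y] {Z : Mf d} (q : Vk n k × Y → M.X) (π : Y → Z.X)
    (c : M.Ch) (e : Z.Ch) (p : Vk n k × Y) : Prop where
  prod : M.Prod h P k c
  mem : q p ∈ c.source
  eq : ∀ᶠ p' in 𝓝 p, c (q p') = jd σ p'.1 (e (π p'.2))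

/-- Near `z` the chart `c` is an inverse of `Q`. -/
structure Iv (Q : E n → M.X) (z : E n) (c : M.Ch) : Prop where
  mem : c ∈ M.C
  eq : ∀ᶠ z' in 𝓝 z, Q z' ∈ c.source ∧ c (Q z') = z'

/-- Parametrized tubes over the charts of `Z`. -/
structure Tb (Z : Mf d) where
  S : Set Z.Ch
  sub : Z.Sub S
  Q : Z.Ch → E n → M.X
  loc : ∀ e ∈ S, ∀ z, dn σ z ∈ e.target → ∃ c, M.Prod h P k c ∧ Iv M (Q e) z c
  per : ∃ R : ℝ, ∀ v, ∃ l, ‖l - v‖ ≤ R ∧ ∀ e ∈ S, ∀ t w, Q e (jd σ (t + l) w) = Q e (jd σ t w)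
  ov : Z.OvOn S fun e e' x => ∃ b, ∀ᶠ x' in 𝓝 x, ∀ t,
    Q e' (jd σ t (e' x')) = Q e (jd σ (t + b) (e x'))
  sur : ∀ x, ∃ e ∈ S, ∃ z, dn σ z ∈ e.target ∧ Q e z = x

variable {M h P σ} {Z : Mf d} (t : Tb M h P σ Z)

/-- A tensor read in a tube. -/
def Tb.pl (T : M.Fam (Mat n)) (e : Z.Ch) (z : E n) : Mat n :=
  if H : ∃ c, Iv M (t.Q e) z c then T H.choose z else 0

/-- A probability measure with compact support whose mean of periodic functions is invariant under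
translations. -/
structure Tb.Mu (μ : Measure (Vk n k)) : Prop where
  prob : IsProbabilityMeasure μ
  cpt : ∃ K, IsCompact K ∧ μ Kᶜ = 0
  inv : ∀ F : Vk n k → ℂ, Continuous F →
    (∀ l, (∀ e ∈ t.S, ∀ v w, t.Q e (jd σ (v + l) w) = t.Q e (jd σ v w)) → ∀ v, F (v + l) = F v) →
    ∀ b, ∫ v, F (v + b) ∂μ = ∫ v, F v ∂μ

/-- `T'` is the mean of the tensor `T`. -/
def Tb.AvT (μ : Measure (Vk n k)) (T : M.Fam (Mat n)) (T' : Z.Fam (Mat d)) : Prop :=
  Z.AllOn t.S fun e w => T' e w = avM σ μ (t.pl T e) w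

/-- `u'` is the mean of the function `u`. -/
def Tb.AvF (μ : Measure (Vk n k)) (u : M.X → ℝ) (u' : Z.X → ℝ) : Prop :=
  Z.AllOn t.S fun e w => u' (e.symm w) = ∫ v, u (t.Q e (jd σ v w)) ∂μ

/-- In the tubes `h` is the sum of the flat metric and of the metric `h'` of `Z`. -/
def Tb.Dn (h' : Z.Fam (Mat d)) : Prop := ∀ e ∈ t.S, ∀ z, dn σ z ∈ e.target →
  t.pl h e z = pr k + eb σ (h' e (dn σ z)) ∧ t.pl (h * P) e z = pr k ∧
    t.pl (M.ric h) e z = eb σ (Z.ric h' e (dn σ z))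

variable (M) in
/-- The Kodaira dimension is at least `d`. -/
def Kap (d : ℕ) : Prop :=
  ∃ c : ℝ, 0 < c ∧ ∃ᶠ m : ℕ in atTop, ∃ N : ℕ, c * (m : ℝ) ^ d ≤ N ∧ M.WMany m N

variable (M Z) in
/-- The trace of the sections of `Z` along finitely many branches over the open set `U`. -/
structure Tc (ι : Type) [Fintype ι] (c : M.Ch) (U : Set (E n)) (e : ι → Z.Ch)
    (φ : ι → E n → E d) (j : ι → E n → ℂ) : Prop where
  mem : c ∈ M.C
  opn : IsOpen U
  ne : U.Nonempty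
  sub : U ⊆ c.target
  me : ∀ a, e a ∈ Z.C
  tgt : ∀ a, ∀ z ∈ U, φ a z ∈ (e a).target
  cφ : ∀ a, ContinuousOn (φ a) U
  cj : ∀ a, ContinuousOn (j a) U
  j0 : ∀ a, ∀ z ∈ U, j a z ≠ 0
  op : ∀ a, ∀ z ∈ U, 𝓝 (φ a z) ≤ map (φ a) (𝓝 z)
  tr : ∀ m s, Z.HSec m s → ∃ s', M.HSec m s' ∧
    ∀ z ∈ U, s' c z = ∑ a, s (e a) (φ a z) * j a z ^ m

end mf

end Pool.Agent.Lib.TQ
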