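import Pool.Agent.Lib.TQ.Blue
import Pool.Agent.Lib.HN.Tail
import Pool.Agent.Lib.HW27.Kit

/-! Project tq: from growth in windows of degrees to growth along all multiples of one degree. -/

open scoped Classical Topology
open Set Filter

noncomputable section

namespace Pool.Agent.Lib.TQ

open Pool.Agent.Lib.SV (E)
open Pool.Agent.Lib.HS32
open Pool.Agent.Lib.HS95 (Hi Vk)

/-- Many sections in every window of degrees `[m, 2 m]`. -/
def Kap2 {n : ℕ} (M : Mf n) (d : ℕ) : Prop :=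
  ∃ c : ℝ, 0 < c ∧ ∀ᶠ m : ℕ in atTop, ∃ m' N : ℕ, m ≤ m' ∧ m' ≤ 2 * m ∧
    c * (m : ℝ) ^ d ≤ N ∧ M.WMany m' N

namespace G95

variable {n : ℕ} {M : Mf n}

theorem hsec_mul {a b : ℕ} {s t : M.Fam ℂ} (hs : M.HSec a s) (ht : M.HSec b t) :
    M.HSec (a + b) (s * t) :=
  ⟨⟨fun e he z hz => (hs.sm e he z hz).mul (ht.sm e he z hz), fun e he e' he' x hx hx' => by
    have h1 := hs.cmp e he e' he' x hx hx'
    have h2 := ht.cmp e he e' he' x hx hx'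
    simp only [Pi.mul_apply] at *
    rw [h1, h2]; ring⟩, fun e he z hz => (hs.hol e he z hz).mul (ht.hol e he z hz)⟩

theorem nzd (hI : St_IDT) [M.Cpt] {a b : ℕ} {s t : M.Fam ℂ} (hs : M.HSec a s) (ht : M.HSec b t)
    (h0 : M.ev t ≠ 0) (h : M.ev (s * t) = 0) : M.ev s = 0 := by
  obtain ⟨x, hx⟩ := Function.ne_iff.1 h0
  obtain ⟨h1, h2⟩ := (mTR n M).1 x
  have h3 := (M.ch x).map_source h2
  refine hI n M a s hs _ h1 _ h3 ?_
  filter_upwards [(ht.hol _ h1 _ h3).continuousAt.eventually_ne hx,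
    (M.ch x).open_target.mem_nhds h3] with w hw hw'
  obtain ⟨h4, h5⟩ := (mTR n M).1 ((M.ch x).symm w)
  have h6 := (hsec_mul hs ht).cmp _ h4 _ h1 _ h5 ((M.ch x).map_target hw')
  have h7 : (s * t) _ _ = 0 := congrFun h ((M.ch x).symm w)
  beta_reduce at h6
  rw [h7, zero_mul, (M.ch x).right_inv hw'] at h6
  exact (mul_eq_zero.1 h6).resolve_right hw

theorem many_mul (hI : St_IDT) [M.Cpt] {a b N : ℕ} {t : M.Fam ℂ} (h : M.WMany a N)
    (ht : M.HSec b t) (h0 : M.ev t ≠ 0) : M.WMany (a + b) N := by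
  obtain ⟨s, hs, hl⟩ := h
  refine ⟨fun i => s i * t, fun i => hsec_mul (hs i) ht, ?_⟩
  rw [Fintype.linearIndependent_iff] at hl ⊢
  refine fun g hg => hl g (funext fun x => ?_)
  have h1 := nzd hI (HW27.hsec_sum hs g) ht h0 (funext fun y => by
    have h2 := congrFun hg y
    have h3 : M.ev ((∑ i, g i • s i) * t) y = M.ev (∑ i, g i • s i) y * M.ev t y := rfl
    rw [h3, HW27.ev_sum, Finset.sum_mul]
    simpa [Finset.sum_apply, mul_assoc, Mf.ev] using h2)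
  have h4 := congrFun h1 x
  rw [HW27.ev_sum] at h4
  simpa [Finset.sum_apply] using h4

end G95

open G95 in
theorem grow_of (hI : St_IDT) {n : ℕ} (M : Mf n) [M.Cpt] {d : ℕ} (h : Kap2 M d) : M.WGrow d := by
  obtain ⟨c, hc, h⟩ := h
  let S : AddSubmonoid ℕ :=
    { carrier := {b | b = 0 ∨ ∃ t, M.HSec b t ∧ M.ev t ≠ 0}
      zero_mem' := Or.inl rfl
      add_mem' := by
        rintro a b (rfl | ⟨s, hs, s0⟩) hb
        · simpa using hb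
        rcases hb with rfl | ⟨t, ht, t0⟩
        · exact Or.inr ⟨s, hs, s0⟩
        · exact Or.inr ⟨_, hsec_mul hs ht, fun h => s0 (nzd hI hs ht t0 h)⟩ }
  obtain ⟨n₀, hn⟩ := Nat.exists_mem_closure_of_ge (S : Set ℕ)
  rw [AddSubmonoid.closure_eq] at hn
  obtain ⟨m₀, hm⟩ := eventually_atTop.1 h
  have key : ∀ m, m₀ + 1 ≤ m → ∃ m' N : ℕ, m ≤ m' ∧ m' ≤ 2 * m ∧ c * (m : ℝ) ^ d ≤ N ∧
      M.WMany m' N ∧ Nat.setGcd (S : Set ℕ) ∣ m' ∧ m' ∈ S := fun m hm' => by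
    obtain ⟨m', N, a1, a2, a3, s, hs, hl⟩ := hm m (by omega)
    have : (0 : ℝ) < m := by exact_mod_cast (by omega : 0 < m)
    have hN : 0 < N := by exact_mod_cast (lt_of_lt_of_le (by positivity) a3 : (0 : ℝ) < N)
    have hS : m' ∈ S := Or.inr ⟨s ⟨0, hN⟩, hs _, hl.ne_zero _⟩
    exact ⟨m', N, a1, a2, a3, ⟨s, hs, hl⟩, Nat.setGcd_dvd_of_mem hS, hS⟩
  have hg : 0 < Nat.setGcd (S : Set ℕ) := by
    obtain ⟨m', -, a1, -, -, -, a2, -⟩ := key _ le_rfl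
    exact Nat.pos_of_dvd_of_pos a2 (by omega)
  refine ⟨_, c / 4 ^ d, hg, by positivity,
    eventually_atTop.2 ⟨2 * n₀ + 4 * m₀ + 6, fun a ha => ?_⟩⟩
  have h1 : a ≤ Nat.setGcd (S : Set ℕ) * a := Nat.le_mul_of_pos_left _ hg
  obtain ⟨m', N, -, a2, a3, a4, a5, -⟩ := key ((Nat.setGcd (S : Set ℕ) * a - n₀) / 2) (by omega)
  refine ⟨N, le_trans ?_ a3, ?_⟩
  · have h2 : (a : ℝ) ≤ 4 * ((Nat.setGcd (S : Set ℕ) * a - n₀) / 2 : ℕ) := by
      exact_mod_cast (by omega : a ≤ 4 * ((Nat.setGcd (S : Set ℕ) * a - n₀) / 2))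
    calc c / 4 ^ d * (a : ℝ) ^ d ≤ c / 4 ^ d * (4 * _) ^ d := by gcongr
      _ = _ := by rw [mul_pow]; field_simp
  · have e : Nat.setGcd (S : Set ℕ) * a = m' + (Nat.setGcd (S : Set ℕ) * a - m') := by omega
    rcases hn (Nat.setGcd (S : Set ℕ) * a - m') (by omega)
      (Nat.dvd_sub (dvd_mul_right _ _) a5) with h0 | ⟨t, ht, t0⟩
    · rw [e, h0]; exact a4
    · rw [e]; exact many_mul hI a4 ht t0

/-- The count, in every window of degrees. -/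
def St_CNT2 : Prop := ∀ (n d : ℕ) (M : Mf n) (Z : Mf d) [Z.Cpt] (ι : Type) [Fintype ι]
  [Nonempty ι] (c : M.Ch) (U : Set (E n)) (e : ι → Z.Ch) (φ : ι → E n → E d) (j : ι → E n → ℂ),
  Tc M Z ι c U e φ j → Z.WBig → Kap2 M d

/-- The second half of the tail, with growth along all multiples of one degree. -/
def St_TAIL2 : Prop := ∀ (n : ℕ) (M : Mf n) [M.Cpt] (H h P : M.Fam (Mat n)) (k d : ℕ)
  (σ : Fin d ≃ Hi n k), M.Kae H → M.Met h → M.Fl1 h P k → W86.Nef M H → 0 < M.vB H (h * P) 0 →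
  Raw M h P σ → M.WGrow d

theorem tail2_of (hA : HS.St_AUBIN) (h1 : St_GRP) (h2 : St_QUO) (h3 : St_ADP) (h4 : St_TUB)
    (h5 : St_MEA) (h6 : St_AVT) (h7 : St_AVP) (h8 : St_DN) (h9 : St_NFZ) (h10 : St_VZ)
    (h11 : St_TRC) (h12 : St_CNT2) (h13 : St_BIG) (hI : St_IDT) : St_TAIL2 := by
  rintro n M _ H h P k d σ hH hh hf hN hv ⟨g, a, q, hD⟩
  obtain ⟨Δ, a1, a2, a3⟩ := h1 _ d g a
  obtain ⟨Z, _, π, hQ⟩ := h2 d g Δ a3
  have ad := h3 n M h P k d σ g a q Δ Z π hh hf hD hQ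
  obtain ⟨ι, _, _, c, U, e, φ, j, hT⟩ := h11 n M h P k d σ g a q Δ Z π hD hQ a1 a2 ad
  refine grow_of hI M (h12 n d M Z ι c U e φ j hT ?_)
  rcases Nat.eq_zero_or_pos d with rfl | hd
  · exact HW.big_zero Z
  obtain ⟨t⟩ := h4 n M h P k d σ g a q Δ Z π hD hQ a2 ad
  obtain ⟨μ, m1, m2, m3⟩ := h5 (Vk n k)
    {l | ∀ e ∈ t.S, ∀ v w, t.Q e (jd σ (v + l) w) = t.Q e (jd σ v w)}
    (t.per.imp fun R hR v => (hR v).imp fun l hl => ⟨hl.2, hl.1⟩)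
  have hμ : t.Mu μ := ⟨m1, m2, m3⟩
  obtain ⟨H', b1, b2⟩ := h6 n M h P k d σ Z t μ H hμ hH.toTen
  obtain ⟨h', b3, b4⟩ := h6 n M h P k d σ Z t μ h hμ hh.toTen
  have b5 := (h7 n M h P k d σ Z t μ H H' hμ hH.toTen b1 b2).2.1 hH
  have b6 := (h7 n M h P k d σ Z t μ h h' hμ hh.toTen b3 b4).1 hh
  have b7 := h8 n M h P k d σ Z t μ h' hμ hh hf.en b6 b4
  have b8 := h9 n M H h P k d σ Z t μ H' h' hμ hH hh hN b5 b6 b2 b7
  exact h13 d Z H' hd b5 (b8.sol hA hd b5) (h10 n M H h P k d σ Z t H' h' hd hH hh hf hN hv b5 b6 b7 b8)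

end Pool.Agent.Lib.TQ
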