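import Pool.Agent.Lib.TQ.Blue
import Pool.Agent.Lib.HS32.MAll
import Pool.Agent.Lib.HS85.Prod

/-! Project tq: basic lemmas. -/

open scoped Classical Topology ContDiff ComplexOrder Matrix
open Set MeasureTheory Complex Metric Filter

noncomputable section

namespace Pool.Agent.Lib.TQ

open Pool.Agent.Lib.SV (E)
open Pool.Agent.Lib.HS32
open Pool.Agent.Lib.HS95 (Lo Hi Vk lo jn)

section coord

variable {n k d : ℕ} (σ : Fin d ≃ Hi n k)

theorem hi_cases (i : Fin n) : i.val < k ∨ ∃ a, i = (σ a).1 := by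
  by_cases h : i.val < k
  · exact Or.inl h
  · exact Or.inr ⟨σ.symm ⟨i, h⟩, by simp⟩

theorem hi_inj {a b : Fin d} : (σ a).1 = (σ b).1 ↔ a = b := by
  rw [Subtype.val_inj, σ.apply_eq_iff_eq]

theorem jd_lo (t : Vk n k) (w : E d) {i : Fin n} (h : i.val < k) : jd σ t w i = t ⟨i, h⟩ :=
  dif_pos h

@[simp] theorem jd_hi (t : Vk n k) (w : E d) (a : Fin d) : jd σ t w (σ a).1 = w a := by
  simp only [jd, jn, dif_neg (σ a).2]; simp

@[simp] theorem lo_jd (t : Vk n k) (w : E d) : lo k (jd σ t w) = t := HS95.lo_jn k t _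

@[simp] theorem dn_jd (t : Vk n k) (w : E d) : dn σ (jd σ t w) = w := funext (jd_hi σ t w)

@[simp] theorem jd_lo_dn (z : E n) : jd σ (lo k z) (dn σ z) = z := by
  ext i
  rcases hi_cases σ i with h | ⟨a, rfl⟩
  · rw [jd_lo σ _ _ h]; rfl
  · rw [jd_hi]; rfl

theorem ext_lo_dn {z z' : E n} (h : lo k z = lo k z') (h' : dn σ z = dn σ z') : z = z' := by
  rw [← jd_lo_dn σ z, h, h', jd_lo_dn]

/-- The splitting. -/
def sp : E n ≃L[ℂ] Vk n k × E d := LinearEquiv.toContinuousLinearEquiv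
  { toFun := fun z => (lo k z, dn σ z)
    invFun := fun p => jd σ p.1 p.2
    map_add' := fun _ _ => rfl
    map_smul' := fun _ _ => rfl
    left_inv := jd_lo_dn σ
    right_inv := fun p => by simp }

@[simp] theorem sp_apply (z : E n) : sp σ z = (lo k z, dn σ z) := rfl

@[simp] theorem sp_symm (p : Vk n k × E d) : (sp σ).symm p = jd σ p.1 p.2 := rfl

/-- The map `dn` as a continuous linear map. -/
def dnL : E n →L[ℂ] E d := (ContinuousLinearMap.snd ℂ _ _).comp (sp σ).toContinuousLinearMap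

@[simp] theorem dnL_apply (z : E n) : dnL σ z = dn σ z := rfl

theorem continuous_dn : Continuous (dn σ) := (dnL σ).continuous

theorem continuous_jd : Continuous fun p : Vk n k × E d => jd σ p.1 p.2 := (sp σ).symm.continuous

theorem continuous_jd1 (w : E d) : Continuous fun v : Vk n k => jd σ v w :=
  (continuous_jd σ).comp (continuous_id.prodMk continuous_const)

theorem continuous_jd2 (v : Vk n k) : Continuous (jd σ v) :=
  (continuous_jd σ).comp (continuous_const.prodMk continuous_id)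

theorem cd_dn : ContDiff ℝ ∞ (dn σ) := ((dnL σ).restrictScalars ℝ).contDiff

theorem cd_lo : ContDiff ℝ ∞ (lo k : E n → _) := ((HS95.loL k).restrictScalars ℝ).contDiff

theorem cd_jd : ContDiff ℝ ∞ fun p : Vk n k × E d => jd σ p.1 p.2 :=
  (((sp σ).symm : Vk n k × E d →L[ℂ] E n).restrictScalars ℝ).contDiff

theorem hol_dn : Differentiable ℂ (dn σ) := (dnL σ).differentiable

theorem hol_lo : Differentiable ℂ (lo k : E n → _) := (HS95.loL k).differentiable

theorem hol_jd : Differentiable ℂ fun p : Vk n k × E d => jd σ p.1 p.2 := (sp σ).symm.differentiable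

theorem jd_add (t t' : Vk n k) (w w' : E d) : jd σ (t + t') (w + w') = jd σ t w + jd σ t' w' :=
  map_add (sp σ).symm (t, w) (t', w')

theorem jd_smul (c : ℂ) (t : Vk n k) (w : E d) : jd σ (c • t) (c • w) = c • jd σ t w :=
  map_smul (sp σ).symm c (t, w)

@[simp] theorem jd_zero : jd σ 0 0 = 0 := map_zero (sp σ).symm

theorem dn_add (z z' : E n) : dn σ (z + z') = dn σ z + dn σ z' := rfl

theorem lo_add (z z' : E n) : lo k (z + z') = lo k z + lo k z' := rfl

theorem jd_single (a : Fin d) (c : ℂ) : jd σ 0 (Pi.single a c) = Pi.single (σ a).1 c := by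
  ext i
  rcases hi_cases σ i with h | ⟨b, rfl⟩
  · rw [jd_lo σ _ _ h, Pi.single_eq_of_ne (by rintro rfl; exact (σ a).2 h)]; rfl
  · simp only [jd_hi, Pi.single_apply, hi_inj]

theorem dn_single_hi (a : Fin d) (c : ℂ) : dn σ (Pi.single (σ a).1 c) = Pi.single a c := by
  rw [← jd_single, dn_jd]

theorem lo_single_hi (a : Fin d) (c : ℂ) : lo k (Pi.single (σ a).1 c : E n) = 0 := by
  rw [← jd_single, lo_jd]

theorem dn_single_lo {i : Fin n} (h : i.val < k) (c : ℂ) : dn σ (Pi.single i c) = 0 := by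
  ext a
  exact Pi.single_eq_of_ne (M := fun _ => ℂ) (i' := (σ a).1) (i := i)
    (by rintro rfl; exact (σ a).2 h) c

/-- The set over an open set is open. -/
theorem ev_dn {U : Set (E d)} (hU : IsOpen U) {z : E n} (hz : dn σ z ∈ U) :
    ∀ᶠ z' in 𝓝 z, dn σ z' ∈ U := (hU.preimage (continuous_dn σ)).mem_nhds hz

/-! ### Matrices -/

theorem pr_pr : (pr k * pr k : Mat n) = pr k := HS85.pr_mul_pr k

theorem pr_ct : (pr k : Mat n)ᴴ = pr k := HS85.pr_ct k

theorem mv_ext {ι κ : Type} [Fintype κ] {A B : Matrix ι κ ℂ} (h : ∀ v, A *ᵥ v = B *ᵥ v) :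
    A = B := by
  ext a b
  simpa using congrFun (h (Pi.single b 1)) a

theorem em_mulVec (z : E n) : em σ *ᵥ z = dn σ z := by
  ext a; simp [em, Matrix.mulVec, dotProduct, dn]

theorem emH_mulVec (w : E d) : (em σ)ᴴ *ᵥ w = jd σ 0 w := by
  ext i
  simp only [em, Matrix.mulVec, dotProduct, Matrix.conjTranspose_apply, Matrix.of_apply]
  rcases hi_cases σ i with h | ⟨b, rfl⟩
  · rw [jd_lo σ _ _ h]
    exact Finset.sum_eq_zero fun a _ => by
      rw [if_neg (by rintro rfl; exact (σ a).2 h), star_zero, zero_mul]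
  · simp [hi_inj, apply_ite]

theorem pr_mulVec (z : E n) : (pr k : Mat n) *ᵥ z = jd σ (lo k z) 0 := by
  ext i
  rw [pr, Matrix.mulVec_diagonal]
  rcases hi_cases σ i with h | ⟨b, rfl⟩
  · rw [jd_lo σ _ _ h, if_pos h, one_mul]; rfl
  · rw [jd_hi, if_neg (σ b).2, zero_mul]; rfl

theorem eb_mulVec (T : Mat d) (z : E n) : eb σ T *ᵥ z = jd σ 0 (T *ᵥ dn σ z) := by
  rw [eb, ← Matrix.mulVec_mulVec, ← Matrix.mulVec_mulVec, em_mulVec, emH_mulVec]

theorem blk_mulVec (T : Mat d) (z : E n) :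
    (pr k + eb σ T) *ᵥ z = jd σ (lo k z) (T *ᵥ dn σ z) := by
  rw [Matrix.add_mulVec, pr_mulVec σ, eb_mulVec, ← jd_add, add_zero, zero_add]

theorem em_emH : em σ * (em σ)ᴴ = 1 := mv_ext fun v => by
  rw [← Matrix.mulVec_mulVec, emH_mulVec, em_mulVec, dn_jd, Matrix.one_mulVec]

theorem pr_add_eb_one : pr k + eb σ 1 = 1 := mv_ext fun v => by
  rw [blk_mulVec, Matrix.one_mulVec, Matrix.one_mulVec, jd_lo_dn]

theorem emH_em : (em σ)ᴴ * em σ = 1 - pr k := by
  rw [← pr_add_eb_one σ, eb, Matrix.mul_one, add_sub_cancel_left]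

theorem em_pr : em σ * (pr k : Mat n) = 0 := mv_ext fun v => by
  rw [← Matrix.mulVec_mulVec, pr_mulVec σ, em_mulVec, dn_jd, Matrix.zero_mulVec]

theorem pr_emH : (pr k : Mat n) * (em σ)ᴴ = 0 := by
  rw [← pr_ct, ← Matrix.conjTranspose_mul, em_pr, Matrix.conjTranspose_zero]

theorem eb_pr (T : Mat d) : eb σ T * pr k = 0 := by
  rw [eb, Matrix.mul_assoc, em_pr, Matrix.mul_zero]

theorem pr_eb (T : Mat d) : pr k * eb σ T = 0 := by
  rw [eb, ← Matrix.mul_assoc, ← Matrix.mul_assoc, pr_emH, Matrix.zero_mul, Matrix.zero_mul]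

theorem eb_mul (S T : Mat d) : eb σ (S * T) = eb σ S * eb σ T := by
  simp only [eb, Matrix.mul_assoc]
  rw [← Matrix.mul_assoc (em σ), em_emH, Matrix.one_mul]

theorem eb_ct (T : Mat d) : (eb σ T)ᴴ = eb σ Tᴴ := by
  simp only [eb, Matrix.conjTranspose_mul, Matrix.conjTranspose_conjTranspose, Matrix.mul_assoc]

theorem eb_add (S T : Mat d) : eb σ (S + T) = eb σ S + eb σ T := by
  rw [eb, Matrix.mul_add, Matrix.add_mul]; rfl

theorem eb_sub (S T : Mat d) : eb σ (S - T) = eb σ S - eb σ T := by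
  rw [eb, Matrix.mul_sub, Matrix.sub_mul]; rfl

theorem eb_neg (T : Mat d) : eb σ (-T) = -eb σ T := by
  rw [eb, Matrix.mul_neg, Matrix.neg_mul]; rfl

theorem eb_smul (c : ℂ) (T : Mat d) : eb σ (c • T) = c • eb σ T := by
  rw [eb, Matrix.mul_smul, Matrix.smul_mul]; rfl

theorem eb_rsmul (c : ℝ) (T : Mat d) : eb σ (c • T) = c • eb σ T := by
  rw [eb, Matrix.mul_smul, Matrix.smul_mul]; rfl

@[simp] theorem eb_zero : eb σ 0 = 0 := by rw [eb, Matrix.mul_zero, Matrix.zero_mul]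

theorem eb_psd {T : Mat d} (h : T.PosSemidef) : (eb σ T).PosSemidef :=
  h.conjTranspose_mul_mul_same _

theorem bl_apply (T : Mat n) (a b : Fin d) : bl σ T a b = T (σ a).1 (σ b).1 := rfl

theorem bl_eq (T : Mat n) : bl σ T = em σ * T * (em σ)ᴴ := by
  ext a b
  simp [bl, em, Matrix.mul_apply, apply_ite]

@[simp] theorem bl_eb (T : Mat d) : bl σ (eb σ T) = T := by
  rw [bl_eq, eb, ← Matrix.mul_assoc, ← Matrix.mul_assoc, em_emH, Matrix.one_mul, Matrix.mul_assoc,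
    em_emH, Matrix.mul_one]

@[simp] theorem eb_hi (T : Mat d) (a b : Fin d) : eb σ T (σ a).1 (σ b).1 = T a b :=
  congrFun (congrFun (bl_eb σ T) a) b

theorem eb_lo (T : Mat d) {i j : Fin n} (h : i.val < k ∨ j.val < k) : eb σ T i j = 0 := by
  rcases h with h | h
  · simpa [pr, h] using congrFun (congrFun (pr_eb σ T) i) j
  · simpa [pr, h] using congrFun (congrFun (eb_pr σ T) i) j

@[simp] theorem bl_pr : bl σ (pr k) = 0 := by rw [bl_eq, em_pr, Matrix.zero_mul]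

theorem bl_add (S T : Mat n) : bl σ (S + T) = bl σ S + bl σ T := rfl

theorem bl_blk (T : Mat d) : bl σ (pr k + eb σ T) = T := by rw [bl_add, bl_pr, bl_eb, zero_add]

theorem blk_emH (J : Mat d) : (pr k + eb σ J) * (em σ)ᴴ = (em σ)ᴴ * J := by
  rw [Matrix.add_mul, pr_emH, zero_add, eb, Matrix.mul_assoc, em_emH, Matrix.mul_one]

theorem bl_conj (T : Mat n) (J : Mat d) :
    bl σ ((pr k + eb σ J)ᴴ * T * (pr k + eb σ J)) = Jᴴ * bl σ T * J := by
  have h := congrArg Matrix.conjTranspose (blk_emH σ J)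
  rw [Matrix.conjTranspose_mul, Matrix.conjTranspose_mul, Matrix.conjTranspose_conjTranspose] at h
  rw [bl_eq, bl_eq, ← Matrix.mul_assoc, ← Matrix.mul_assoc, h, Matrix.mul_assoc _ _ (em σ)ᴴ,
    blk_emH]
  simp only [Matrix.mul_assoc]

theorem blk_eq {T : Mat n} (hT : T.IsHermitian) (h : T * pr k = pr k) :
    T = pr k + eb σ (bl σ T) := by
  have h' : pr k * T = pr k := by
    have := congrArg Matrix.conjTranspose h
    rwa [Matrix.conjTranspose_mul, pr_ct, hT.eq] at this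
  have : eb σ (bl σ T) = (1 - pr k) * T * (1 - pr k) := by
    rw [bl_eq, eb, ← emH_em σ]; simp only [Matrix.mul_assoc]
  rw [this, sub_mul, one_mul, h', mul_sub, mul_one, sub_mul, h, pr_pr]
  abel

theorem nq_bl' (T : Mat n) (v : E d) :
    star v ⬝ᵥ bl σ T *ᵥ v = star (jd σ 0 v) ⬝ᵥ T *ᵥ jd σ 0 v := by
  rw [← emH_mulVec, ← HS95.qf_conj, Matrix.conjTranspose_conjTranspose, bl_eq]

theorem nq_bl (T : Mat n) (v : E d) : nq (bl σ T) v = nq T (jd σ 0 v) := by
  rw [nq, nq_bl', nq]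

theorem det_blk' (s : ℂ) (T : Mat d) :
    (s • pr k + eb σ T).det = s ^ Fintype.card (Lo n k) * T.det := by
  let τ : Lo n k ⊕ Fin d ≃ Fin n :=
    (Equiv.sumCongr (Equiv.refl _) σ).trans (Equiv.sumCompl fun i : Fin n => i.val < k)
  have : (s • pr k + eb σ T).submatrix τ τ = Matrix.fromBlocks (s • 1) 0 0 T := by
    ext (a | a) (b | b)
    · have := eb_lo σ T (i := a.1) (j := b.1) (Or.inl a.2)
      simp [τ, this, pr, Matrix.diagonal_apply, Matrix.one_apply, a.2, Subtype.val_inj]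
    · have := eb_lo σ T (i := a.1) (j := (σ b).1) (Or.inl a.2)
      have h : a.1 ≠ (σ b).1 := fun h => (σ b).2 (h ▸ a.2)
      simp [τ, this, pr, h]
    · have := eb_lo σ T (i := (σ a).1) (j := b.1) (Or.inr b.2)
      have h : (σ a).1 ≠ b.1 := fun h => (σ a).2 (h ▸ b.2)
      simp [τ, this, pr, h]
    · have := (σ a).2
      simp [τ, pr, Matrix.diagonal_apply, this]
  rw [← Matrix.det_submatrix_equiv_self τ, this, Matrix.det_fromBlocks_zero₂₁, Matrix.det_smul,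
    Matrix.det_one, mul_one]

theorem det_blk (hk : k ≤ n) (s : ℂ) (T : Mat d) : (s • pr k + eb σ T).det = s ^ k * T.det := by
  rw [det_blk', Fintype.card_fin_lt_of_le hk]

theorem det_blkr (hk : k ≤ n) (s : ℝ) (T : Mat d) :
    (s • pr k + eb σ T).det = (s : ℂ) ^ k * T.det := det_blk σ hk s T

theorem det_blk1 (T : Mat d) : (pr k + eb σ T).det = T.det := by
  simpa using det_blk' σ 1 T

/-! ### Derivatives -/

section der

variable {f : E d → ℂ} {z : E n}

theorem fderiv_dn (h : DifferentiableAt ℝ f (dn σ z)) (v : E n) :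
    fderiv ℝ (fun w => f (dn σ w)) z v = fderiv ℝ f (dn σ z) (dn σ v) :=
  congrArg (fun L : E n →L[ℝ] ℂ => L v)
    (h.hasFDerivAt.comp z ((dnL σ).restrictScalars ℝ).hasFDerivAt).fderiv

theorem dz_dn_hi (h : DifferentiableAt ℝ f (dn σ z)) (a : Fin d) :
    dz (σ a).1 (fun w => f (dn σ w)) z = dz a f (dn σ z) := by
  simp only [dz, fderiv_dn σ h, dn_single_hi]

theorem dzb_dn_hi (h : DifferentiableAt ℝ f (dn σ z)) (a : Fin d) :
    dzb (σ a).1 (fun w => f (dn σ w)) z = dzb a f (dn σ z) := by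
  simp only [dzb, fderiv_dn σ h, dn_single_hi]

theorem dz_dn_lo (h : DifferentiableAt ℝ f (dn σ z)) {i : Fin n} (hi : i.val < k) :
    dz i (fun w => f (dn σ w)) z = 0 := by
  simp [dz, fderiv_dn σ h, dn_single_lo σ hi]

theorem dzb_dn_lo (h : DifferentiableAt ℝ f (dn σ z)) {i : Fin n} (hi : i.val < k) :
    dzb i (fun w => f (dn σ w)) z = 0 := by
  simp [dzb, fderiv_dn σ h, dn_single_lo σ hi]

theorem hess_dn (h : ContDiffAt ℝ ∞ f (dn σ z)) :
    hess (fun w => f (dn σ w)) z = eb σ (hess f (dn σ z)) := by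
  have ev := (continuous_dn σ).continuousAt.eventually (cd_ev_diff h)
  ext i j
  change dzb i (dz j _) z = _
  rcases hi_cases σ j with hj | ⟨b, rfl⟩
  · rw [eb_lo σ _ (Or.inr hj), dzb_congr (g := fun _ => 0) (ev.mono fun w hw => dz_dn_lo σ hw hj),
      dzb_const]
  · rw [dzb_congr (g := fun w => dz b f (dn σ w)) (ev.mono fun w hw => dz_dn_hi σ hw b)]
    rcases hi_cases σ i with hi | ⟨a, rfl⟩
    · rw [eb_lo σ _ (Or.inl hi), dzb_dn_lo σ (cd_diff (cd_dz h b)) hi]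
    · rw [eb_hi, dzb_dn_hi σ (cd_diff (cd_dz h b))]; rfl

end der

/-! ### Product maps -/

theorem jm_mulVec (ψ : E n → E n) (z v : E n) : jm ψ z *ᵥ v = fderiv ℂ ψ z v :=
  HS95.jm_mulVec ψ z v

theorem jm_congr {φ ψ : E n → E n} {z : E n} (h : φ =ᶠ[𝓝 z] ψ) : jm φ z = jm ψ z :=
  HS95.jm_congr h

theorem jm_id (z : E n) : jm (fun w => w) z = 1 := HS95.jm_id z

theorem hfd_pm (L : Vk n k →L[ℂ] Vk n k) (b : Vk n k) {ψ : E d → E d} {z : E n}
    (h : DifferentiableAt ℂ ψ (dn σ z)) :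
    HasFDerivAt (fun w => jd σ (L (lo k w) + b) (ψ (dn σ w)))
      (((sp σ).symm : Vk n k × E d →L[ℂ] E n).comp
        ((L.comp (HS95.loL k)).prod ((fderiv ℂ ψ (dn σ z)).comp (dnL σ)))) z :=
  (sp σ).symm.hasFDerivAt.comp z (((L.comp (HS95.loL k)).hasFDerivAt.add_const b).prodMk
    (h.hasFDerivAt.comp z (dnL σ).hasFDerivAt))

theorem jm_pm (L : Vk n k ≃ₗᵢ[ℂ] Vk n k) (b : Vk n k) {ψ : E d → E d} {z : E n}
    (h : DifferentiableAt ℂ ψ (dn σ z)) (v : E n) :
    jm (fun w => jd σ (L (lo k w) + b) (ψ (dn σ w))) z *ᵥ v =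
      jd σ (L (lo k v)) (jm ψ (dn σ z) *ᵥ dn σ v) := by
  rw [jm_mulVec, jm_mulVec]
  exact congrArg (fun A : E n →L[ℂ] E n => A v)
    (hfd_pm σ (L.toContinuousLinearEquiv : Vk n k →L[ℂ] Vk n k) b h).fderiv

theorem jm_tr (b : Vk n k) {ψ : E d → E d} {z : E n} (h : DifferentiableAt ℂ ψ (dn σ z)) :
    jm (fun w => jd σ (lo k w + b) (ψ (dn σ w))) z = pr k + eb σ (jm ψ (dn σ z)) :=
  mv_ext fun v => (jm_pm σ (LinearIsometryEquiv.refl ℂ _) b h v).trans (blk_mulVec σ _ v).symm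

/-- The product of an affine isometry and of a local homeomorphism. -/
def pm (L : Vk n k ≃ₗᵢ[ℂ] Vk n k) (b : Vk n k) (ψ : OpenPartialHomeomorph (E d) (E d)) :
    OpenPartialHomeomorph (E n) (E n) where
  toFun z := jd σ (L (lo k z) + b) (ψ (dn σ z))
  invFun z := jd σ (L.symm (lo k z) + -L.symm b) (ψ.symm (dn σ z))
  source := dn σ ⁻¹' ψ.source
  target := dn σ ⁻¹' ψ.target
  map_source' z hz := by simpa using ψ.map_source hz
  map_target' z hz := by simpa using ψ.map_target hz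
  left_inv' z hz := by simp [ψ.left_inv hz]
  right_inv' z hz := by simp [ψ.right_inv hz]
  open_source := ψ.open_source.preimage (continuous_dn σ)
  open_target := ψ.open_target.preimage (continuous_dn σ)
  continuousOn_toFun := (continuous_jd σ).comp_continuousOn
    (((L.continuous.comp (HS95.continuous_lo k)).add continuous_const).continuousOn.prodMk
      (ψ.continuousOn.comp (continuous_dn σ).continuousOn fun _ h => h))
  continuousOn_invFun := (continuous_jd σ).comp_continuousOn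
    (((L.symm.continuous.comp (HS95.continuous_lo k)).add continuous_const).continuousOn.prodMk
      (ψ.continuousOn_symm.comp (continuous_dn σ).continuousOn fun _ h => h))

section pm

variable (L : Vk n k ≃ₗᵢ[ℂ] Vk n k) (b : Vk n k) (ψ : OpenPartialHomeomorph (E d) (E d))

theorem pm_coe : ⇑(pm σ L b ψ) = fun z => jd σ (L (lo k z) + b) (ψ (dn σ z)) := rfl

theorem pm_symm_coe :
    ⇑(pm σ L b ψ).symm = fun z => jd σ (L.symm (lo k z) + -L.symm b) (ψ.symm (dn σ z)) := rfl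

theorem pm_source (z : E n) : z ∈ (pm σ L b ψ).source ↔ dn σ z ∈ ψ.source := Iff.rfl

theorem pm_target (z : E n) : z ∈ (pm σ L b ψ).target ↔ dn σ z ∈ ψ.target := Iff.rfl

end pm

end coord

section bih

variable {d : ℕ} {ψ φ : OpenPartialHomeomorph (E d) (E d)}

theorem Bih.at (h : Bih ψ) {z : E d} (hz : z ∈ ψ.source) : DifferentiableAt ℂ ψ z :=
  h.1.differentiableAt (ψ.open_source.mem_nhds hz)

theorem Bih.symm (h : Bih ψ) : Bih ψ.symm := ⟨h.2, h.1⟩

theorem Bih.holN (h : Bih ψ) {z : E d} (hz : z ∈ ψ.source) : HolN ψ z :=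
  (ψ.open_source.eventually_mem hz).mono fun _ hw => h.at hw

theorem Bih.trans (h : Bih ψ) (h' : Bih φ) : Bih (ψ.trans φ) :=
  ⟨fun _ hz => ((h'.at hz.2).comp _ (h.at hz.1)).differentiableWithinAt,
    fun _ hz => ((h.symm.at hz.2).comp _ (h'.symm.at hz.1)).differentiableWithinAt⟩

theorem bih_pm {n k : ℕ} (σ : Fin d ≃ Hi n k) (L : Vk n k ≃ₗᵢ[ℂ] Vk n k) (b : Vk n k) (h : Bih ψ) :
    Bih (pm σ L b ψ) :=
  ⟨fun _ hz => (hfd_pm σ (L.toContinuousLinearEquiv : Vk n k →L[ℂ] Vk n k) b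
      (h.at hz)).differentiableAt.differentiableWithinAt,
    fun _ hz => (hfd_pm σ (L.symm.toContinuousLinearEquiv : Vk n k →L[ℂ] Vk n k) _
      (h.symm.at hz)).differentiableAt.differentiableWithinAt⟩

end bih

/-! ### The group -/

section grp

variable {d : ℕ} (g : Gy d)

instance : LocallyCompactSpace g.Y := by
  refine ⟨fun y n hn => ?_⟩
  obtain ⟨j, hj⟩ := g.cov y
  have h1 : (g.c j).target ∩ (g.c j).symm ⁻¹' n ∈ 𝓝 (g.c j y) :=
    inter_mem ((g.c j).open_target.mem_nhds ((g.c j).map_source hj))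
      (((g.c j).continuousAt_symm ((g.c j).map_source hj)).preimage_mem_nhds
        (by rw [(g.c j).left_inv hj]; exact hn))
  obtain ⟨K, hK, hs, hc⟩ := local_compact_nhds h1
  refine ⟨(g.c j).symm '' K, ?_, ?_, hc.image_of_continuousOn
    ((g.c j).continuousOn_symm.mono fun w hw => (hs hw).1)⟩
  · have := (g.c j).symm.image_mem_nhds ((g.c j).map_source hj) hK
    rwa [(g.c j).left_inv hj] at this
  · rintro _ ⟨w, hw, rfl⟩; exact (hs hw).2

instance : ContinuousConstSMul g.Γ g.Y := ⟨g.cont⟩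

/-- A group element read in charts. -/
def Gy.tau (γ : g.Γ) (j j' : g.J) : OpenPartialHomeomorph (E d) (E d) :=
  (g.c j).symm.trans ((Homeomorph.smul γ).toOpenPartialHomeomorph.trans (g.c j'))

theorem Gy.tau_apply (γ : g.Γ) (j j' : g.J) (z : E d) :
    g.tau γ j j' z = g.c j' (γ • (g.c j).symm z) := rfl

theorem Gy.tau_symm (γ : g.Γ) (j j' : g.J) (z : E d) :
    (g.tau γ j j').symm z = g.c j (γ⁻¹ • (g.c j').symm z) := rfl

theorem Gy.tau_source (γ : g.Γ) (j j' : g.J) (z : E d) : z ∈ (g.tau γ j j').source ↔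
    z ∈ (g.c j).target ∧ γ • (g.c j).symm z ∈ (g.c j').source := by
  simp [Gy.tau]

theorem Gy.tau_target (γ : g.Γ) (j j' : g.J) (z : E d) : z ∈ (g.tau γ j j').target ↔
    z ∈ (g.c j').target ∧ γ⁻¹ • (g.c j').symm z ∈ (g.c j).source := by
  simp [Gy.tau]

theorem Gy.hol' (γ : g.Γ) {j j' : g.J} {z : E d} (h : z ∈ (g.c j).target)
    (h' : γ • (g.c j).symm z ∈ (g.c j').source) :
    DifferentiableAt ℂ (fun w => g.c j' (γ • (g.c j).symm w)) z := by
  have := g.hol γ j j' _ ((g.c j).map_target h) h'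
  rwa [(g.c j).right_inv h] at this

theorem Gy.bih_tau (γ : g.Γ) (j j' : g.J) : Bih (g.tau γ j j') :=
  ⟨fun z hz => (g.hol' γ ((g.tau_source γ j j' z).1 hz).1
      ((g.tau_source γ j j' z).1 hz).2).differentiableWithinAt,
    fun z hz => (g.hol' γ⁻¹ ((g.tau_target γ j j' z).1 hz).1
      ((g.tau_target γ j j' z).1 hz).2).differentiableWithinAt⟩

variable {g} {V : Type} [NormedAddCommGroup V] [InnerProductSpace ℂ V] (a : Ga V g)

theorem Ga.b_one : a.b 1 = 0 := by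
  have := a.bmul 1 1
  rw [mul_one, map_one] at this
  simpa using this

theorem Ga.b_inv (γ : g.Γ) : a.b γ⁻¹ = -(a.A γ)⁻¹ (a.b γ) := by
  have := a.bmul γ⁻¹ γ
  rw [inv_mul_cancel, Ga.b_one, map_inv] at this
  exact eq_neg_of_add_eq_zero_left this.symm

theorem Ga.mv_one (p : V × g.Y) : a.mv 1 p = p := by
  simp [Ga.mv, Ga.b_one]

theorem Ga.mv_mul (γ δ : g.Γ) (p : V × g.Y) : a.mv (γ * δ) p = a.mv γ (a.mv δ p) := by
  simp only [Ga.mv, a.bmul, map_mul, mul_smul, map_add, Prod.mk.injEq, and_true]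
  show a.A γ (a.A δ p.1) + _ = _
  abel

theorem Ga.continuous_mv (γ : g.Γ) : Continuous (a.mv γ) :=
  (((a.A γ).continuous.comp continuous_fst).add continuous_const).prodMk
    ((g.cont γ).comp continuous_snd)

end grp

/-! ### Tubes -/

section tube

variable {n : ℕ} {M : Mf n} {h P : M.Fam (Mat n)} {k d : ℕ} {σ : Fin d ≃ Hi n k}
  {Q Q' : E n → M.X} {z : E n} {c c' : M.Ch} {S T : M.Fam (Mat n)}

theorem Iv.src (H : Iv M Q z c) : Q z ∈ c.source := H.eq.self_of_nhds.1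

theorem Iv.app (H : Iv M Q z c) : c (Q z) = z := H.eq.self_of_nhds.2

theorem Iv.tgt (H : Iv M Q z c) : z ∈ c.target := H.app ▸ c.map_source H.src

theorem Iv.symm (H : Iv M Q z c) : c.symm =ᶠ[𝓝 z] Q :=
  H.eq.mono fun w hw => by rw [← c.left_inv hw.1, hw.2]

theorem Iv.ev (H : Iv M Q z c) : ∀ᶠ w in 𝓝 z, Iv M Q w c :=
  H.eq.eventually_nhds.mono fun _ hw => ⟨H.mem, hw⟩

theorem Iv.cont (H : Iv M Q z c) : ContinuousAt Q z := (c.continuousAt_symm H.tgt).congr H.symm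

theorem Iv.sm {F : Type} [NormedAddCommGroup F] [NormedSpace ℝ F] {u : M.X → F} (H : Iv M Q z c)
    (hu : M.Sm u) : ContDiffAt ℝ ∞ (fun w => u (Q w)) z :=
  (hu c H.mem z H.tgt).congr_of_eventuallyEq (H.symm.symm.fun_comp u)

theorem Iv.J {Θ : E n → E n} (H : Iv M Q (Θ z) c) (H' : Iv M Q' z c') (hΘ : ContinuousAt Θ z)
    (hQ : ∀ᶠ w in 𝓝 z, Q' w = Q (Θ w)) : M.J c c' (Q' z) = jm Θ z := by
  rw [Mf.J, H'.app]
  refine jm_congr ?_
  filter_upwards [H'.symm, hQ, hΘ.eventually H.eq] with w h1 h2 h3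
  rw [Function.comp_apply, h1, h2, h3.2]

theorem Iv.cmp {Θ : E n → E n} (hT : M.Ten T) (H : Iv M Q (Θ z) c) (H' : Iv M Q' z c')
    (hΘ : ContinuousAt Θ z) (hQ : ∀ᶠ w in 𝓝 z, Q' w = Q (Θ w)) :
    T c' z = (jm Θ z)ᴴ * T c (Θ z) * jm Θ z := by
  have e := hQ.self_of_nhds
  have := hT.cmp c H.mem c' H'.mem (Q' z) (e ▸ H.src) H'.src
  beta_reduce at this
  rw [H.J H' hΘ hQ, H'.app, e, H.app] at this
  exact this

variable {Z : Mf d} (t : Tb M h P σ Z) {e e' : Z.Ch}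

theorem Tb.pl_eq (hT : M.Ten T) (H : Iv M (t.Q e) z c) : t.pl T e z = T c z := by
  have H0 : ∃ c, Iv M (t.Q e) z c := ⟨c, H⟩
  rw [Tb.pl, dif_pos H0, Iv.cmp (Θ := fun w => w) hT H H0.choose_spec continuousAt_id
    (Eventually.of_forall fun _ => rfl), jm_id, Matrix.conjTranspose_one, one_mul, mul_one]

theorem Tb.pl_ev (hT : M.Ten T) (H : Iv M (t.Q e) z c) : t.pl T e =ᶠ[𝓝 z] T c :=
  H.ev.mono fun _ hw => t.pl_eq hT hw

theorem Tb.pl_sm (hT : M.Ten T) (he : e ∈ t.S) (hz : dn σ z ∈ e.target) : SmM (t.pl T e) z := by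
  obtain ⟨c, -, H⟩ := t.loc e he z hz
  exact (hT.sm c H.mem z H.tgt).congr (t.pl_ev hT H)

theorem Tb.pl_cmp {Θ : E n → E n} (hT : M.Ten T) (he : e ∈ t.S) (he' : e' ∈ t.S)
    (hz : dn σ (Θ z) ∈ e.target) (hz' : dn σ z ∈ e'.target) (hΘ : ContinuousAt Θ z)
    (hQ : ∀ᶠ w in 𝓝 z, t.Q e' w = t.Q e (Θ w)) :
    t.pl T e' z = (jm Θ z)ᴴ * t.pl T e (Θ z) * jm Θ z := by
  obtain ⟨c, -, H⟩ := t.loc e he _ hz
  obtain ⟨c', -, H'⟩ := t.loc e' he' _ hz'
  rw [t.pl_eq hT H, t.pl_eq hT H', Iv.cmp hT H H' hΘ hQ]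

theorem Tb.pl_per (hT : M.Ten T) (he : e ∈ t.S) {l : Vk n k}
    (hl : ∀ v w, t.Q e (jd σ (v + l) w) = t.Q e (jd σ v w)) (v : Vk n k) {w : E d}
    (hw : w ∈ e.target) : t.pl T e (jd σ (v + l) w) = t.pl T e (jd σ v w) := by
  have := t.pl_cmp (Θ := fun z => jd σ (lo k z + l) (dn σ z)) (z := jd σ v w) hT he he
    (by simpa using hw) (by simpa using hw)
    (hfd_pm σ (ContinuousLinearMap.id ℂ _) l (ψ := fun w => w) differentiableAt_id).continuousAt
    (Eventually.of_forall fun z => by rw [hl, jd_lo_dn])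
  rw [this, jm_tr σ l (ψ := fun w => w) differentiableAt_id, jm_id, pr_add_eb_one]
  simp

theorem Tb.pl_congr (H : M.All fun c z => S c z = T c z) (e : Z.Ch) (z : E n) :
    t.pl S e z = t.pl T e z := by
  unfold Tb.pl
  split_ifs with H0
  · exact H _ H0.choose_spec.mem _ H0.choose_spec.tgt
  · rfl

theorem Tb.pl_add (e : Z.Ch) (z : E n) : t.pl (S + T) e z = t.pl S e z + t.pl T e z := by
  unfold Tb.pl; split_ifs <;> simp

theorem Tb.pl_sub (e : Z.Ch) (z : E n) : t.pl (S - T) e z = t.pl S e z - t.pl T e z := by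
  unfold Tb.pl; split_ifs <;> simp

theorem Tb.pl_smul (r : ℝ) (e : Z.Ch) (z : E n) : t.pl (r • T) e z = r • t.pl T e z := by
  unfold Tb.pl; split_ifs <;> simp

theorem Tb.cont (he : e ∈ t.S) (hz : dn σ z ∈ e.target) : ContinuousAt (t.Q e) z :=
  (t.loc e he z hz).choose_spec.2.cont

theorem Tb.sm {F : Type} [NormedAddCommGroup F] [NormedSpace ℝ F] {u : M.X → F} (hu : M.Sm u)
    (he : e ∈ t.S) (hz : dn σ z ∈ e.target) : ContDiffAt ℝ ∞ (fun w => u (t.Q e w)) z :=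
  (t.loc e he z hz).choose_spec.2.sm hu

theorem Tb.pl_hs {u : M.X → ℝ} (hu : M.Sm u) (he : e ∈ t.S) (hz : dn σ z ∈ e.target) :
    t.pl (M.hs u) e z = hess (fun w => (u (t.Q e w) : ℂ)) z := by
  obtain ⟨c, -, H⟩ := t.loc e he z hz
  rw [t.pl_eq ((mHES n M).1 u hu).toTen H]
  exact hess_congr (H.symm.fun_comp fun x => (u x : ℂ))

end tube

/-! ### Adapted charts -/

section ad

variable {n : ℕ} {M : Mf n} {h P : M.Fam (Mat n)} {k d : ℕ} {σ : Fin d ≃ Hi n k} {Z : Mf d}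
  {c c' : M.Ch} {e e' : Z.Ch}

section

variable {Y : Type} [TopologicalSpace Y] {q : Vk n k × Y → M.X} {π : Y → Z.X} {p : Vk n k × Y}

theorem Ad.app (H : Ad M h P σ q π c e p) : c (q p) = jd σ p.1 (e (π p.2)) := H.eq.self_of_nhds

theorem Ad.ev (H : Ad M h P σ q π c e p) (hq : Continuous q) :
    ∀ᶠ p' in 𝓝 p, Ad M h P σ q π c e p' := by
  filter_upwards [H.eq.eventually_nhds, hq.continuousAt.eventually (c.open_source.mem_nhds H.mem)]
    with p' h1 h2 using ⟨H.prod, h2, h1⟩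

/-- The local section given by an adapted chart. -/
theorem Ad.sec (H : Ad M h P σ q π c e p) (hq : Continuous q) (hπ : IsLocalHomeomorph π)
    (he : π p.2 ∈ e.source) : ∃ s : M.X → Vk n k × Y, s (q p) = p ∧ ContinuousAt s (q p) ∧
      ∀ᶠ x in 𝓝 (q p), q (s x) = x := by
  obtain ⟨r, hr, rfl⟩ := hπ p.2
  have c0 := c.continuousAt H.mem
  have a0 : dn σ (c (q p)) = e (r p.2) := by rw [H.app, dn_jd]
  have c1 : Tendsto (fun x => dn σ (c x)) (𝓝 (q p)) (𝓝 (e (r p.2))) :=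
    a0 ▸ ((continuous_dn σ).continuousAt.comp c0).tendsto
  have c2 : Tendsto (fun x => e.symm (dn σ (c x))) (𝓝 (q p)) (𝓝 (r p.2)) :=
    (e.tendsto_symm he).comp c1
  have s0 : (lo k (c (q p)), r.symm (e.symm (dn σ (c (q p))))) = p := by
    rw [a0, e.left_inv he, r.left_inv hr, H.app, lo_jd]
  have c3 : Tendsto (fun x => (lo k (c x), r.symm (e.symm (dn σ (c x))))) (𝓝 (q p)) (𝓝 p) := by
    have := ((HS95.continuous_lo k).continuousAt.comp c0).tendsto.prodMk_nhds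
      ((r.tendsto_symm hr).comp c2)
    rwa [Function.comp_apply, H.app, lo_jd] at this
  refine ⟨fun x => (lo k (c x), r.symm (e.symm (dn σ (c x)))), s0, ?_, ?_⟩
  · rw [ContinuousAt, s0]; exact c3
  filter_upwards [c3.eventually (H.ev hq), c.open_source.mem_nhds H.mem,
    c1.eventually (e.open_target.mem_nhds (e.map_source he)),
    c2.eventually (r.open_target.mem_nhds (r.map_source hr))] with x h1 h2 h3 h4
  refine c.injOn h1.mem h2 ?_
  rw [h1.app, r.right_inv h4, e.right_inv h3, jd_lo_dn]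

theorem Ad.nhds (H : Ad M h P σ q π c e p) (hq : Continuous q) (hπ : IsLocalHomeomorph π)
    (he : π p.2 ∈ e.source) : 𝓝 (q p) ≤ map q (𝓝 p) := by
  obtain ⟨s, h1, h2, h3⟩ := H.sec hq hπ he
  intro U hU
  have : Tendsto s (𝓝 (q p)) (𝓝 p) := by have := h2.tendsto; rwa [h1] at this
  filter_upwards [h3, this.eventually hU] with x a b
  exact a ▸ b

end

variable {g : Gy d} {a : Ga (Vk n k) g} {q : Vk n k × g.Y → M.X} {Δ : Subgroup g.Γ}
  {π : g.Y → Z.X} {p : Vk n k × g.Y} {γ : g.Γ}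

theorem Qt.inv (hQ : Qt g Δ Z π) (hγ : γ ∈ Δ) (y : g.Y) : π (γ • y) = π y :=
  ((hQ.fib y _).2 ⟨γ, hγ, rfl⟩).symm

/-- The change between two adapted charts. -/
theorem Ad.chg (hD : Dv M h P σ a q) (hQ : Qt g Δ Z π) (hγ : γ ∈ Δ) (hA : a.A γ = 1)
    (H : Ad M h P σ q π c e p) (H' : Ad M h P σ q π c' e' (a.mv γ p)) (he : π p.2 ∈ e.source) :
    c' ∘ c.symm =ᶠ[𝓝 (c (q p))] fun z => jd σ (lo k z + a.b γ) ((e' ∘ e.symm) (dn σ z)) := by
  have h1 : ∀ᶠ x in 𝓝 (q p), c' x = jd σ (lo k (c x) + a.b γ) (e' (e.symm (dn σ (c x)))) := by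
    refine H.nhds hD.cont hQ.loc he (mem_map.2 ?_)
    filter_upwards [H.eq, (a.continuous_mv γ).continuousAt.eventually H'.eq,
      (hQ.loc.continuous.comp continuous_snd).continuousAt.eventually (e.open_source.mem_nhds he)]
      with p' b1 b2 b3
    rw [hD.inv] at b2
    change c' (q p') = _
    rw [b2, b1, lo_jd, dn_jd, e.left_inv (x := π p'.2) b3]
    simp only [Ga.mv, hA, hQ.inv hγ]
    rfl
  filter_upwards [(c.tendsto_symm H.mem).eventually h1,
    c.open_target.mem_nhds (c.map_source H.mem)] with z b1 b2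
  rw [Function.comp_apply, b1, c.right_inv b2]
  rfl

theorem Ad.det_J (hD : Dv M h P σ a q) (hQ : Qt g Δ Z π) (hγ : γ ∈ Δ) (hA : a.A γ = 1)
    (H : Ad M h P σ q π c e p) (H' : Ad M h P σ q π c' e' (a.mv γ p)) (hm : e ∈ Z.C)
    (hm' : e' ∈ Z.C) (he : π p.2 ∈ e.source) (he' : π p.2 ∈ e'.source) :
    (M.J c' c (q p)).det = (Z.J e' e (π p.2)).det := by
  have a0 : dn σ (c (q p)) = e (π p.2) := by rw [H.app, dn_jd]
  rw [Mf.J, jm_congr (H.chg hD hQ hγ hA H' he), jm_tr, det_blk1, a0, Mf.J]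
  rw [a0]
  exact ((mTR d Z).2.1 e' hm' e hm _ he' he).1.self_of_nhds

end ad

end Pool.Agent.Lib.TQ
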